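import Pool.Agent.Helper21.MZVGrowth

set_option autoImplicit false

open Finset Filter Polynomial

namespace Pool.Agent.Helper21

/-- The span of the multiple zeta values of weight `N` over the real algebraic numbers. -/
noncomputable def algSpace (N : ℕ) : Submodule (algebraicClosure ℚ ℝ) ℝ :=
  Submodule.span (algebraicClosure ℚ ℝ) (mzvSpace N : Set ℝ)

theorem mem_algSpace {N : ℕ} {x : ℝ} (hx : x ∈ mzvSpace N) : x ∈ algSpace N :=
  Submodule.subset_span hx

theorem finite_algSpace (N : ℕ) : Module.Finite (algebraicClosure ℚ ℝ) (algSpace N) := by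
  obtain ⟨S, hS⟩ := (Module.Finite.iff_fg.1 (finite_mzvSpace N))
  have h : algSpace N = Submodule.span (algebraicClosure ℚ ℝ) (S : Set ℝ) := by
    apply le_antisymm
    · apply Submodule.span_le.2
      rw [← hS]
      exact Submodule.span_subset_span ℚ (algebraicClosure ℚ ℝ) (S : Set ℝ)
    · apply Submodule.span_mono
      rw [← hS]
      exact Submodule.subset_span
  rw [h]
  exact Module.Finite.span_of_finite _ S.finite_toSet

theorem growthAlg {n : ℕ} {x y : ℝ} (hx : x ∈ mzvSpace n) (hy : y ∈ mzvSpace n)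
    (ht : Transcendental ℚ (x / y)) (k m : ℕ) (h1 : k * n ≤ m) (h2 : m ≠ k * n + 1) :
    k + 1 ≤ Module.finrank (algebraicClosure ℚ ℝ) (algSpace m) := by
  have := finite_algSpace m
  obtain ⟨w, hw, hw0⟩ := exists_ne_zero (m := m - k * n) (by omega)
  have hy0 : y ≠ 0 := by
    rintro rfl
    rw [div_zero] at ht
    exact ht isAlgebraic_zero
  have hmem : ∀ i : Fin (k + 1), x ^ (i : ℕ) * y ^ (k - i) * w ∈ algSpace m := by
    intro i
    apply mem_algSpace
    have h3 := mul_mem_mzvSpace (mul_mem_mzvSpace (pow_mem_mzvSpace hx (i : ℕ))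
      (pow_mem_mzvSpace hy (k - i))) hw
    have hi : (i : ℕ) ≤ k := Nat.lt_succ_iff.1 i.2
    have e : (i : ℕ) * n + (k - i) * n + (m - k * n) = m := by
      rw [← add_mul]
      have : (i : ℕ) + (k - i) = k := by omega
      rw [this]
      omega
    rwa [e] at h3
  have hli : LinearIndependent (algebraicClosure ℚ ℝ) (fun i : Fin (k + 1) =>
      (⟨x ^ (i : ℕ) * y ^ (k - i) * w, hmem i⟩ : algSpace m)) := by
    rw [Fintype.linearIndependent_iff]
    intro g hg i
    have hg' := congrArg (fun z : algSpace m => (z : ℝ)) hg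
    simp only [Submodule.coe_sum, Submodule.coe_smul, Submodule.coe_zero] at hg'
    let c : ℕ → algebraicClosure ℚ ℝ := fun j => if h : j < k + 1 then g ⟨j, h⟩ else 0
    have hcg : ∀ j : Fin (k + 1), c j = g j := by
      intro j
      simp only [c, j.2, dif_pos, Fin.eta]
    clear_value c
    have h4 : ∑ j ∈ range (k + 1), algebraMap (algebraicClosure ℚ ℝ) ℝ (c j) * (x / y) ^ j
        = 0 := by
      rw [Finset.sum_range]
      have e : ∀ j : Fin (k + 1), algebraMap (algebraicClosure ℚ ℝ) ℝ (c j) * (x / y) ^ (j : ℕ) =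
          (g j • (x ^ (j : ℕ) * y ^ (k - j) * w)) * (1 / (y ^ k * w)) := by
        intro j
        have hj : (j : ℕ) ≤ k := Nat.lt_succ_iff.1 j.2
        rw [hcg, Algebra.smul_def, div_pow]
        have e2 : y ^ k = y ^ (j : ℕ) * y ^ (k - j) := by
          rw [← pow_add]
          congr 1
          omega
        rw [e2]
        have h5 : y ^ (j : ℕ) ≠ 0 := pow_ne_zero _ hy0
        have h6 : y ^ (k - (j : ℕ)) ≠ 0 := pow_ne_zero _ hy0
        field_simp
      rw [Finset.sum_congr rfl (fun j _ => e j), ← Finset.sum_mul, hg', zero_mul]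
    have h8 := pow_comb_eq_zero ht.algebraicClosure k c h4 i (Nat.lt_succ_iff.1 i.2)
    rw [hcg] at h8
    exact h8
  have := hli.fintype_card_le_finrank
  simpa using this

theorem alg_of_mem_algSpace {n : ℕ} (h : ∀ z ∈ mzvSpace n, IsAlgebraic ℚ (z / Real.pi ^ n))
    {u : ℝ} (hu : u ∈ algSpace n) : IsAlgebraic ℚ (u / Real.pi ^ n) := by
  induction hu using Submodule.span_induction with
  | mem x hx => exact h x hx
  | zero => rw [zero_div]; exact isAlgebraic_zero
  | add x y _ _ hx hy => rw [add_div]; exact hx.add hy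
  | smul a x _ hx =>
    rw [Algebra.smul_def, mul_div_assoc]
    exact (mem_algebraicClosure_iff.1 a.2).mul hx

theorem indepAlg_of_alg (N : ℕ)
    (h : ∀ n ≤ N, ∀ z ∈ mzvSpace n, IsAlgebraic ℚ (z / Real.pi ^ n)) :
    iSupIndep (fun i : Fin (N + 1) => algSpace i) := by
  classical
  rw [iSupIndep_iff_finsetSum_eq_zero_imp_eq_zero]
  intro s v hv hsum i hi
  let v' : Fin (N + 1) → ℝ := fun j => if j ∈ s then v j else 0
  have hv' : ∀ j : Fin (N + 1), v' j ∈ algSpace j := by
    intro j
    by_cases hj : j ∈ s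
    · simp only [v', if_pos hj]
      exact hv j hj
    · simp only [v', if_neg hj]
      exact Submodule.zero_mem _
  have hsum' : ∑ j, v' j = 0 := by
    rw [← hsum]
    simp only [v']
    rw [Finset.sum_ite_mem, Finset.univ_inter]
  have hvi : v' i = v i := by simp only [v', if_pos hi]
  rw [← hvi]
  clear_value v'
  let u : ℕ → ℝ := fun j => if h : j < N + 1 then v' ⟨j, h⟩ else 0
  have huv : ∀ j : Fin (N + 1), u j = v' j := by
    intro j
    simp only [u, j.2, dif_pos, Fin.eta]
  clear_value u
  have h1 := indep_of_alg_aux N u (by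
    intro n hn
    have := huv ⟨n, Nat.lt_succ_of_le hn⟩
    simp only at this
    rw [this]
    exact alg_of_mem_algSpace (h n hn) (hv' ⟨n, Nat.lt_succ_of_le hn⟩)) (by
    rw [Finset.sum_range, Finset.sum_congr rfl (fun j _ => huv j)]
    exact hsum')
  have h2 := h1 i (Nat.lt_succ_iff.1 i.2)
  rw [huv] at h2
  exact h2

end Pool.Agent.Helper21
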