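import Mathlib

set_option autoImplicit false

open Finset Filter

namespace Pool.Agent.Helper21

/-- The multiple zeta value of the index `k`, summed over `n 0 > n 1 > ... ≥ 1`. -/
noncomputable def mzv {r : ℕ} (k : Fin r → ℕ) : ℝ :=
  ∑' n : {n : Fin r → ℕ // StrictAnti n ∧ ∀ i, 1 ≤ n i}, ∏ i, (1 / (n.1 i : ℝ)) ^ (k i)

/-- The space of multiple zeta values of weight `N`. -/
noncomputable def mzvSpace (N : ℕ) : Submodule ℚ ℝ :=
  Submodule.span ℚ {x : ℝ | ∃ r : ℕ, ∃ k : Fin r → ℕ, (∀ i, 1 ≤ k i) ∧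
    (∀ h : 0 < r, 2 ≤ k ⟨0, h⟩) ∧ (∑ i, k i) = N ∧ x = mzv k}

/-- Truncated nested sums. -/
noncomputable def H : List ℕ → ℕ → ℝ
  | [], _ => 1
  | a :: w, n => ∑ m ∈ range n, (1 / ((m + 1 : ℕ) : ℝ)) ^ a * H w m

theorem H_nil (n : ℕ) : H [] n = 1 := rfl

theorem H_cons (a : ℕ) (w : List ℕ) (n : ℕ) :
    H (a :: w) n = ∑ m ∈ range n, (1 / ((m + 1 : ℕ) : ℝ)) ^ a * H w m := rfl

theorem H_nonneg (w : List ℕ) (n : ℕ) : 0 ≤ H w n := by
  induction w generalizing n with
  | nil => simp [H_nil]
  | cons a w ih =>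
    rw [H_cons]
    apply Finset.sum_nonneg
    intro m _
    have := ih m
    positivity

theorem H_mono (w : List ℕ) : Monotone (H w) := by
  cases w with
  | nil => intro a b _; simp [H_nil]
  | cons a w =>
    apply monotone_nat_of_le_succ
    intro n
    rw [H_cons, H_cons, Finset.sum_range_succ]
    have := H_nonneg w n
    have h2 : 0 ≤ (1 / ((n + 1 : ℕ) : ℝ)) ^ a := by positivity
    nlinarith [mul_nonneg h2 this]

/-- Stuffle product for truncated sums. -/
theorem exists_stuffle (u v : List ℕ) (hu : ∀ a ∈ u, 1 ≤ a) (hv : ∀ a ∈ v, 1 ≤ a) :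
    ∃ ws : List (List ℕ), (∀ n, H u n * H v n = (ws.map (fun w => H w n)).sum) ∧
      ∀ w ∈ ws, (∀ a ∈ w, 1 ≤ a) ∧ w.sum = u.sum + v.sum ∧
        ((∀ a t, u = a :: t → 2 ≤ a) → (∀ a t, v = a :: t → 2 ≤ a) →
          (∀ a t, w = a :: t → 2 ≤ a)) := by
  induction hl : u.length + v.length using Nat.strong_induction_on generalizing u v with
  | _ l ih =>
  match u, v with
  | [], v =>
    refine ⟨[v], ?_, ?_⟩
    · intro n; simp [H_nil]
    · intro w hw
      simp only [List.mem_singleton] at hw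
      subst hw
      exact ⟨hv, by simp, fun _ h => h⟩
  | a :: u, [] =>
    refine ⟨[a :: u], ?_, ?_⟩
    · intro n; simp [H_nil]
    · intro w hw
      simp only [List.mem_singleton] at hw
      subst hw
      exact ⟨hu, by simp, fun h _ => h⟩
  | a :: u, b :: v =>
    have hu' : ∀ c ∈ u, 1 ≤ c := fun c hc => hu c (List.mem_cons_of_mem _ hc)
    have hv' : ∀ c ∈ v, 1 ≤ c := fun c hc => hv c (List.mem_cons_of_mem _ hc)
    have ha : 1 ≤ a := hu a List.mem_cons_self
    have hb : 1 ≤ b := hv b List.mem_cons_self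
    simp only [List.length_cons] at hl
    obtain ⟨w1, h1, h1'⟩ := ih (u.length + (b :: v).length) (by simp only [List.length_cons]; omega)
      u (b :: v) hu' hv rfl
    obtain ⟨w2, h2, h2'⟩ := ih ((a :: u).length + v.length) (by simp only [List.length_cons]; omega)
      (a :: u) v hu hv' rfl
    obtain ⟨w3, h3, h3'⟩ := ih (u.length + v.length) (by omega) u v hu' hv' rfl
    refine ⟨w1.map (fun w => a :: w) ++ w2.map (fun w => b :: w) ++
      w3.map (fun w => (a + b) :: w), ?_, ?_⟩
    · intro n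
      rw [List.map_append, List.map_append, List.sum_append, List.sum_append, List.map_map,
        List.map_map, List.map_map]
      have key : ∀ (c : ℕ) (ws : List (List ℕ)), (ws.map ((fun w => H w n) ∘ fun w => c :: w)).sum
          = ∑ m ∈ range n, (1 / ((m + 1 : ℕ) : ℝ)) ^ c * (ws.map (fun w => H w m)).sum := by
        intro c ws
        induction ws with
        | nil => simp
        | cons w ws ih2 =>
          rw [List.map_cons, List.sum_cons, ih2]
          simp only [Function.comp_apply, List.map_cons, List.sum_cons]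
          rw [H_cons, ← Finset.sum_add_distrib]
          apply Finset.sum_congr rfl
          intro m _
          ring
      rw [key, key, key]
      have e1 : ∀ m, (w1.map (fun w => H w m)).sum = H u m * H (b :: v) m := fun m => (h1 m).symm
      have e2 : ∀ m, (w2.map (fun w => H w m)).sum = H (a :: u) m * H v m := fun m => (h2 m).symm
      have e3 : ∀ m, (w3.map (fun w => H w m)).sum = H u m * H v m := fun m => (h3 m).symm
      simp only [e1, e2, e3]
      clear key e1 e2 e3 h1 h2 h3
      induction n with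
      | zero => simp [H_cons]
      | succ n ihn =>
        rw [Finset.sum_range_succ, Finset.sum_range_succ, Finset.sum_range_succ]
        have e1 : H (a :: u) (n + 1) = H (a :: u) n + (1 / ((n + 1 : ℕ) : ℝ)) ^ a * H u n := by
          rw [H_cons, H_cons, Finset.sum_range_succ]
        have e2 : H (b :: v) (n + 1) = H (b :: v) n + (1 / ((n + 1 : ℕ) : ℝ)) ^ b * H v n := by
          rw [H_cons, H_cons, Finset.sum_range_succ]
        rw [e1, e2, pow_add]
        linear_combination ihn
    · intro w hw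
      rw [List.mem_append, List.mem_append, List.mem_map, List.mem_map, List.mem_map] at hw
      rcases hw with (⟨w', hw', rfl⟩ | ⟨w', hw', rfl⟩) | ⟨w', hw', rfl⟩
      · obtain ⟨p1, p2, _⟩ := h1' w' hw'
        refine ⟨?_, ?_, ?_⟩
        · intro c hc
          rcases List.mem_cons.1 hc with rfl | hc
          · exact ha
          · exact p1 c hc
        · simp only [List.sum_cons] at p2 ⊢
          omega
        · intro g1 _ c t hct
          have := g1 a u rfl
          have hh := (List.cons.inj hct).1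
          omega
      · obtain ⟨p1, p2, _⟩ := h2' w' hw'
        refine ⟨?_, ?_, ?_⟩
        · intro c hc
          rcases List.mem_cons.1 hc with rfl | hc
          · exact hb
          · exact p1 c hc
        · simp only [List.sum_cons] at p2 ⊢
          omega
        · intro _ g2 c t hct
          have := g2 b v rfl
          have hh := (List.cons.inj hct).1
          omega
      · obtain ⟨p1, p2, _⟩ := h3' w' hw'
        refine ⟨?_, ?_, ?_⟩
        · intro c hc
          rcases List.mem_cons.1 hc with rfl | hc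
          · omega
          · exact p1 c hc
        · simp only [List.sum_cons] at p2 ⊢
          omega
        · intro _ _ c t hct
          have hh := (List.cons.inj hct).1
          omega


/-- Key telescoping bound used for convergence. -/
theorem bound_step (h : ℕ → ℝ) (hh : ∀ n, 0 ≤ h n) (n : ℕ) :
    ∑ m ∈ range n, (1 / ((m + 1 : ℕ) : ℝ)) ^ 2 * (∑ j ∈ range m, (1 / ((j + 1 : ℕ) : ℝ)) * h j)
      + (1 / (n : ℝ)) * ∑ j ∈ range n, (1 / ((j + 1 : ℕ) : ℝ)) * h j
      ≤ ∑ j ∈ range n, (1 / ((j + 1 : ℕ) : ℝ)) ^ 2 * h j := by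
  induction n with
  | zero => simp
  | succ n ih =>
    rw [Finset.sum_range_succ, Finset.sum_range_succ (fun j => (1 / ((j + 1 : ℕ) : ℝ)) ^ 2 * h j),
      Finset.sum_range_succ (fun j => (1 / ((j + 1 : ℕ) : ℝ)) * h j)]
    set S := ∑ j ∈ range n, (1 / ((j + 1 : ℕ) : ℝ)) * h j with hS
    have hS0 : 0 ≤ S := Finset.sum_nonneg (fun j _ => mul_nonneg (by positivity) (hh j))
    have hn := hh n
    rcases Nat.eq_zero_or_pos n with rfl | hpos
    · simp [hS] at ih ⊢
    · have hn0 : (0 : ℝ) < n := by exact_mod_cast hpos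
      have hn1 : (0 : ℝ) < (n : ℝ) + 1 := by positivity
      push_cast at ih ⊢
      have key : (1 / ((n : ℝ) + 1)) ^ 2 * S + 1 / ((n : ℝ) + 1) * S ≤ 1 / (n : ℝ) * S := by
        rw [← add_mul]
        apply mul_le_mul_of_nonneg_right _ hS0
        have e : 1 / (n : ℝ) - ((1 / ((n : ℝ) + 1)) ^ 2 + 1 / ((n : ℝ) + 1))
            = 1 / ((n : ℝ) * ((n : ℝ) + 1) ^ 2) := by
          field_simp
          ring
        have e2 : 0 ≤ 1 / ((n : ℝ) * ((n : ℝ) + 1) ^ 2) := by positivity
        linarith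
      have e3 : 1 / ((n : ℝ) + 1) * (S + 1 / ((n : ℝ) + 1) * h n)
          = 1 / ((n : ℝ) + 1) * S + (1 / ((n : ℝ) + 1)) ^ 2 * h n := by ring
      rw [e3]
      linarith [key, ih]

theorem H_bound_two (w : List ℕ) (hw : ∀ a ∈ w, 1 ≤ a) (n : ℕ) :
    ∑ m ∈ range n, (1 / ((m + 1 : ℕ) : ℝ)) ^ 2 * H w m ≤
      ∑ m ∈ range n, (1 / ((m + 1 : ℕ) : ℝ)) ^ 2 := by
  induction w with
  | nil => simp [H_nil]
  | cons b w ih =>
    have ih' := ih (fun a ha => hw a (List.mem_cons_of_mem _ ha))
    have hb : 1 ≤ b := hw b List.mem_cons_self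
    refine le_trans ?_ ih'
    refine le_trans ?_ (bound_step (H w) (H_nonneg w) n)
    have h1 : ∑ m ∈ range n, (1 / ((m + 1 : ℕ) : ℝ)) ^ 2 * H (b :: w) m ≤
        ∑ m ∈ range n, (1 / ((m + 1 : ℕ) : ℝ)) ^ 2 *
          (∑ j ∈ range m, (1 / ((j + 1 : ℕ) : ℝ)) * H w j) := by
      apply Finset.sum_le_sum
      intro m _
      apply mul_le_mul_of_nonneg_left _ (by positivity)
      rw [H_cons]
      apply Finset.sum_le_sum
      intro j _
      apply mul_le_mul_of_nonneg_right _ (H_nonneg w j)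
      have h0 : (0 : ℝ) ≤ 1 / ((j + 1 : ℕ) : ℝ) := by positivity
      have h1 : (1 : ℝ) / ((j + 1 : ℕ) : ℝ) ≤ 1 := by
        rw [div_le_one (by positivity)]
        push_cast
        linarith [Nat.cast_nonneg (α := ℝ) j]
      calc (1 / ((j + 1 : ℕ) : ℝ)) ^ b ≤ (1 / ((j + 1 : ℕ) : ℝ)) ^ 1 :=
            pow_le_pow_of_le_one h0 h1 hb
        _ = _ := pow_one _
    have h2 : 0 ≤ (1 / (n : ℝ)) * ∑ j ∈ range n, (1 / ((j + 1 : ℕ) : ℝ)) * H w j := by
      apply mul_nonneg (by positivity)
      apply Finset.sum_nonneg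
      intro j _
      exact mul_nonneg (by positivity) (H_nonneg w j)
    linarith

theorem summable_sq : Summable (fun m : ℕ => (1 / ((m + 1 : ℕ) : ℝ)) ^ 2) := by
  have h := (summable_nat_add_iff (f := fun n : ℕ => (1 : ℝ) / (n : ℝ) ^ 2) 1).2
    hasSum_zeta_two.summable
  refine h.congr ?_
  intro m
  rw [one_div_pow]

theorem H_bddAbove (w : List ℕ) (hw : ∀ a ∈ w, 1 ≤ a) (hw2 : ∀ a t, w = a :: t → 2 ≤ a) :
    BddAbove (Set.range (H w)) := by
  cases w with
  | nil => exact ⟨1, by rintro _ ⟨n, rfl⟩; simp [H_nil]⟩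
  | cons a w =>
    have ha := hw2 a w rfl
    refine ⟨∑' m : ℕ, (1 / ((m + 1 : ℕ) : ℝ)) ^ 2, ?_⟩
    rintro _ ⟨n, rfl⟩
    rw [H_cons]
    have h1 : ∑ m ∈ range n, (1 / ((m + 1 : ℕ) : ℝ)) ^ a * H w m ≤
        ∑ m ∈ range n, (1 / ((m + 1 : ℕ) : ℝ)) ^ 2 * H w m := by
      apply Finset.sum_le_sum
      intro j _
      apply mul_le_mul_of_nonneg_right _ (H_nonneg w j)
      have h0 : (0 : ℝ) ≤ 1 / ((j + 1 : ℕ) : ℝ) := by positivity
      have h1 : (1 : ℝ) / ((j + 1 : ℕ) : ℝ) ≤ 1 := by
        rw [div_le_one (by positivity)]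
        push_cast
        linarith [Nat.cast_nonneg (α := ℝ) j]
      exact pow_le_pow_of_le_one h0 h1 ha
    refine h1.trans ((H_bound_two w (fun c hc => hw c (List.mem_cons_of_mem _ hc)) n).trans ?_)
    exact summable_sq.sum_le_tsum _ (fun _ _ => by positivity)

/-- The limit of the truncated sums. -/
noncomputable def zl (w : List ℕ) : ℝ := ⨆ n, H w n

theorem tendsto_H (w : List ℕ) (hw : ∀ a ∈ w, 1 ≤ a) (hw2 : ∀ a t, w = a :: t → 2 ≤ a) :
    Tendsto (H w) atTop (nhds (zl w)) :=
  tendsto_atTop_ciSup (H_mono w) (H_bddAbove w hw hw2)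

/-- Strictly decreasing index tuples with entries in `[1, n]`. -/
def T (r n : ℕ) : Finset (Fin r → ℕ) :=
  (Fintype.piFinset (fun _ : Fin r => Finset.Icc 1 n)).filter (fun f => StrictAnti f)

theorem mem_T {r n : ℕ} {f : Fin r → ℕ} :
    f ∈ T r n ↔ (∀ i, 1 ≤ f i ∧ f i ≤ n) ∧ StrictAnti f := by
  unfold T
  rw [Finset.mem_filter, Fintype.mem_piFinset]
  simp only [Finset.mem_Icc]

theorem strictAnti_succ_iff {r : ℕ} (f : Fin (r + 1) → ℕ) :
    StrictAnti f ↔ StrictAnti (fun i : Fin r => f i.succ) ∧ ∀ i : Fin r, f i.succ < f 0 := by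
  constructor
  · intro h
    refine ⟨fun i j hij => h (Fin.succ_lt_succ_iff.2 hij), fun i => h (Fin.succ_pos i)⟩
  · rintro ⟨h1, h2⟩ i j hij
    induction i using Fin.cases with
    | zero =>
      induction j using Fin.cases with
      | zero => exact absurd hij (lt_irrefl _)
      | succ j => exact h2 j
    | succ i =>
      induction j using Fin.cases with
      | zero => exact absurd hij (by simp)
      | succ j => exact h1 (Fin.succ_lt_succ_iff.1 hij)

theorem sum_T (r : ℕ) (k : Fin r → ℕ) (n : ℕ) :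
    ∑ f ∈ T r n, ∏ i, (1 / (f i : ℝ)) ^ (k i) = H (List.ofFn k) n := by
  induction r generalizing n with
  | zero =>
    have : T 0 n = {Fin.elim0} := by
      ext f
      rw [mem_T, Finset.mem_singleton]
      constructor
      · intro _; exact Subsingleton.elim _ _
      · intro _
        exact ⟨fun i => i.elim0, fun i => i.elim0⟩
    rw [this]
    simp [H_nil]
  | succ r ih =>
    rw [List.ofFn_succ, H_cons]
    have e1 : ∀ m, H (List.ofFn fun i : Fin r => k i.succ) m =
        ∑ f ∈ T r m, ∏ i, (1 / (f i : ℝ)) ^ (k i.succ) := fun m => (ih _ m).symm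
    simp only [e1, Finset.mul_sum]
    rw [Finset.sum_sigma']
    symm
    apply Finset.sum_bij' (fun (p : (_ : ℕ) × (Fin r → ℕ)) _ => (Fin.cons (p.1 + 1) p.2 : Fin (r + 1) → ℕ))
      (fun f _ => ⟨f 0 - 1, fun i => f i.succ⟩)
    · rintro ⟨m, g⟩ hp
      rw [Finset.mem_sigma, Finset.mem_range, mem_T] at hp
      obtain ⟨hm, hg, hg2⟩ := hp
      dsimp only at hm hg hg2
      rw [mem_T]
      constructor
      · intro i
        induction i using Fin.cases with
        | zero => simp only [Fin.cons_zero]; constructor <;> omega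
        | succ i =>
          simp only [Fin.cons_succ]
          have := hg i
          constructor <;> omega
      · rw [strictAnti_succ_iff]
        constructor
        · simpa only [Fin.cons_succ] using hg2
        · intro i
          simp only [Fin.cons_succ, Fin.cons_zero]
          have := hg i
          omega
    · intro f hf
      rw [mem_T] at hf
      obtain ⟨h1, h2⟩ := hf
      rw [strictAnti_succ_iff] at h2
      rw [Finset.mem_sigma, Finset.mem_range, mem_T]
      have h0 := h1 0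
      refine ⟨by simp only; omega, fun i => ?_, h2.1⟩
      have hi := h1 i.succ
      have hi2 := h2.2 i
      simp only
      constructor <;> omega
    · rintro ⟨m, g⟩ _
      simp
    · intro f hf
      rw [mem_T] at hf
      have h0 := (hf.1 0).1
      ext i
      induction i using Fin.cases with
      | zero => simp only [Fin.cons_zero]; omega
      | succ i => simp only [Fin.cons_succ]
    · rintro ⟨m, g⟩ _
      rw [Fin.prod_univ_succ]
      simp only [Fin.cons_zero, Fin.cons_succ]

theorem mzv_eq_zl {r : ℕ} (k : Fin r → ℕ) (hk : ∀ i, 1 ≤ k i) (hk2 : ∀ h : 0 < r, 2 ≤ k ⟨0, h⟩) :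
    mzv k = zl (List.ofFn k) := by
  classical
  have hw : ∀ a ∈ List.ofFn k, 1 ≤ a := by
    intro a ha
    rw [List.mem_ofFn] at ha
    obtain ⟨i, rfl⟩ := ha
    exact hk i
  have hw2 : ∀ a t, List.ofFn k = a :: t → 2 ≤ a := by
    intro a t h
    cases r with
    | zero => simp at h
    | succ r =>
      rw [List.ofFn_succ] at h
      have := (List.cons.inj h).1
      have h2 := hk2 (Nat.succ_pos r)
      rw [← this]
      exact h2
  have hbdd := H_bddAbove _ hw hw2
  unfold mzv
  apply HasSum.tsum_eq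
  apply hasSum_of_isLUB_of_nonneg
  · intro n
    positivity
  · -- is LUB
    have hsub : ∀ n, ∑ f ∈ (T r n).subtype (fun f => StrictAnti f ∧ ∀ i, 1 ≤ f i),
        ∏ i, (1 / (f.1 i : ℝ)) ^ (k i) = H (List.ofFn k) n := by
      intro n
      rw [← sum_T]
      rw [Finset.sum_subtype_of_mem (f := fun f : Fin r → ℕ => ∏ i, (1 / (f i : ℝ)) ^ (k i))]
      intro f hf
      rw [mem_T] at hf
      exact ⟨hf.2, fun i => (hf.1 i).1⟩
    constructor
    · rintro _ ⟨s, rfl⟩
      -- find n with s ⊆ T r n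
      obtain ⟨n, hn⟩ : ∃ n, ∀ f ∈ s, ∀ i, f.1 i ≤ n := by
        refine ⟨∑ f ∈ s, ∑ i, f.1 i, ?_⟩
        intro f hf i
        calc f.1 i ≤ ∑ i, f.1 i := Finset.single_le_sum (f := fun i => f.1 i)
              (fun _ _ => Nat.zero_le _) (Finset.mem_univ i)
          _ ≤ _ := Finset.single_le_sum (f := fun f : {f : Fin r → ℕ // StrictAnti f ∧ ∀ i, 1 ≤ f i} =>
                ∑ i, f.1 i) (fun _ _ => Nat.zero_le _) hf
      have hss : s ⊆ (T r n).subtype (fun f => StrictAnti f ∧ ∀ i, 1 ≤ f i) := by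
        intro f hf
        rw [Finset.mem_subtype, mem_T]
        exact ⟨fun i => ⟨f.2.2 i, hn f hf i⟩, f.2.1⟩
      calc ∑ f ∈ s, ∏ i, (1 / (f.1 i : ℝ)) ^ (k i)
          ≤ ∑ f ∈ (T r n).subtype (fun f => StrictAnti f ∧ ∀ i, 1 ≤ f i),
              ∏ i, (1 / (f.1 i : ℝ)) ^ (k i) :=
            Finset.sum_le_sum_of_subset_of_nonneg hss (fun f _ _ => by positivity)
        _ = H (List.ofFn k) n := hsub n
        _ ≤ zl (List.ofFn k) := le_ciSup hbdd n
    · intro b hb
      apply ciSup_le
      intro n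
      rw [← hsub n]
      exact hb ⟨_, rfl⟩

end Pool.Agent.Helper21
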