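import Pool.Agent.Helper21.MZVAlg

set_option autoImplicit false

open Finset Filter Polynomial

namespace Pool.Agent.Helper21

/-- The field of all ratios of two elements of a common weight space. -/
noncomputable def ratioField : Subfield ℝ where
  carrier := {x | ∃ N : ℕ, ∃ a ∈ mzvSpace N, ∃ b ∈ mzvSpace N, x = a / b}
  mul_mem' := by
    rintro _ _ ⟨N, a, ha, b, hb, rfl⟩ ⟨M, c, hc, d, hd, rfl⟩
    exact ⟨N + M, a * c, mul_mem_mzvSpace ha hc, b * d, mul_mem_mzvSpace hb hd,
      div_mul_div_comm a b c d⟩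
  one_mem' := ⟨0, 1, one_mem_mzvSpace, 1, one_mem_mzvSpace, by norm_num⟩
  add_mem' := by
    rintro _ _ ⟨N, a, ha, b, hb, rfl⟩ ⟨M, c, hc, d, hd, rfl⟩
    by_cases hb0 : b = 0
    · exact ⟨M, c, hc, d, hd, by rw [hb0, div_zero, zero_add]⟩
    · by_cases hd0 : d = 0
      · exact ⟨N, a, ha, b, hb, by rw [hd0, div_zero, add_zero]⟩
      · exact ⟨N + M, a * d + b * c, Submodule.add_mem _ (mul_mem_mzvSpace ha hd)
          (mul_mem_mzvSpace hb hc), b * d, mul_mem_mzvSpace hb hd, div_add_div a c hb0 hd0⟩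
  zero_mem' := ⟨0, 0, Submodule.zero_mem _, 1, one_mem_mzvSpace, by norm_num⟩
  neg_mem' := by
    rintro _ ⟨N, a, ha, b, hb, rfl⟩
    exact ⟨N, -a, Submodule.neg_mem _ ha, b, hb, (neg_div b a).symm⟩
  inv_mem' := by
    rintro _ ⟨N, a, ha, b, hb, rfl⟩
    exact ⟨N, b, hb, a, ha, inv_div a b⟩

theorem mem_ratioField {x : ℝ} :
    x ∈ ratioField ↔ ∃ N : ℕ, ∃ a ∈ mzvSpace N, ∃ b ∈ mzvSpace N, x = a / b := Iff.rfl

theorem div_mem_ratioField {N : ℕ} {a b : ℝ} (ha : a ∈ mzvSpace N) (hb : b ∈ mzvSpace N) :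
    a / b ∈ ratioField := ⟨N, a, ha, b, hb, rfl⟩

theorem rep_ratioField {x : ℝ} (hx : x ∈ ratioField) :
    ∃ N : ℕ, ∃ a ∈ mzvSpace N, ∃ b ∈ mzvSpace N, b ≠ 0 ∧ x = a / b := by
  obtain ⟨N, a, ha, b, hb, rfl⟩ := hx
  by_cases hb0 : b = 0
  · exact ⟨0, 0, Submodule.zero_mem _, 1, one_mem_mzvSpace, one_ne_zero, by
      rw [hb0, div_zero, zero_div]⟩
  · exact ⟨N, a, ha, b, hb, hb0, rfl⟩

theorem common_denom (c : ℕ → ℝ) (hc : ∀ i, c i ∈ ratioField) (D : ℕ) :
    ∃ W : ℕ, ∃ B ∈ mzvSpace W, B ≠ 0 ∧ ∀ i < D, c i * B ∈ mzvSpace W := by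
  induction D with
  | zero => exact ⟨0, 1, one_mem_mzvSpace, one_ne_zero, fun i hi => absurd hi (Nat.not_lt_zero i)⟩
  | succ D ih =>
    obtain ⟨W, B, hB, hB0, h⟩ := ih
    obtain ⟨N, a, ha, b, hb, hb0, hx⟩ := rep_ratioField (hc D)
    refine ⟨W + N, B * b, mul_mem_mzvSpace hB hb, mul_ne_zero hB0 hb0, ?_⟩
    intro i hi
    rcases Nat.lt_succ_iff_lt_or_eq.1 hi with h1 | h1
    · have h2 := mul_mem_mzvSpace (h i h1) hb
      rwa [mul_assoc] at h2
    · have h2 := mul_mem_mzvSpace hB ha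
      have e : c i * (B * b) = B * a := by
        rw [h1, hx]
        field_simp
      rwa [e]

theorem trans_t (hind : iSupIndep mzvSpace) :
    Transcendental ratioField (zl [3] / Real.pi ^ 2) := by
  rw [transcendental_iff]
  intro P hP
  have hq0 : zl [3] ≠ 0 := zl_three_pos.ne'
  have hp0 : Real.pi ^ 2 ≠ 0 := by have := Real.pi_pos; positivity
  obtain ⟨W, B, hB, hB0, hc⟩ := common_denom (fun i => ((P.coeff i : ratioField) : ℝ))
    (fun i => (P.coeff i).2) (P.natDegree + 1)
  set D := P.natDegree with hD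
  have hinj : Function.Injective (fun i : ℕ => W + 2 * D + i) := fun i j h => by
    simp only at h
    omega
  have hind2 := hind.comp hinj
  rw [iSupIndep_iff_finsetSum_eq_zero_imp_eq_zero] at hind2
  have hfin := hind2 (range (D + 1)) (fun i => (((P.coeff i : ratioField) : ℝ) * B) * zl [3] ^ i *
    (Real.pi ^ 2) ^ (D - i)) (by
    intro i hi
    have hi' : i < D + 1 := Finset.mem_range.1 hi
    have h1 := mul_mem_mzvSpace (mul_mem_mzvSpace (hc i hi') (pow_mem_mzvSpace zl_three_mem i))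
      (pow_mem_mzvSpace pi_sq_mem (D - i))
    have e : W + i * 3 + (D - i) * 2 = W + 2 * D + i := by omega
    rw [e] at h1
    exact h1) (by
    have e : ∀ i ∈ range (D + 1), (((P.coeff i : ratioField) : ℝ) * B) * zl [3] ^ i *
        (Real.pi ^ 2) ^ (D - i) = (((P.coeff i : ratioField) : ℝ) * (zl [3] / Real.pi ^ 2) ^ i) *
          (B * (Real.pi ^ 2) ^ D) := by
      intro i hi
      have hi' : i ≤ D := Nat.lt_succ_iff.1 (Finset.mem_range.1 hi)
      have e2 : (Real.pi ^ 2) ^ D = (Real.pi ^ 2) ^ (D - i) * (Real.pi ^ 2) ^ i := by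
        rw [← pow_add]
        congr 1
        omega
      rw [e2, div_pow (zl [3]) (Real.pi ^ 2) i]
      field_simp
    rw [Finset.sum_congr rfl e, ← Finset.sum_mul]
    have h2 : ∑ i ∈ range (D + 1), ((P.coeff i : ratioField) : ℝ) * (zl [3] / Real.pi ^ 2) ^ i
        = 0 := by
      rw [← hP, aeval_eq_sum_range]
      apply Finset.sum_congr rfl
      intro i _
      rw [Algebra.smul_def]
      rfl
    rw [h2, zero_mul])
  ext i
  rw [coeff_zero]
  by_cases hi : i ≤ D
  · have h3 := hfin i (Finset.mem_range.2 (Nat.lt_succ_of_le hi))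
    have h4 : zl [3] ^ i ≠ 0 := pow_ne_zero _ hq0
    have h5 : (Real.pi ^ 2) ^ (D - i) ≠ 0 := pow_ne_zero _ hp0
    rcases mul_eq_zero.1 h3 with h6 | h6
    · rcases mul_eq_zero.1 h6 with h7 | h7
      · rcases mul_eq_zero.1 h7 with h8 | h8
        · exact_mod_cast h8
        · exact absurd h8 hB0
      · exact absurd h7 h4
    · exact absurd h6 h5
  · rw [coeff_eq_zero_of_natDegree_lt (by omega)]

theorem alg_ratio_of_mem {n : ℕ} {u : ℝ} (hu : u ∈ algSpace n) :
    IsAlgebraic ratioField (u / (zl [3] / Real.pi ^ 2) ^ n) := by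
  have hq0 : zl [3] ≠ 0 := zl_three_pos.ne'
  have hp0 : Real.pi ^ 2 ≠ 0 := by have := Real.pi_pos; positivity
  induction hu using Submodule.span_induction with
  | mem x hx =>
    have h1 : x / (zl [3] / Real.pi ^ 2) ^ n ∈ ratioField := by
      have e : x / (zl [3] / Real.pi ^ 2) ^ n = (x * (Real.pi ^ 2) ^ n) / zl [3] ^ n := by
        rw [div_pow (zl [3]) (Real.pi ^ 2) n]
        field_simp
      rw [e]
      have h2 := mul_mem_mzvSpace hx (pow_mem_mzvSpace pi_sq_mem n)
      have h3 := pow_mem_mzvSpace zl_three_mem n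
      have e2 : n + n * 2 = n * 3 := by ring
      rw [e2] at h2
      exact div_mem_ratioField h2 h3
    exact isAlgebraic_algebraMap (⟨_, h1⟩ : ratioField)
  | zero => rw [zero_div]; exact isAlgebraic_zero
  | add x y _ _ hx hy => rw [add_div]; exact hx.add hy
  | smul a x _ hx =>
    rw [Algebra.smul_def, mul_div_assoc]
    refine IsAlgebraic.mul ?_ hx
    have h1 : IsAlgebraic ℚ (algebraMap (algebraicClosure ℚ ℝ) ℝ a) :=
      mem_algebraicClosure_iff.1 a.2
    exact h1.tower_top ratioField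

/-- Independence over the rationals of the weight spaces implies independence of their spans
over the real algebraic numbers. -/
theorem indep_algSpace (hind : iSupIndep mzvSpace) : iSupIndep algSpace := by
  classical
  have hq0 : zl [3] ≠ 0 := zl_three_pos.ne'
  have hp0 : Real.pi ^ 2 ≠ 0 := by have := Real.pi_pos; positivity
  have ht := (trans_t hind).algebraicClosure
  set t : ℝ := zl [3] / Real.pi ^ 2 with htdef
  have ht0 : t ≠ 0 := div_ne_zero hq0 hp0
  rw [iSupIndep_iff_finsetSum_eq_zero_imp_eq_zero]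
  intro s u hu hsum i hi
  obtain ⟨D, hD⟩ : ∃ D, s ⊆ range (D + 1) := by
    obtain ⟨D, hD⟩ := s.exists_nat_subset_range
    exact ⟨D, hD.trans (Finset.range_mono (Nat.le_succ D))⟩
  let u' : ℕ → ℝ := fun n => if n ∈ s then u n else 0
  have hu' : ∀ n, u' n ∈ algSpace n := by
    intro n
    by_cases h : n ∈ s
    · simp only [u', if_pos h]; exact hu n h
    · simp only [u', if_neg h]; exact Submodule.zero_mem _
  have hsum' : ∑ n ∈ range (D + 1), u' n = 0 := by
    rw [← hsum]
    simp only [u']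
    rw [Finset.sum_ite_mem, Finset.inter_eq_right.2 hD]
  have hui : u' i = u i := by simp only [u', if_pos hi]
  rw [← hui]
  clear_value u'
  let c : ℕ → algebraicClosure ratioField ℝ := fun n =>
    ⟨u' n / t ^ n, mem_algebraicClosure_iff.2 (alg_ratio_of_mem (hu' n))⟩
  have hc : ∀ n, algebraMap (algebraicClosure ratioField ℝ) ℝ (c n) = u' n / t ^ n := fun n => rfl
  clear_value c
  have h1 := pow_comb_eq_zero ht D c (by
    rw [← hsum']
    apply Finset.sum_congr rfl
    intro n _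
    rw [hc]
    have : t ^ n ≠ 0 := pow_ne_zero _ ht0
    field_simp) i (Nat.lt_succ_iff.1 (Finset.mem_range.1 (hD hi)))
  have h2 := hc i
  rw [h1, map_zero] at h2
  have h3 : t ^ i ≠ 0 := pow_ne_zero _ ht0
  have h4 := (div_eq_zero_iff.1 h2.symm)
  rcases h4 with h4 | h4
  · exact h4
  · exact absurd h4 h3

/-- The converse is immediate. -/
theorem indep_of_indep_algSpace (hind : iSupIndep algSpace) : iSupIndep mzvSpace := by
  rw [iSupIndep_iff_finsetSum_eq_zero_imp_eq_zero] at hind ⊢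
  intro s v hv hsum i hi
  exact hind s v (fun j hj => mem_algSpace (hv j hj)) hsum i hi

theorem trans_pi_of_indep (hind : iSupIndep mzvSpace) : Transcendental ratioField Real.pi := by
  intro hA
  apply trans_t hind
  have hq0 : zl [3] ≠ 0 := zl_three_pos.ne'
  have hpi := Real.pi_pos
  apply IsAlgebraic.of_pow (n := 2) (by norm_num)
  have h1 : zl [3] ^ 2 / Real.pi ^ 6 ∈ ratioField :=
    div_mem_ratioField (pow_mem_mzvSpace zl_three_mem 2) (pi_pow_mem (by decide))
  have e : (zl [3] / Real.pi ^ 2) ^ 2 = (zl [3] ^ 2 / Real.pi ^ 6) * Real.pi ^ 2 := by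
    field_simp
  rw [e]
  exact (isAlgebraic_algebraMap (⟨_, h1⟩ : ratioField)).mul (hA.pow 2)

theorem alg_div_pi_pow {n : ℕ} {v : ℝ} (hv : v ∈ mzvSpace n) :
    IsAlgebraic ratioField (v / Real.pi ^ n) := by
  apply IsAlgebraic.of_pow (n := 2) (by norm_num)
  have h1 : (v / Real.pi ^ n) ^ 2 ∈ ratioField := by
    rw [div_pow, ← pow_mul, mul_comm n 2]
    exact div_mem_ratioField (pow_mem_mzvSpace hv 2) (pi_pow_mem (even_two_mul n))
  exact isAlgebraic_algebraMap (⟨_, h1⟩ : ratioField)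

theorem indep_of_trans_pi (hπ : Transcendental ratioField Real.pi) : iSupIndep mzvSpace := by
  classical
  have ht := hπ.algebraicClosure
  have hpi := Real.pi_pos
  rw [iSupIndep_iff_finsetSum_eq_zero_imp_eq_zero]
  intro s u hu hsum i hi
  obtain ⟨D, hD⟩ : ∃ D, s ⊆ range (D + 1) := by
    obtain ⟨D, hD⟩ := s.exists_nat_subset_range
    exact ⟨D, hD.trans (Finset.range_mono (Nat.le_succ D))⟩
  let u' : ℕ → ℝ := fun n => if n ∈ s then u n else 0
  have hu' : ∀ n, u' n ∈ mzvSpace n := by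
    intro n
    by_cases h : n ∈ s
    · simp only [u', if_pos h]; exact hu n h
    · simp only [u', if_neg h]; exact Submodule.zero_mem _
  have hsum' : ∑ n ∈ range (D + 1), u' n = 0 := by
    rw [← hsum]
    simp only [u']
    rw [Finset.sum_ite_mem, Finset.inter_eq_right.2 hD]
  have hui : u' i = u i := by simp only [u', if_pos hi]
  rw [← hui]
  clear_value u'
  let c : ℕ → algebraicClosure ratioField ℝ := fun n =>
    ⟨u' n / Real.pi ^ n, mem_algebraicClosure_iff.2 (alg_div_pi_pow (hu' n))⟩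
  have hc : ∀ n, algebraMap (algebraicClosure ratioField ℝ) ℝ (c n) = u' n / Real.pi ^ n :=
    fun n => rfl
  clear_value c
  have h1 := pow_comb_eq_zero ht D c (by
    rw [← hsum']
    apply Finset.sum_congr rfl
    intro n _
    rw [hc]
    field_simp) i (Nat.lt_succ_iff.1 (Finset.mem_range.1 (hD hi)))
  have h2 := hc i
  rw [h1, map_zero] at h2
  have h3 : Real.pi ^ i ≠ 0 := by positivity
  rcases div_eq_zero_iff.1 h2.symm with h4 | h4
  · exact h4
  · exact absurd h4 h3

end Pool.Agent.Helper21
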