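import Mathlib

set_option autoImplicit false

open Polynomial

namespace Pool.Agent.Helper21

/-- The multiset of nonzero subset sums of the roots is stable under automorphisms. -/
theorem map_subsetSums {L : Type} [Field L] [DecidableEq L] [Algebra ℚ L] (R : Finset L)
    (σ : L ≃ₐ[ℚ] L) (hR : ∀ x, x ∈ R ↔ σ x ∈ R) :
    ((R.powerset.filter (fun S => ∑ r ∈ S, r ≠ 0)).val.map (fun S => ∑ r ∈ S, r)).map σ =
      (R.powerset.filter (fun S => ∑ r ∈ S, r ≠ 0)).val.map (fun S => ∑ r ∈ S, r) := by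
  set P := R.powerset.filter (fun S => ∑ r ∈ S, r ≠ 0) with hP
  have hinj : Function.Injective (fun S : Finset L => S.map σ.toEquiv.toEmbedding) :=
    Finset.map_injective _
  have hsum : ∀ S : Finset L, ∑ r ∈ S.map σ.toEquiv.toEmbedding, r = σ (∑ r ∈ S, r) := by
    intro S
    rw [Finset.sum_map, map_sum]
    rfl
  have hmem : ∀ S ∈ P, S.map σ.toEquiv.toEmbedding ∈ P := by
    intro S hS
    rw [hP, Finset.mem_filter, Finset.mem_powerset] at hS ⊢
    refine ⟨?_, ?_⟩
    · intro x hx
      rw [Finset.mem_map] at hx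
      obtain ⟨y, hy, rfl⟩ := hx
      exact (hR y).1 (hS.1 hy)
    · rw [hsum]
      intro h
      exact hS.2 ((map_eq_zero σ).1 h)
  have himg : P.image (fun S => S.map σ.toEquiv.toEmbedding) = P := by
    apply Finset.eq_of_subset_of_card_le
    · intro S hS
      rw [Finset.mem_image] at hS
      obtain ⟨T, hT, rfl⟩ := hS
      exact hmem T hT
    · rw [Finset.card_image_of_injective _ hinj]
  rw [Multiset.map_map]
  conv_rhs => rw [← himg]
  rw [Finset.image_val_of_injOn hinj.injOn, Multiset.map_map]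
  apply Multiset.map_congr rfl
  intro S _
  simp only [Function.comp_apply]
  rw [hsum]

/-- A Galois-fixed algebraic integer is a rational integer. -/
theorem exists_int_of_fixed {L : Type} [Field L] [Algebra ℚ L] [IsGalois ℚ L] (x : L)
    (hx : ∀ σ : L ≃ₐ[ℚ] L, σ x = x) (hint : IsIntegral ℤ x) : ∃ z : ℤ, x = (z : L) := by
  have h1 : x ∈ (⊥ : IntermediateField ℚ L) := (InfiniteGalois.mem_bot_iff_fixed x).2 hx
  rw [IntermediateField.mem_bot] at h1
  obtain ⟨q, hq⟩ := h1
  have h2 : IsIntegral ℤ q := by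
    rw [← hq] at hint
    exact (isIntegral_algebraMap_iff (algebraMap ℚ L).injective).1 hint
  obtain ⟨z, hz⟩ := IsIntegrallyClosed.isIntegral_iff.1 h2
  refine ⟨z, ?_⟩
  rw [← hq, ← hz]
  simp

theorem isIntegral_pow_mul_aeval {L : Type} [Field L] (f g : ℤ[X]) (D : ℕ)
    (hg : g.natDegree ≤ D) (x : L) (hx : aeval x f = 0) :
    IsIntegral ℤ ((f.leadingCoeff : L) ^ D * aeval x g) := by
  have hint : IsIntegral ℤ ((f.leadingCoeff : L) * x) := by
    have := isIntegral_leadingCoeff_smul f x hx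
    simpa [zsmul_eq_mul] using this
  rw [aeval_eq_sum_range' (Nat.lt_succ_of_le hg), Finset.mul_sum]
  apply IsIntegral.sum
  intro i hi
  have hi' : i ≤ D := Nat.lt_succ_iff.1 (Finset.mem_range.1 hi)
  have : (f.leadingCoeff : L) ^ D * g.coeff i • x ^ i
      = ((g.coeff i * f.leadingCoeff ^ (D - i) : ℤ) : L) * ((f.leadingCoeff : L) * x) ^ i := by
    have hpow : (f.leadingCoeff : L) ^ D
        = (f.leadingCoeff : L) ^ (D - i) * (f.leadingCoeff : L) ^ i := by
      rw [← pow_add, Nat.sub_add_cancel hi']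
    rw [hpow, zsmul_eq_mul]
    push_cast
    ring
  rw [this]
  exact (isIntegral_algebraMap (R := ℤ) (A := L) (x := _)).mul (hint.pow i)


theorem map_aeval_int {A B : Type} [CommRing A] [CommRing B] (φ : A →+* B) (x : A) (g : ℤ[X]) :
    φ (aeval x g) = aeval (φ x) g := by
  rw [aeval_eq_sum_range, aeval_eq_sum_range, map_sum]
  apply Finset.sum_congr rfl
  intro i _
  rw [zsmul_eq_mul, zsmul_eq_mul, map_mul, map_intCast, map_pow]

theorem pi_aux {L : Type} [Field L] [DecidableEq L] [Algebra ℚ L] [IsGalois ℚ L] (ι : L →ₐ[ℚ] ℂ)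
    (t : L) (ht : ι t = (Real.pi : ℂ) * Complex.I) : False := by
  have ht_int : IsIntegral ℚ t := Algebra.IsIntegral.isIntegral t
  set p := minpoly ℚ t with hp
  have hp0 : p ≠ 0 := minpoly.ne_zero ht_int
  set R : Finset L := (p.aroots L).toFinset with hRdef
  have hR : ∀ x, x ∈ R ↔ aeval x p = 0 := by
    intro x
    rw [hRdef, Multiset.mem_toFinset, mem_aroots]
    exact ⟨fun h => h.2, fun h => ⟨hp0, h⟩⟩
  have hRσ : ∀ σ : L ≃ₐ[ℚ] L, ∀ x, x ∈ R ↔ σ x ∈ R := by
    intro σ x
    rw [hR, hR]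
    have : aeval (σ x) p = σ (aeval x p) := by
      rw [← AlgEquiv.coe_toAlgHom, aeval_algHom_apply]
    rw [this, map_eq_zero_iff σ σ.injective]
  have htR : t ∈ R := (hR t).2 (minpoly.aeval ℚ t)
  set β : Finset L → L := fun S => ∑ r ∈ S, r with hβ
  set P := R.powerset.filter (fun S => ∑ r ∈ S, r ≠ 0) with hP
  set P0 := R.powerset.filter (fun S => ¬ (∑ r ∈ S, r ≠ 0)) with hP0
  set M : Multiset L := P.val.map β with hM
  have hMσ : ∀ σ : L ≃ₐ[ℚ] L, M.map σ = M := fun σ => map_subsetSums R σ (hRσ σ)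
  -- the exponential sum
  have hprod : ∏ r ∈ R, (1 + Complex.exp (ι r)) = 0 := by
    apply Finset.prod_eq_zero htR
    rw [ht, Complex.exp_pi_mul_I]
    ring
  have hsum : ∑ S ∈ R.powerset, Complex.exp (ι (β S)) = 0 := by
    rw [← hprod, Finset.prod_one_add]
    apply Finset.sum_congr rfl
    intro S _
    rw [hβ, ← Complex.exp_sum, map_sum]
  have hk : (P0.card : ℂ) + ∑ S ∈ P, Complex.exp (ι (β S)) = 0 := by
    rw [← hsum, ← Finset.sum_filter_add_sum_filter_not R.powerset
      (fun S => ∑ r ∈ S, r ≠ 0), add_comm]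
    congr 1
    rw [Finset.sum_congr rfl (g := fun _ => (1 : ℂ))]
    · simp [hP0]
    · intro S hS
      have : β S = 0 := by
        have := (Finset.mem_filter.1 hS).2
        push Not at this
        exact this
      rw [this, map_zero, Complex.exp_zero]
  have hkpos : 0 < P0.card := by
    apply Finset.card_pos.2
    refine ⟨∅, ?_⟩
    rw [hP0, Finset.mem_filter]
    simp
  -- the polynomial
  set F : L[X] := (M.map (fun b => X - C b)).prod with hF
  have hFσ : ∀ σ : L ≃ₐ[ℚ] L, F.map (σ : L →+* L) = F := by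
    intro σ
    rw [hF, Polynomial.map_multiset_prod, Multiset.map_map]
    conv_rhs => rw [← hMσ σ, Multiset.map_map]
    congr 1
    apply Multiset.map_congr rfl
    intro b _
    simp
  have hFlift : F ∈ Polynomial.lifts (algebraMap ℚ L) := by
    rw [Polynomial.lifts_iff_coeff_lifts]
    intro n
    have h1 : F.coeff n ∈ (⊥ : IntermediateField ℚ L) := by
      rw [InfiniteGalois.mem_bot_iff_fixed]
      intro σ
      have := congrArg (fun q => Polynomial.coeff q n) (hFσ σ)
      simpa [Polynomial.coeff_map] using this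
    rwa [IntermediateField.mem_bot] at h1
  obtain ⟨FQ, hFQ⟩ := (Polynomial.mem_lifts _).1 hFlift
  obtain ⟨b, hbmem, hb⟩ := IsLocalization.integerNormalization_spec (nonZeroDivisors ℤ) FQ
  set f : ℤ[X] := IsLocalization.integerNormalization (nonZeroDivisors ℤ) FQ with hf
  have hb0 : b ≠ 0 := nonZeroDivisors.ne_zero hbmem
  have hfL : f.map (algebraMap ℤ L) = C ((b : L)) * F := by
    have h1 := congrArg (Polynomial.map (algebraMap ℚ L)) hb
    rw [Polynomial.map_map] at h1
    have h2 : (algebraMap ℚ L).comp (algebraMap ℤ ℚ) = algebraMap ℤ L := RingHom.ext_int _ _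
    rw [h2] at h1
    rw [h1, ← hFQ]
    have h3 : (b • FQ : ℚ[X]) = C (b : ℚ) * FQ := by
      rw [zsmul_eq_mul]
      simp
    rw [h3, Polynomial.map_mul]
    simp
  have haeval : ∀ x : L, aeval x f = (b : L) * F.eval x := by
    intro x
    rw [aeval_def, ← eval_map, hfL, eval_mul, eval_C]
  have hFeval : ∀ x : L, F.eval x = (M.map (fun b => x - b)).prod := by
    intro x
    rw [hF, eval_multiset_prod, Multiset.map_map]
    congr 1
    apply Multiset.map_congr rfl
    intro b _
    simp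
  have hbL : (b : L) ≠ 0 := by
    have : CharZero L := algebraRat.charZero L
    exact_mod_cast hb0
  have hroot : ∀ S ∈ P, aeval (β S) f = 0 := by
    intro S hS
    rw [haeval, hFeval]
    rw [mul_eq_zero]
    right
    rw [Multiset.prod_eq_zero_iff, Multiset.mem_map]
    exact ⟨β S, Multiset.mem_map_of_mem β hS, sub_self _⟩
  have hf0 : f.eval 0 ≠ 0 := by
    intro h0
    have h1 : aeval (0 : L) f = 0 := by
      have : aeval (0 : L) f = ((f.eval 0 : ℤ) : L) := by
        rw [aeval_def, eval₂_at_zero, ← Polynomial.coeff_zero_eq_eval_zero]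
        simp
      rw [this, h0, Int.cast_zero]
    rw [haeval, mul_eq_zero, hFeval] at h1
    rcases h1 with h1 | h1
    · exact hbL h1
    · rw [Multiset.prod_eq_zero_iff, Multiset.mem_map] at h1
      obtain ⟨c, hc, hc0⟩ := h1
      rw [hM, Multiset.mem_map] at hc
      obtain ⟨S, hS, rfl⟩ := hc
      have h2 := (Finset.mem_filter.1 hS).2
      apply h2
      have : β S = 0 := by simpa using hc0
      exact this
  have hfne : f ≠ 0 := by
    intro h
    rw [h] at hf0
    simp at hf0
  obtain ⟨c, hc⟩ := LindemannWeierstrass.exp_polynomial_approx f hf0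
  set a : ℤ := f.leadingCoeff with ha
  set d : ℕ := f.natDegree with hd
  have ha0 : a ≠ 0 := leadingCoeff_ne_zero.2 hfne
  -- choose a large prime
  have hlim : Filter.Tendsto (fun m : ℕ => (P.card : ℝ) * (|(a : ℝ)| ^ d * |c|) *
      ((|(a : ℝ)| ^ d * |c|) ^ m / (m.factorial : ℝ))) Filter.atTop (nhds 0) := by
    have := (FloorSemiring.tendsto_pow_div_factorial_atTop (|(a : ℝ)| ^ d * |c|)).const_mul
      ((P.card : ℝ) * (|(a : ℝ)| ^ d * |c|))
    simpa using this
  have hev := (Filter.Tendsto.eventually_lt_const (show (0 : ℝ) < 1 by norm_num) hlim)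
  obtain ⟨m0, hm0⟩ := Filter.eventually_atTop.1 hev
  obtain ⟨q, hq, hqp⟩ := Nat.exists_infinite_primes
    (m0 + 1 + (f.eval 0).natAbs + 1 + a.natAbs + 1 + P0.card + 1)
  obtain ⟨n, hn, gp, hgp, happ⟩ := hc q (by omega) hqp
  have hsmall : (P.card : ℝ) * (|(a : ℝ)| ^ d * |c|) *
      ((|(a : ℝ)| ^ d * |c|) ^ (q - 1) / ((q - 1).factorial : ℝ)) < 1 := hm0 (q - 1) (by omega)
  set D : ℕ := q * d with hD
  have hgpD : gp.natDegree ≤ D := hgp.trans (Nat.sub_le _ _)
  -- the algebraic integer sum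
  obtain ⟨z, hz⟩ : ∃ z : ℤ, ∑ S ∈ P, (a : L) ^ D * aeval (β S) gp = (z : L) := by
    apply exists_int_of_fixed
    · intro σ
      have e1 : ∑ S ∈ P, (a : L) ^ D * aeval (β S) gp
          = (M.map (fun x => (a : L) ^ D * aeval x gp)).sum := by
        rw [hM, Multiset.map_map]
        rfl
      rw [e1, map_multiset_sum, Multiset.map_map]
      conv_rhs => rw [← hMσ σ, Multiset.map_map]
      congr 1
      apply Multiset.map_congr rfl
      intro x _
      simp only [Function.comp_apply, map_mul, map_pow, map_intCast]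
      congr 1
      rw [aeval_eq_sum_range, aeval_eq_sum_range, map_sum]
      apply Finset.sum_congr rfl
      intro i _
      rw [zsmul_eq_mul, zsmul_eq_mul, map_mul, map_intCast, map_pow]
    · apply IsIntegral.sum
      intro S hS
      exact isIntegral_pow_mul_aeval f gp D hgpD (β S) (hroot S hS)
  have hzC : ∑ S ∈ P, (a : ℂ) ^ D * aeval (ι (β S)) gp = (z : ℂ) := by
    have := congrArg (ι : L →+* ℂ) hz
    rw [map_sum, map_intCast] at this
    rw [← this]
    apply Finset.sum_congr rfl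
    intro S _
    rw [map_mul, map_pow, map_intCast, map_aeval_int]
    rfl
  have hrootC : ∀ S ∈ P, ι (β S) ∈ f.aroots ℂ := by
    intro S hS
    rw [mem_aroots]
    refine ⟨hfne, ?_⟩
    have := congrArg (ι : L →+* ℂ) (hroot S hS)
    rw [map_zero, map_aeval_int] at this
    exact this
  set N : ℤ := a ^ D * n * P0.card + q * z with hN
  have hkey : -(N : ℂ) = ∑ S ∈ P, (a : ℂ) ^ D *
      (n • Complex.exp (ι (β S)) - q • aeval (ι (β S)) gp) := by
    have e1 : ∑ S ∈ P, Complex.exp (ι (β S)) = -(P0.card : ℂ) := by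
      linear_combination hk
    have e2 : ∑ S ∈ P, (a : ℂ) ^ D * (n • Complex.exp (ι (β S)) - q • aeval (ι (β S)) gp)
        = (a : ℂ) ^ D * n * ∑ S ∈ P, Complex.exp (ι (β S))
          - q * ∑ S ∈ P, (a : ℂ) ^ D * aeval (ι (β S)) gp := by
      rw [Finset.mul_sum, Finset.mul_sum, ← Finset.sum_sub_distrib]
      apply Finset.sum_congr rfl
      intro S _
      rw [zsmul_eq_mul, nsmul_eq_mul]
      ring
    rw [e2, e1, hzC, hN]
    push_cast
    ring
  have hbound : |(N : ℝ)| < 1 := by
    have e1 : |(N : ℝ)| = ‖-(N : ℂ)‖ := by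
      rw [norm_neg, Complex.norm_intCast]
    rw [e1, hkey]
    refine lt_of_le_of_lt (norm_sum_le _ _) ?_
    have e2 : ∀ S ∈ P, ‖(a : ℂ) ^ D * (n • Complex.exp (ι (β S)) - q • aeval (ι (β S)) gp)‖
        ≤ |(a : ℝ)| ^ D * (|c| ^ q / ((q - 1).factorial : ℝ)) := by
      intro S hS
      rw [norm_mul, norm_pow, Complex.norm_intCast]
      gcongr
      refine (happ (hrootC S hS)).trans ?_
      apply div_le_div_of_nonneg_right _ (by positivity)
      rw [← abs_pow]
      exact le_abs_self _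
    refine lt_of_le_of_lt (Finset.sum_le_sum e2) ?_
    rw [Finset.sum_const, nsmul_eq_mul]
    refine lt_of_eq_of_lt ?_ hsmall
    have hq1 : q = (q - 1) + 1 := (Nat.succ_pred_eq_of_pos hqp.pos).symm
    have e3 : |(a : ℝ)| ^ D = (|(a : ℝ)| ^ d) ^ (q - 1) * |(a : ℝ)| ^ d := by
      rw [hD, ← pow_mul, ← pow_add]
      congr 1
      conv_lhs => rw [hq1]
      ring
    have e4 : |c| ^ q = |c| ^ (q - 1) * |c| := by
      conv_lhs => rw [hq1]
      rw [pow_succ]
    rw [e3, e4, mul_pow]
    ring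
  have hN0 : N = 0 := by
    have : |N| < 1 := by exact_mod_cast hbound
    exact Int.abs_lt_one_iff.1 this
  have hqdvd : (q : ℤ) ∣ a ^ D * n * P0.card := by
    refine ⟨-z, ?_⟩
    rw [hN] at hN0
    linear_combination hN0
  have hqpr : Prime (q : ℤ) := Nat.prime_iff_prime_int.1 hqp
  rcases hqpr.dvd_or_dvd hqdvd with h | h
  · rcases hqpr.dvd_or_dvd h with h | h
    · have h2 := hqpr.dvd_of_dvd_pow h
      have h3 := Int.le_of_dvd (by positivity) ((dvd_abs _ _).2 h2)
      rw [Int.abs_eq_natAbs] at h3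
      omega
    · exact hn h
  · have h3 := Int.le_of_dvd (by exact_mod_cast hkpos) h
    omega

theorem transcendental_pi : Transcendental ℚ Real.pi := by
  classical
  intro hπ
  have hθ : IsAlgebraic ℚ ((Real.pi : ℂ) * Complex.I) := by
    have h1 : IsAlgebraic ℚ (Real.pi : ℂ) := hπ.algebraMap (A := ℂ)
    have h2 : IsAlgebraic ℚ Complex.I :=
      ⟨X ^ 2 + 1, (monic_X_pow_add_C (1 : ℚ) two_ne_zero).ne_zero, by simp⟩
    exact h1.mul h2
  let K : IntermediateField ℚ ℂ := algebraicClosure ℚ ℂ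
  have hmem : ((Real.pi : ℂ) * Complex.I) ∈ K := (mem_algebraicClosure_iff).2 hθ
  have hA : @Algebra.IsAlgebraic ℚ K _ _ (IntermediateField.algebra' K) :=
    algebraicClosure.isAlgebraic ℚ ℂ
  have hC := @algebraicClosure.isAlgClosure ℚ ℂ _ _ _ _
  have hN : @Normal ℚ K _ _ (IntermediateField.algebra' K) := @IsAlgClosure.normal ℚ K _ _ _ hC
  have hG : @IsGalois ℚ _ K _ (IntermediateField.algebra' K) :=
    { to_isSeparable := @Algebra.IsAlgebraic.isSeparable_of_perfectField ℚ K _ _
        (IntermediateField.algebra' K) hA _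
      to_normal := hN }
  exact @pi_aux K _ _ (IntermediateField.algebra' K) hG K.val ⟨_, hmem⟩ rfl

end Pool.Agent.Helper21
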