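import Pool.Agent.Helper21.MZVSpace
import Pool.Agent.Helper21.PiTrans

set_option autoImplicit false

open Finset Filter Polynomial

namespace Pool.Agent.Helper21

theorem pow_comb_eq_zero {K : Type} [Field K] [Algebra K ℝ] {t : ℝ} (ht : Transcendental K t)
    (k : ℕ) (c : ℕ → K) (h : ∑ i ∈ range (k + 1), algebraMap K ℝ (c i) * t ^ i = 0) :
    ∀ i ≤ k, c i = 0 := by
  rw [transcendental_iff] at ht
  have h1 := ht (∑ i ∈ range (k + 1), C (c i) * X ^ i) (by
    rw [map_sum]
    rw [← h]
    apply Finset.sum_congr rfl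
    intro i _
    rw [map_mul, map_pow, aeval_C, aeval_X])
  intro i hi
  have h2 := congrArg (fun p => Polynomial.coeff p i) h1
  simp only [finsetSum_coeff, coeff_C_mul, coeff_X_pow, coeff_zero, mul_ite, mul_one,
    mul_zero] at h2
  rw [Finset.sum_ite_eq] at h2
  simpa [Nat.lt_succ_iff, hi] using h2

theorem growth {n : ℕ} {x y : ℝ} (hx : x ∈ mzvSpace n) (hy : y ∈ mzvSpace n)
    (ht : Transcendental ℚ (x / y)) (k m : ℕ) (h1 : k * n ≤ m) (h2 : m ≠ k * n + 1) :
    k + 1 ≤ Module.finrank ℚ (mzvSpace m) := by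
  have := finite_mzvSpace m
  obtain ⟨w, hw, hw0⟩ := exists_ne_zero (m := m - k * n) (by omega)
  have hy0 : y ≠ 0 := by
    rintro rfl
    rw [div_zero] at ht
    exact ht isAlgebraic_zero
  have hmem : ∀ i : Fin (k + 1), x ^ (i : ℕ) * y ^ (k - i) * w ∈ mzvSpace m := by
    intro i
    have h3 := mul_mem_mzvSpace (mul_mem_mzvSpace (pow_mem_mzvSpace hx (i : ℕ))
      (pow_mem_mzvSpace hy (k - i))) hw
    have hi : (i : ℕ) ≤ k := Nat.lt_succ_iff.1 i.2
    have e : (i : ℕ) * n + (k - i) * n + (m - k * n) = m := by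
      rw [← add_mul]
      have : (i : ℕ) + (k - i) = k := by omega
      rw [this]
      omega
    rwa [e] at h3
  have hli : LinearIndependent ℚ (fun i : Fin (k + 1) =>
      (⟨x ^ (i : ℕ) * y ^ (k - i) * w, hmem i⟩ : mzvSpace m)) := by
    rw [Fintype.linearIndependent_iff]
    intro g hg i
    have hg' := congrArg (fun z : mzvSpace m => (z : ℝ)) hg
    simp only [Submodule.coe_sum, Submodule.coe_smul, Submodule.coe_zero] at hg'
    set c : ℕ → ℚ := fun j => if h : j < k + 1 then g ⟨j, h⟩ else 0 with hc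
    have hcg : ∀ j : Fin (k + 1), c j = g j := by
      intro j
      simp only [hc, j.2, dif_pos, Fin.eta]
    have h4 : ∑ j ∈ range (k + 1), algebraMap ℚ ℝ (c j) * (x / y) ^ j = 0 := by
      rw [Finset.sum_range]
      have e : ∀ j : Fin (k + 1), algebraMap ℚ ℝ (c j) * (x / y) ^ (j : ℕ) =
          (g j • (x ^ (j : ℕ) * y ^ (k - j) * w)) * (1 / (y ^ k * w)) := by
        intro j
        have hj : (j : ℕ) ≤ k := Nat.lt_succ_iff.1 j.2
        rw [hcg, Rat.smul_def, div_pow]
        have e2 : y ^ k = y ^ (j : ℕ) * y ^ (k - j) := by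
          rw [← pow_add]
          congr 1
          omega
        rw [e2]
        have h5 : y ^ (j : ℕ) ≠ 0 := pow_ne_zero _ hy0
        have h6 : y ^ (k - (j : ℕ)) ≠ 0 := pow_ne_zero _ hy0
        have h7 : algebraMap ℚ ℝ (g j) = ((g j : ℚ) : ℝ) := rfl
        rw [h7]
        field_simp
      rw [Finset.sum_congr rfl (fun j _ => e j), ← Finset.sum_mul, hg', zero_mul]
    have h8 := pow_comb_eq_zero ht k c h4 i (Nat.lt_succ_iff.1 i.2)
    rw [hcg] at h8
    exact h8
  have := hli.fintype_card_le_finrank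
  simpa using this

theorem div_alg {a b : ℝ} (ha : IsAlgebraic ℚ a) (hb : IsAlgebraic ℚ b) : IsAlgebraic ℚ (a / b) := by
  rw [div_eq_mul_inv]
  exact ha.mul hb.inv

/-- A transcendental normalised value produces a transcendental ratio in one weight. -/
theorem exists_ratio {N n : ℕ} {z : ℝ} (hnN : n ≤ N) (hz : z ∈ mzvSpace n)
    (ht : Transcendental ℚ (z / Real.pi ^ n)) :
    ∃ n : ℕ, 0 < n ∧ (n ≤ N ∨ n = 6) ∧
      ∃ x ∈ mzvSpace n, ∃ y ∈ mzvSpace n, Transcendental ℚ (x / y) := by
  rcases Nat.even_or_odd n with he | ho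
  · rcases Nat.eq_zero_or_pos n with rfl | hpos
    · exfalso
      obtain ⟨q, rfl⟩ := mem_mzvSpace_zero hz
      apply ht
      rw [pow_zero, div_one]
      exact isAlgebraic_algebraMap q
    · exact ⟨n, hpos, Or.inl hnN, z, hz, _, pi_pow_mem he, ht⟩
  · have hpos : 0 < n := ho.pos
    rcases Nat.lt_or_ge n 3 with h3 | h3
    · have h1 : n = 1 := by
        obtain ⟨k, rfl⟩ := ho
        omega
      exfalso
      subst h1
      apply ht
      rw [mem_mzvSpace_one hz, zero_div]
      exact isAlgebraic_zero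
    · have hw : zl [3] * Real.pi ^ (n - 3) ∈ mzvSpace n := by
        have := mul_mem_mzvSpace zl_three_mem (pi_pow_mem (n := n - 3) (by
          obtain ⟨k, rfl⟩ := ho
          exact ⟨k - 1, by omega⟩))
        have e : 3 + (n - 3) = n := by omega
        rwa [e] at this
      by_cases hA : IsAlgebraic ℚ (z / (zl [3] * Real.pi ^ (n - 3)))
      · refine ⟨6, by norm_num, Or.inr rfl, zl [3] ^ 2, pow_mem_mzvSpace zl_three_mem 2,
          Real.pi ^ 6, pi_pow_mem (by decide), ?_⟩
        intro hB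
        have hz0 : z ≠ 0 := by
          rintro rfl
          apply ht
          rw [zero_div]
          exact isAlgebraic_zero
        have hp := Real.pi_pos
        have h3' := zl_three_pos
        have hC : IsAlgebraic ℚ (zl [3] / Real.pi ^ 3) := by
          have e : zl [3] ^ 2 / Real.pi ^ 6 = (zl [3] / Real.pi ^ 3) ^ 2 := by
            rw [div_pow, ← pow_mul]
          rw [e] at hB
          exact IsAlgebraic.of_pow (by norm_num) hB
        apply ht
        have e : z / Real.pi ^ n = (z / (zl [3] * Real.pi ^ (n - 3))) * (zl [3] / Real.pi ^ 3) := by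
          have e2 : Real.pi ^ n = Real.pi ^ (n - 3) * Real.pi ^ 3 := by
            rw [← pow_add]
            congr 1
            omega
          rw [e2]
          field_simp
        rw [e]
        exact hA.mul hC
      · exact ⟨n, hpos, Or.inl hnN, z, hz, _, hw, hA⟩

theorem indep_of_alg_aux (N : ℕ) (u : ℕ → ℝ)
    (hu : ∀ n ≤ N, IsAlgebraic ℚ (u n / Real.pi ^ n)) (hsum : ∑ n ∈ range (N + 1), u n = 0) :
    ∀ n ≤ N, u n = 0 := by
  have hπ := transcendental_pi.algebraicClosure
  let c : ℕ → algebraicClosure ℚ ℝ := fun j =>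
    if hj : j ≤ N then ⟨u j / Real.pi ^ j, mem_algebraicClosure_iff.2 (hu j hj)⟩ else 0
  have hcs : ∀ j ≤ N, algebraMap (algebraicClosure ℚ ℝ) ℝ (c j) = u j / Real.pi ^ j := by
    intro j hj
    simp only [c, dif_pos hj]
    rfl
  have hp := Real.pi_pos
  have h4 : ∑ j ∈ range (N + 1), algebraMap (algebraicClosure ℚ ℝ) ℝ (c j) * Real.pi ^ j = 0 := by
    rw [← hsum]
    apply Finset.sum_congr rfl
    intro j hj
    rw [hcs j (Nat.lt_succ_iff.1 (Finset.mem_range.1 hj))]
    field_simp
  intro n hn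
  have h5 := pow_comb_eq_zero hπ N c h4 n hn
  have h6 := hcs n hn
  rw [h5, map_zero] at h6
  have h7 : Real.pi ^ n ≠ 0 := by positivity
  field_simp at h6
  linarith

theorem indep_of_alg (N : ℕ) (h : ∀ n ≤ N, ∀ z ∈ mzvSpace n, IsAlgebraic ℚ (z / Real.pi ^ n)) :
    iSupIndep (fun i : Fin (N + 1) => mzvSpace i) := by
  classical
  rw [iSupIndep_iff_finsetSum_eq_zero_imp_eq_zero]
  intro s v hv hsum i hi
  let v' : Fin (N + 1) → ℝ := fun j => if j ∈ s then v j else 0
  have hv' : ∀ j : Fin (N + 1), v' j ∈ mzvSpace j := by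
    intro j
    by_cases hj : j ∈ s
    · simp only [v', if_pos hj]
      exact hv j hj
    · simp only [v', if_neg hj]
      exact Submodule.zero_mem _
  let u : ℕ → ℝ := fun j => if h : j < N + 1 then v' ⟨j, h⟩ else 0
  have huv : ∀ j : Fin (N + 1), u j = v' j := by
    intro j
    simp only [u, j.2, dif_pos, Fin.eta]
  have h1 := indep_of_alg_aux N u (by
    intro n hn
    have := huv ⟨n, Nat.lt_succ_of_le hn⟩
    simp only at this
    rw [this]
    exact h n hn _ (hv' ⟨n, Nat.lt_succ_of_le hn⟩)) (by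
    rw [Finset.sum_range, Finset.sum_congr rfl (fun j _ => huv j), ← hsum]
    simp only [v']
    rw [Finset.sum_ite_mem, Finset.univ_inter])
  have h2 := h1 i (Nat.lt_succ_iff.1 i.2)
  rw [huv] at h2
  simpa [v', hi] using h2

end Pool.Agent.Helper21
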