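import Pool.Agent.Helper21.MZVBasic

set_option autoImplicit false

open Finset Filter

namespace Pool.Agent.Helper21

/-- Admissible words. -/
def Adm (w : List ℕ) : Prop := (∀ a ∈ w, 1 ≤ a) ∧ ∀ a t, w = a :: t → 2 ≤ a

theorem zl_mem (w : List ℕ) (hw : Adm w) : zl w ∈ mzvSpace w.sum := by
  apply Submodule.subset_span
  refine ⟨w.length, fun i => w.get i, ?_, ?_, ?_, ?_⟩
  · intro i
    exact hw.1 _ (List.get_mem w i)
  · intro h
    cases w with
    | nil => simp at h
    | cons a t => exact hw.2 a t rfl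
  · have h1 : (List.ofFn fun i : Fin w.length => w.get i).sum = w.sum := by
      rw [List.ofFn_get]
    rw [← h1, List.sum_ofFn]
  · rw [mzv_eq_zl]
    · rw [List.ofFn_get]
    · intro i
      exact hw.1 _ (List.get_mem w i)
    · intro h
      cases w with
      | nil => simp at h
      | cons a t => exact hw.2 a t rfl

theorem mzvSpace_eq (N : ℕ) :
    mzvSpace N = Submodule.span ℚ {x : ℝ | ∃ w : List ℕ, Adm w ∧ w.sum = N ∧ x = zl w} := by
  apply le_antisymm
  · apply Submodule.span_le.2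
    rintro x ⟨r, k, hk, hk2, hN, rfl⟩
    apply Submodule.subset_span
    refine ⟨List.ofFn k, ⟨?_, ?_⟩, ?_, mzv_eq_zl k hk hk2⟩
    · intro a ha
      rw [List.mem_ofFn] at ha
      obtain ⟨i, rfl⟩ := ha
      exact hk i
    · intro a t h
      cases r with
      | zero => simp at h
      | succ r =>
        rw [List.ofFn_succ] at h
        have := (List.cons.inj h).1
        rw [← this]
        exact hk2 (Nat.succ_pos r)
    · rw [List.sum_ofFn, hN]
  · apply Submodule.span_le.2
    rintro x ⟨w, hw, hN, rfl⟩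
    rw [← hN]
    exact zl_mem w hw

theorem tendsto_zl (w : List ℕ) (hw : Adm w) : Tendsto (H w) atTop (nhds (zl w)) :=
  tendsto_H w hw.1 hw.2

theorem zl_mul_mem (u v : List ℕ) (hu : Adm u) (hv : Adm v) :
    zl u * zl v ∈ mzvSpace (u.sum + v.sum) := by
  obtain ⟨ws, h1, h2⟩ := exists_stuffle u v hu.1 hv.1
  have hadm : ∀ w ∈ ws, Adm w ∧ w.sum = u.sum + v.sum := by
    intro w hw
    obtain ⟨p1, p2, p3⟩ := h2 w hw
    exact ⟨⟨p1, p3 hu.2 hv.2⟩, p2⟩
  have hlim : zl u * zl v = (ws.map zl).sum := by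
    have t1 : Tendsto (fun n => H u n * H v n) atTop (nhds (zl u * zl v)) :=
      (tendsto_zl u hu).mul (tendsto_zl v hv)
    have t2 : Tendsto (fun n => (ws.map (fun w => H w n)).sum) atTop (nhds ((ws.map zl).sum)) := by
      clear h1 h2 t1
      induction ws with
      | nil => simp
      | cons w ws ih =>
        simp only [List.map_cons, List.sum_cons]
        apply Tendsto.add
        · exact tendsto_zl w (hadm w List.mem_cons_self).1
        · exact ih (fun w' hw' => hadm w' (List.mem_cons_of_mem _ hw'))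
    have t3 : (fun n => H u n * H v n) = fun n => (ws.map (fun w => H w n)).sum := funext h1
    rw [t3] at t1
    exact tendsto_nhds_unique t1 t2
  rw [hlim]
  clear hlim h1 h2
  induction ws with
  | nil => simp
  | cons w ws ih =>
    rw [List.map_cons, List.sum_cons]
    apply Submodule.add_mem
    · obtain ⟨g1, g2⟩ := hadm w List.mem_cons_self
      rw [← g2]
      exact zl_mem w g1
    · exact ih (fun w' hw' => hadm w' (List.mem_cons_of_mem _ hw'))

theorem mul_mem_mzvSpace {M N : ℕ} {x y : ℝ} (hx : x ∈ mzvSpace M) (hy : y ∈ mzvSpace N) :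
    x * y ∈ mzvSpace (M + N) := by
  have h : mzvSpace M * mzvSpace N ≤ mzvSpace (M + N) := by
    rw [mzvSpace_eq M, mzvSpace_eq N, Submodule.span_mul_span, Submodule.span_le]
    rintro z ⟨x, ⟨u, hu, hM, rfl⟩, y, ⟨v, hv, hN, rfl⟩, rfl⟩
    have := zl_mul_mem u v hu hv
    rw [hM, hN] at this
    exact this
  exact h (Submodule.mul_mem_mul hx hy)

theorem zl_nil : zl [] = 1 := by
  unfold zl
  have : H [] = fun _ => (1 : ℝ) := rfl
  rw [this, ciSup_const]

theorem one_mem_mzvSpace : (1 : ℝ) ∈ mzvSpace 0 := by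
  have := zl_mem [] ⟨by simp, by simp⟩
  rwa [zl_nil] at this

theorem mem_mzvSpace_zero {x : ℝ} (hx : x ∈ mzvSpace 0) : ∃ q : ℚ, x = (q : ℝ) := by
  rw [mzvSpace_eq] at hx
  have hs : {x : ℝ | ∃ w : List ℕ, Adm w ∧ w.sum = 0 ∧ x = zl w} = {1} := by
    ext x
    constructor
    · rintro ⟨w, hw, h0, rfl⟩
      cases w with
      | nil => exact zl_nil
      | cons a t =>
        have := hw.2 a t rfl
        simp only [List.sum_cons] at h0
        omega
    · rintro rfl
      exact ⟨[], ⟨by simp, by simp⟩, by simp, zl_nil.symm⟩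
  rw [hs, Submodule.mem_span_singleton] at hx
  obtain ⟨q, rfl⟩ := hx
  exact ⟨q, by rw [Rat.smul_def, mul_one]⟩

theorem mem_mzvSpace_one {x : ℝ} (hx : x ∈ mzvSpace 1) : x = 0 := by
  rw [mzvSpace_eq] at hx
  have hs : {x : ℝ | ∃ w : List ℕ, Adm w ∧ w.sum = 1 ∧ x = zl w} = ∅ := by
    ext x
    simp only [Set.mem_ofPred_eq, Set.mem_empty_iff_false, iff_false]
    rintro ⟨w, hw, h0, rfl⟩
    cases w with
    | nil => simp at h0
    | cons a t =>
      have := hw.2 a t rfl
      simp only [List.sum_cons] at h0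
      omega
  rw [hs, Submodule.span_empty] at hx
  exact (Submodule.mem_bot ℚ).1 hx

theorem zl_two : zl [2] = Real.pi ^ 2 / 6 := by
  have h1 : Tendsto (H [2]) atTop (nhds (zl [2])) :=
    tendsto_zl [2] ⟨by simp, by intro a t h; have := (List.cons.inj h).1; omega⟩
  have h2 : HasSum (fun m : ℕ => (1 / ((m + 1 : ℕ) : ℝ)) ^ 2) (Real.pi ^ 2 / 6) := by
    have h := (hasSum_nat_add_iff (f := fun n : ℕ => (1 : ℝ) / (n : ℝ) ^ 2)
      (g := Real.pi ^ 2 / 6) 1).2 (by simpa using hasSum_zeta_two)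
    have e : (fun m : ℕ => (1 / ((m + 1 : ℕ) : ℝ)) ^ 2) =
        fun n : ℕ => (1 : ℝ) / ((n + 1 : ℕ) : ℝ) ^ 2 := by
      funext m
      rw [one_div_pow]
    rw [e]
    exact h
  have h3 := h2.tendsto_sum_nat
  refine tendsto_nhds_unique h1 (h3.congr ?_)
  intro n
  rw [H_cons]
  apply Finset.sum_congr rfl
  intro m _
  rw [H_nil, mul_one]

theorem pi_sq_mem : Real.pi ^ 2 ∈ mzvSpace 2 := by
  have h := zl_mem [2] ⟨by simp, by intro a t h; have := (List.cons.inj h).1; omega⟩
  rw [zl_two] at h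
  have h2 := Submodule.smul_mem _ (6 : ℚ) h
  have e : (6 : ℚ) • (Real.pi ^ 2 / 6) = Real.pi ^ 2 := by
    rw [Rat.smul_def]
    push_cast
    ring
  rw [e] at h2
  simpa using h2

theorem pow_mem_mzvSpace {M : ℕ} {x : ℝ} (hx : x ∈ mzvSpace M) (k : ℕ) :
    x ^ k ∈ mzvSpace (k * M) := by
  induction k with
  | zero => simpa using one_mem_mzvSpace
  | succ k ih =>
    rw [pow_succ, Nat.succ_mul]
    exact mul_mem_mzvSpace ih hx

theorem pi_pow_mem {n : ℕ} (hn : Even n) : Real.pi ^ n ∈ mzvSpace n := by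
  obtain ⟨k, rfl⟩ := hn
  have h := pow_mem_mzvSpace pi_sq_mem k
  rw [← pow_mul] at h
  have e : 2 * k = k + k := by ring
  have e2 : k * 2 = k + k := by ring
  rwa [e, e2] at h

theorem adm_three : Adm [3] := ⟨by simp, by intro a t h; have := (List.cons.inj h).1; omega⟩

theorem zl_three_pos : 0 < zl [3] := by
  have h1 : H [3] 1 ≤ zl [3] := le_ciSup (H_bddAbove [3] adm_three.1 adm_three.2) 1
  have h2 : H [3] 1 = 1 := by
    rw [H_cons]
    simp [H_nil]
  linarith

theorem zl_three_mem : zl [3] ∈ mzvSpace 3 := by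
  simpa using zl_mem [3] adm_three

/-- A nonzero element in every weight except `1`. -/
theorem exists_ne_zero {m : ℕ} (hm : m ≠ 1) : ∃ w ∈ mzvSpace m, w ≠ 0 := by
  rcases Nat.even_or_odd m with h | h
  · exact ⟨Real.pi ^ m, pi_pow_mem h, by positivity⟩
  · have h3 : 3 ≤ m := by
      obtain ⟨k, rfl⟩ := h
      omega
    refine ⟨zl [3] * Real.pi ^ (m - 3), ?_, ?_⟩
    · have := mul_mem_mzvSpace zl_three_mem (pi_pow_mem (n := m - 3) (by
        obtain ⟨k, rfl⟩ := h
        exact ⟨k - 1, by omega⟩))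
      have e : 3 + (m - 3) = m := by omega
      rwa [e] at this
    · have := zl_three_pos
      positivity

theorem finite_mzvSpace (N : ℕ) : Module.Finite ℚ (mzvSpace N) := by
  rw [mzvSpace_eq]
  apply Module.Finite.span_of_finite
  have h1 : {x : ℝ | ∃ w : List ℕ, Adm w ∧ w.sum = N ∧ x = zl w} ⊆
      (zl '' {w : List ℕ | w.length ≤ N ∧ ∀ a ∈ w, a ≤ N}) := by
    rintro x ⟨w, hw, hN, rfl⟩
    refine ⟨w, ⟨?_, ?_⟩, rfl⟩
    · rw [← hN]
      exact List.length_le_sum_of_one_le w hw.1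
    · intro a ha
      rw [← hN]
      exact List.single_le_sum (fun _ _ => Nat.zero_le _) a ha
  refine Set.Finite.subset (Set.Finite.image _ ?_) h1
  have h2 : {w : List ℕ | w.length ≤ N ∧ ∀ a ∈ w, a ≤ N} ⊆
      ((List.map (fun a : Fin (N + 1) => (a : ℕ))) '' {w : List (Fin (N + 1)) | w.length ≤ N}) := by
    rintro w ⟨hw, hw2⟩
    refine ⟨w.pmap (fun a h => (⟨a, h⟩ : Fin (N + 1))) (fun a ha => Nat.lt_succ_of_le (hw2 a ha)),
      ?_, ?_⟩
    · simpa using hw
    · rw [List.map_pmap]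
      simp
  exact Set.Finite.subset (Set.Finite.image _ (List.finite_length_le (Fin (N + 1)) N)) h2

end Pool.Agent.Helper21
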