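import Pool.Agent.Helper21.MZVSpace

set_option autoImplicit false

open Finset Filter

namespace Pool.Agent.Helper21

theorem prod_mem_mzvSpace {ι : Type} (s : Finset ι) (W : ℕ) (f : ι → ℝ)
    (hf : ∀ i ∈ s, f i ∈ mzvSpace W) : ∏ i ∈ s, f i ∈ mzvSpace (s.card * W) := by
  classical
  induction s using Finset.induction_on with
  | empty => simpa using one_mem_mzvSpace
  | insert a s ha ih =>
    rw [Finset.prod_insert ha, Finset.card_insert_of_notMem ha]
    have h := mul_mem_mzvSpace (hf a (Finset.mem_insert_self a s))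
      (ih (fun i hi => hf i (Finset.mem_insert_of_mem hi)))
    have e : W + s.card * W = (s.card + 1) * W := by ring
    rwa [e] at h

theorem det_mem_mzvSpace (r W : ℕ) (M : Matrix (Fin r) (Fin r) ℝ)
    (hM : ∀ i j, M i j ∈ mzvSpace W) : M.det ∈ mzvSpace (r * W) := by
  rw [Matrix.det_apply]
  apply Submodule.sum_mem
  intro σ _
  have h := prod_mem_mzvSpace (Finset.univ : Finset (Fin r)) W (fun i => M (σ i) i)
    (fun i _ => hM _ _)
  rw [Finset.card_univ, Fintype.card_fin] at h
  rcases Int.units_eq_one_or (Equiv.Perm.sign σ) with h1 | h1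
  · rw [h1, one_smul]
    exact h
  · rw [h1, Units.neg_smul, one_smul]
    exact Submodule.neg_mem _ h

/-- Cramer elimination inside the weight spaces. -/
theorem cramer_elim (D W : ℕ) (v : Fin (D + 1) → Fin D → ℝ) (hv : ∀ i j, v i j ∈ mzvSpace W) :
    ∃ r ≤ D, ∃ F : Fin (r + 1) → Fin (D + 1), Function.Injective F ∧
      ∃ d : Fin (r + 1) → ℝ, (∀ a, d a ∈ mzvSpace (r * W)) ∧ (∃ a, d a ≠ 0) ∧
        ∀ j, ∑ a, d a * v (F a) j = 0 := by
  classical
  let P : ℕ → Prop := fun r => ∃ (f : Fin r → Fin (D + 1)) (g : Fin r → Fin D),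
    Function.Injective f ∧ Function.Injective g ∧
      (Matrix.of (fun a b => v (f a) (g b))).det ≠ 0
  have hP0 : P 0 := ⟨Fin.elim0, Fin.elim0, fun a => a.elim0, fun a => a.elim0, by simp⟩
  have hPle : ∀ r, P r → r ≤ D := by
    rintro r ⟨f, g, _, hg, _⟩
    simpa using Fintype.card_le_of_injective g hg
  set r := Nat.findGreatest P D with hr
  have hPr : P r := Nat.findGreatest_spec (Nat.zero_le D) hP0
  have hPr1 : ¬ P (r + 1) := by
    intro h
    have h1 := hPle _ h
    exact Nat.findGreatest_is_greatest (Nat.lt_succ_self r) h1 h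
  obtain ⟨f, g, hf, hg, hdet⟩ := hPr
  have hrD : r ≤ D := hPle r ⟨f, g, hf, hg, hdet⟩
  obtain ⟨i1, hi1⟩ : ∃ i1, i1 ∉ Set.range f := by
    by_contra hcon
    push Not at hcon
    have hsurj : Function.Surjective f := hcon
    have := Fintype.card_le_of_surjective f hsurj
    simp at this
    omega
  let F : Fin (r + 1) → Fin (D + 1) := Fin.cons i1 f
  have hF : Function.Injective F := Fin.cons_injective_iff.2 ⟨hi1, hf⟩
  refine ⟨r, hrD, F, hF, fun a => (-1) ^ (a : ℕ) *
    (Matrix.of (fun b c => v (F (a.succAbove b)) (g c))).det, ?_, ⟨0, ?_⟩, ?_⟩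
  · intro a
    have h := det_mem_mzvSpace r W (Matrix.of (fun b c => v (F (a.succAbove b)) (g c)))
      (fun _ _ => hv _ _)
    dsimp only
    rcases Nat.even_or_odd (a : ℕ) with h1 | h1
    · rw [h1.neg_one_pow, one_mul]; exact h
    · rw [h1.neg_one_pow, neg_one_mul]; exact Submodule.neg_mem _ h
  · simp only [Fin.val_zero, pow_zero, one_mul, Fin.zero_succAbove, F, Fin.cons_succ]
    exact hdet
  · intro j
    have hz : (Matrix.of (fun a b => v (F a) ((Fin.cons j g : Fin (r + 1) → Fin D) b))).det = 0 := by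
      by_cases hj : j ∈ Set.range g
      · obtain ⟨b, rfl⟩ := hj
        apply Matrix.det_zero_of_column_eq (i := 0) (j := b.succ) (Fin.succ_ne_zero b).symm
        intro a
        simp
      · by_contra hne
        exact hPr1 ⟨F, Fin.cons j g, hF, Fin.cons_injective_iff.2 ⟨hj, hg⟩, hne⟩
    rw [Matrix.det_succ_column_zero] at hz
    rw [← hz]
    apply Finset.sum_congr rfl
    intro a _
    have e : (Matrix.of (fun a b => v (F a) ((Fin.cons j g : Fin (r + 1) → Fin D) b))).submatrix
        a.succAbove Fin.succ = Matrix.of (fun b c => v (F (a.succAbove b)) (g c)) := by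
      ext b c
      simp [Matrix.submatrix_apply]
    rw [e]
    simp only [Matrix.of_apply, Fin.cons_zero]
    ring


/-- Coordinates of powers modulo a relation with coefficients of one weight. -/
theorem coord (D L : ℕ) (a : ℕ → ℝ) (t : ℝ) (ha : ∀ i ≤ D + 1, a i ∈ mzvSpace L)
    (hrel : ∑ i ∈ range (D + 2), a i * t ^ i = 0) (j : ℕ) :
    ∃ c : ℕ → ℝ, (∀ i ≤ D, c i ∈ mzvSpace (j * L)) ∧
      a (D + 1) ^ j * t ^ j = ∑ i ∈ range (D + 1), c i * t ^ i := by
  induction j with
  | zero =>
    refine ⟨fun i => if i = 0 then 1 else 0, ?_, ?_⟩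
    · intro i _
      dsimp only
      rw [zero_mul]
      split_ifs
      · exact one_mem_mzvSpace
      · exact Submodule.zero_mem _
    · simp
  | succ j ih =>
    obtain ⟨c, hc, hsum⟩ := ih
    refine ⟨fun i => a (D + 1) * (if i = 0 then 0 else c (i - 1)) - c D * a i, ?_, ?_⟩
    · intro i hi
      dsimp only
      apply Submodule.sub_mem
      · split_ifs
        · rw [mul_zero]; exact Submodule.zero_mem _
        · have h := mul_mem_mzvSpace (ha (D + 1) le_rfl) (hc (i - 1) (by omega))
          have e : L + j * L = (j + 1) * L := by ring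
          rwa [e] at h
      · have h := mul_mem_mzvSpace (hc D le_rfl) (ha i (by omega))
        have e : j * L + L = (j + 1) * L := by ring
        rwa [e] at h
    · have e1 : a (D + 1) ^ (j + 1) * t ^ (j + 1) = a (D + 1) * t * (a (D + 1) ^ j * t ^ j) := by
        ring
      rw [e1, hsum]
      have e2 : ∑ i ∈ range (D + 1), (a (D + 1) * (if i = 0 then 0 else c (i - 1)) - c D * a i) * t ^ i
          = a (D + 1) * ∑ i ∈ range (D + 1), (if i = 0 then 0 else c (i - 1)) * t ^ i
            - c D * ∑ i ∈ range (D + 1), a i * t ^ i := by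
        rw [Finset.mul_sum, Finset.mul_sum, ← Finset.sum_sub_distrib]
        apply Finset.sum_congr rfl
        intro i _
        ring
      have e3 : ∑ i ∈ range (D + 1), (if i = 0 then 0 else c (i - 1)) * t ^ i
          = ∑ i ∈ range D, c i * t ^ (i + 1) := by
        rw [Finset.sum_range_succ']
        simp
      have e4 : ∑ i ∈ range (D + 1), a i * t ^ i = - (a (D + 1) * t ^ (D + 1)) := by
        rw [Finset.sum_range_succ] at hrel
        linarith
      rw [e2, e3, e4, Finset.sum_range_succ]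
      have e5 : ∑ i ∈ range D, c i * t ^ (i + 1) = t * ∑ i ∈ range D, c i * t ^ i := by
        rw [Finset.mul_sum]
        apply Finset.sum_congr rfl
        intro i _
        ring
      rw [e5]
      ring

theorem exists_relation (N : ℕ) (h : ¬ iSupIndep (fun i : Fin (N + 1) => mzvSpace i)) :
    ∃ z : ℕ → ℝ, (∀ n, z n ∈ mzvSpace n) ∧ ∑ n ∈ range (N + 1), z n = 0 ∧ ∃ n ≤ N, z n ≠ 0 := by
  classical
  rw [iSupIndep_iff_finsetSum_eq_zero_imp_eq_zero] at h
  push Not at h
  obtain ⟨S, v, hv, hsum, i, hi, hne⟩ := h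
  let v' : Fin (N + 1) → ℝ := fun j => if j ∈ S then v j else 0
  have hv' : ∀ j : Fin (N + 1), v' j ∈ mzvSpace j := by
    intro j
    by_cases hj : j ∈ S
    · simp only [v', if_pos hj]
      exact hv j hj
    · simp only [v', if_neg hj]
      exact Submodule.zero_mem _
  have hsum' : ∑ j, v' j = 0 := by
    rw [← hsum]
    simp only [v']
    rw [Finset.sum_ite_mem, Finset.univ_inter]
  have hne' : v' i ≠ 0 := by
    simp only [v', if_pos hi]
    exact hne
  clear_value v'
  clear hsum hne hi hv v S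
  let u : ℕ → ℝ := fun j => if h : j < N + 1 then v' ⟨j, h⟩ else 0
  have huv : ∀ j : Fin (N + 1), u j = v' j := by
    intro j
    simp only [u, j.2, dif_pos, Fin.eta]
  have hu0 : ∀ n, N < n → u n = 0 := by
    intro n hn
    have : ¬ n < N + 1 := by omega
    simp only [u, this, dif_neg, not_false_eq_true]
  clear_value u
  refine ⟨u, ?_, ?_, i, Nat.lt_succ_iff.1 i.2, ?_⟩
  · intro n
    rcases Nat.lt_or_ge N n with h1 | h1
    · rw [hu0 n h1]
      exact Submodule.zero_mem _
    · have h2 := huv ⟨n, Nat.lt_succ_of_le h1⟩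
      simp only at h2
      rw [h2]
      exact hv' ⟨n, Nat.lt_succ_of_le h1⟩
  · rw [Finset.sum_range, Finset.sum_congr rfl (fun j _ => huv j)]
    exact hsum'
  · rw [huv]
    exact hne'

theorem window (N : ℕ) (s : Fin (N + 1) → ℕ) (hs : StrictMono s)
    (hwin : (3 * N ^ 2 + 2) * (s (Fin.last N) - s 0) + 2 ≤ s 0)
    (hind : iSupIndep (fun i => mzvSpace (s i))) :
    iSupIndep (fun i : Fin (N + 1) => mzvSpace i) := by
  classical
  by_contra hcon
  obtain ⟨z, hz, hsum, n0, hn0, hne⟩ := exists_relation N hcon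
  set D := Nat.findGreatest (fun n => z n ≠ 0) N with hD
  have hDN : D ≤ N := Nat.findGreatest_le N
  have hzD : z D ≠ 0 := Nat.findGreatest_spec (P := fun n => z n ≠ 0) hn0 hne
  have hzgt : ∀ n, D < n → n ≤ N → z n = 0 := by
    intro n h1 h2
    by_contra h3
    exact Nat.findGreatest_is_greatest h1 h2 h3
  have hsumD : ∑ n ∈ range (D + 1), z n = 0 := by
    rw [← hsum]
    apply Finset.sum_subset
    · intro x hx
      rw [Finset.mem_range] at hx ⊢
      omega
    · intro x hx hx'
      rw [Finset.mem_range] at hx hx'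
      exact hzgt x (by omega) (by omega)
  obtain ⟨D', hD'⟩ : ∃ D', D = D' + 1 := by
    rcases Nat.eq_zero_or_pos D with h0 | h0
    · rw [h0] at hsumD hzD
      simp at hsumD
      exact absurd hsumD hzD
    · exact ⟨D - 1, by omega⟩
  set p : ℝ := Real.pi ^ 2 with hp
  set q : ℝ := zl [3] with hq
  have hp0 : p ≠ 0 := by have := Real.pi_pos; positivity
  have hq0 : q ≠ 0 := zl_three_pos.ne'
  have hpm : p ∈ mzvSpace 2 := pi_sq_mem
  have hqm : q ∈ mzvSpace 3 := zl_three_mem
  set t : ℝ := q / p with ht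
  set a : ℕ → ℝ := fun n => z n * p ^ n * q ^ (N - n) with ha
  have ham : ∀ n ≤ D' + 1, a n ∈ mzvSpace (3 * N) := by
    intro n hn
    have h := mul_mem_mzvSpace (mul_mem_mzvSpace (hz n) (pow_mem_mzvSpace hpm n))
      (pow_mem_mzvSpace hqm (N - n))
    have e : n + n * 2 + (N - n) * 3 = 3 * N := by omega
    rwa [e] at h
  have hat : ∀ n ≤ N, a n * t ^ n = z n * q ^ N := by
    intro n hn
    have e : q ^ N = q ^ (N - n) * q ^ n := by
      rw [← pow_add]
      congr 1
      omega
    rw [ha, ht, div_pow, e]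
    field_simp
  have haD : a D ≠ 0 := by
    rw [ha]
    have h1 : p ^ D ≠ 0 := pow_ne_zero _ hp0
    have h2 : q ^ (N - D) ≠ 0 := pow_ne_zero _ hq0
    exact mul_ne_zero (mul_ne_zero hzD h1) h2
  have harel : ∑ i ∈ range (D' + 2), a i * t ^ i = 0 := by
    have : ∑ i ∈ range (D' + 2), a i * t ^ i = (∑ n ∈ range (D + 1), z n) * q ^ N := by
      rw [Finset.sum_mul, hD']
      apply Finset.sum_congr rfl
      intro i hi
      rw [Finset.mem_range] at hi
      exact hat i (by omega)
    rw [this, hsumD, zero_mul]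
  -- exponents
  set J : ℕ := s (Fin.last N) - s 0 with hJ
  let e : Fin (D + 1) → Fin (N + 1) := Fin.castLE (by omega)
  have he : Function.Injective e := Fin.castLE_injective _
  let jj : Fin (D + 1) → ℕ := fun i => s (e i) - s 0
  have hs0 : ∀ i, s 0 ≤ s i := fun i => hs.monotone (Fin.zero_le i)
  have hsl : ∀ i, s i ≤ s (Fin.last N) := fun i => hs.monotone (Fin.le_last i)
  have hjJ : ∀ i, jj i ≤ J := by
    intro i
    have := hsl (e i)
    simp only [jj, hJ]
    omega
  choose c hcm hcs using fun i : Fin (D + 1) => coord D' (3 * N) a t ham harel (jj i)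
  let v : Fin (D + 1) → Fin D → ℝ := fun i b => a D ^ (J - jj i) * c i b
  have hvm : ∀ i b, v i b ∈ mzvSpace (J * (3 * N)) := by
    intro i b
    have hb : (b : ℕ) ≤ D' := by have := b.2; omega
    have hDm : a D ∈ mzvSpace (3 * N) := ham D (by omega)
    have h := mul_mem_mzvSpace (pow_mem_mzvSpace hDm (J - jj i)) (hcm i b hb)
    have e1 : (J - jj i) * (3 * N) + jj i * (3 * N) = J * (3 * N) := by
      rw [← add_mul]
      congr 1
      have := hjJ i
      omega
    rwa [e1] at h
  have hvs : ∀ i, a D ^ J * t ^ (jj i) = ∑ b : Fin D, v i b * t ^ (b : ℕ) := by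
    intro i
    have h1 := hcs i
    rw [← hD', Finset.sum_range] at h1
    have e1 : a D ^ J = a D ^ (J - jj i) * a D ^ (jj i) := by
      rw [← pow_add]
      congr 1
      have := hjJ i
      omega
    rw [e1, mul_assoc, h1, Finset.mul_sum]
    apply Finset.sum_congr rfl
    intro b _
    simp only [v]
    ring
  obtain ⟨r, hrD, F, hF, d, hdm, ⟨a0, hda0⟩, hd⟩ := cramer_elim D (J * (3 * N)) v hvm
  have hrel2 : ∑ b, d b * t ^ (jj (F b)) = 0 := by
    have h1 : a D ^ J * ∑ b, d b * t ^ (jj (F b)) = 0 := by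
      rw [Finset.mul_sum]
      have e1 : ∀ b, a D ^ J * (d b * t ^ (jj (F b))) = ∑ x : Fin D, (d b * v (F b) x) * t ^ (x : ℕ) := by
        intro b
        have : a D ^ J * (d b * t ^ (jj (F b))) = d b * (a D ^ J * t ^ (jj (F b))) := by ring
        rw [this, hvs, Finset.mul_sum]
        apply Finset.sum_congr rfl
        intro x _
        ring
      rw [Finset.sum_congr rfl (fun b _ => e1 b), Finset.sum_comm]
      apply Finset.sum_eq_zero
      intro x _
      rw [← Finset.sum_mul, hd x, zero_mul]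
    rcases mul_eq_zero.1 h1 with h2 | h2
    · exact absurd h2 (pow_ne_zero _ haD)
    · exact h2
  -- a multiplier
  have hbig : r * (J * (3 * N)) + 2 * J + 2 ≤ s 0 := by
    have h1 : r * (J * (3 * N)) ≤ 3 * N ^ 2 * J := by
      have h2 : r ≤ N := hrD.trans hDN
      calc r * (J * (3 * N)) ≤ N * (J * (3 * N)) := Nat.mul_le_mul_right _ h2
        _ = 3 * N ^ 2 * J := by ring
    have h3 : (3 * N ^ 2 + 2) * J = 3 * N ^ 2 * J + 2 * J := by ring
    rw [h3] at hwin
    omega
  obtain ⟨w, hwm, hw0⟩ := exists_ne_zero (m := s 0 - (r * (J * (3 * N)) + 2 * J)) (by omega)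
  have hG : Function.Injective (fun b => e (F b)) := he.comp hF
  have hind' := hind.comp hG
  rw [iSupIndep_iff_finsetSum_eq_zero_imp_eq_zero] at hind'
  have hfin := hind' Finset.univ (fun b => d b * q ^ (jj (F b)) * p ^ (J - jj (F b)) * w) (by
    intro b _
    have h := mul_mem_mzvSpace (mul_mem_mzvSpace (mul_mem_mzvSpace (hdm b)
      (pow_mem_mzvSpace hqm (jj (F b)))) (pow_mem_mzvSpace hpm (J - jj (F b)))) hwm
    have h1 := hjJ (F b)
    have h2 := hs0 (e (F b))
    have h3 : jj (F b) = s (e (F b)) - s 0 := rfl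
    have e1 : r * (J * (3 * N)) + jj (F b) * 3 + (J - jj (F b)) * 2 +
        (s 0 - (r * (J * (3 * N)) + 2 * J)) = s (e (F b)) := by
      set X := r * (J * (3 * N)) with hX
      omega
    rw [e1] at h
    exact h) (by
    have e1 : ∀ b, d b * q ^ (jj (F b)) * p ^ (J - jj (F b)) * w
        = (d b * t ^ (jj (F b))) * (p ^ J * w) := by
      intro b
      have e2 : p ^ J = p ^ (J - jj (F b)) * p ^ (jj (F b)) := by
        rw [← pow_add]
        congr 1
        have := hjJ (F b)
        omega
      rw [e2, ht, div_pow]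
      field_simp
    rw [Finset.sum_congr rfl (fun b _ => e1 b), ← Finset.sum_mul, hrel2, zero_mul])
    a0 (Finset.mem_univ _)
  have h1 : q ^ (jj (F a0)) ≠ 0 := pow_ne_zero _ hq0
  have h2 : p ^ (J - jj (F a0)) ≠ 0 := pow_ne_zero _ hp0
  exact (mul_ne_zero (mul_ne_zero (mul_ne_zero hda0 h1) h2) hw0) hfin

end Pool.Agent.Helper21
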