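import Pool.Agent.Helper21.PctrDefs

set_option autoImplicit false

/-!
# Pseudocentral groups (MP_b54334_al): first lemmas
-/

namespace Pool.Agent.Helper21.Pctr

universe u

/-- All subgroups are pseudocentral. -/
def HP (G : Type u) [Group G] : Prop := ∀ H : Subgroup G, Pseudocentral H

variable {G : Type u} [Group G]

theorem pc_iff : Pseudocentral G ↔
    ∀ g : G, Subgroup.normalClosure (Subgroup.centralizer {g} : Set G) = ⊤ := by
  rw [Pseudocentral, pseudocentre, iInf_eq_top]

theorem pc_key (h : Pseudocentral G) (g : G) (K : Subgroup G) (hK : K.Normal)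
    (hg : ∀ x, x * g = g * x → x ∈ K) : K = ⊤ := by
  rw [eq_top_iff, ← pc_iff.1 h g]
  apply Subgroup.normalClosure_le_normal
  intro x hx
  exact hg x (Subgroup.mem_centralizer_singleton_iff.1 hx)

theorem normal_of_le {K : Subgroup G} (h : commutator G ≤ K) : K.Normal := by
  constructor
  intro x hx g
  have h1 : g * x * g⁻¹ * x⁻¹ ∈ K := h (Subgroup.commutator_mem_commutator
    (Subgroup.mem_top g) (Subgroup.mem_top x))
  have h2 := K.mul_mem h1 hx
  rwa [inv_mul_cancel_right] at h2

theorem pc_of_surj {A B : Type u} [Group A] [Group B] (f : A →* B) (hf : Function.Surjective f)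
    (h : Pseudocentral A) : Pseudocentral B := by
  rw [pc_iff]
  intro b
  obtain ⟨a, rfl⟩ := hf b
  have h1 : Subgroup.map f (Subgroup.normalClosure (Subgroup.centralizer {a} : Set A)) = ⊤ := by
    rw [pc_iff.1 h a, Subgroup.map_top_of_surjective f hf]
  rw [eq_top_iff, ← h1, Subgroup.map_normalClosure _ f hf]
  apply Subgroup.normalClosure_mono
  rintro _ ⟨x, hx, rfl⟩
  have h2 := Subgroup.mem_centralizer_singleton_iff.1 hx
  apply Subgroup.mem_centralizer_singleton_iff.2
  rw [← map_mul, h2, map_mul]

theorem HP.surj {A B : Type u} [Group A] [Group B] (f : A →* B) (hf : Function.Surjective f)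
    (h : HP A) : HP B := fun K =>
  pc_of_surj (f.subgroupComap K) (f.subgroupComap_surjective_of_surjective K hf) (h _)

theorem HP.self (h : HP G) : Pseudocentral G :=
  pc_of_surj (Subgroup.topEquiv (G := G)).toMonoidHom (MulEquiv.surjective _) (h ⊤)

theorem HP.inj {A B : Type u} [Group A] [Group B] (f : A →* B) (hf : Function.Injective f)
    (h : HP B) : HP A := fun K =>
  pc_of_surj (K.equivMapOfInjective f hf).symm.toMonoidHom (MulEquiv.surjective _) (h _)

theorem HP.sub (h : HP G) (H : Subgroup G) : HP H := h.inj H.subtype H.subtype_injective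

theorem LG.inj {A B : Type u} [Group A] [Group B] (f : A →* B) (hf : Function.Injective f)
    (h : LocallyGraded B) : LocallyGraded A := by
  intro H hH hb
  obtain ⟨K, hK, hi⟩ := h (H.map f) (by
      obtain ⟨S, rfl⟩ := hH
      classical
      refine ⟨S.image f, ?_⟩
      rw [Finset.coe_image, MonoidHom.map_closure]) (by
      intro h0
      apply hb
      rw [Subgroup.map_eq_bot_iff] at h0
      rw [eq_bot_iff]
      refine h0.trans ?_
      rw [(MonoidHom.ker_eq_bot_iff f).2 hf])
  refine ⟨K.comap f, ?_, ?_⟩
  · have h1 : K.comap f ≤ H := by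
      intro x hx
      have h2 : f x ∈ H.map f := hK.le hx
      obtain ⟨y, hy, he⟩ := h2
      rwa [← hf he]
    refine lt_of_le_of_ne h1 fun h2 => ?_
    have h3 : H.map f ≤ K := by
      rw [← h2]
      exact Subgroup.map_comap_le _ _
    exact absurd h3 (not_le_of_gt hK)
  · rw [Subgroup.relIndex_comap]
    exact hi

theorem LG.sub (h : LocallyGraded G) (H : Subgroup G) : LocallyGraded H :=
  LG.inj H.subtype H.subtype_injective h

theorem quot_comm (N : Subgroup G) [N.Normal] (x g : G) :
    (QuotientGroup.mk' N x * QuotientGroup.mk' N g = QuotientGroup.mk' N g * QuotientGroup.mk' N x) ↔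
      x * g * x⁻¹ * g⁻¹ ∈ N := by
  have h0 : x * g * x⁻¹ * g⁻¹ ∈ N ↔ QuotientGroup.mk' N (x * g * x⁻¹ * g⁻¹) = 1 :=
    (QuotientGroup.eq_one_iff _).symm
  rw [h0, map_mul, map_mul, map_mul, map_inv, map_inv]
  constructor
  · intro h
    rw [h]
    group
  · intro h
    calc QuotientGroup.mk' N x * QuotientGroup.mk' N g
        = (QuotientGroup.mk' N x * QuotientGroup.mk' N g * (QuotientGroup.mk' N x)⁻¹ *
            (QuotientGroup.mk' N g)⁻¹) * (QuotientGroup.mk' N g * QuotientGroup.mk' N x) := by group
      _ = QuotientGroup.mk' N g * QuotientGroup.mk' N x := by rw [h, one_mul]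

/-- the subgroup of the elements which commute with `g` modulo `N` -/
def Kg (N : Subgroup G) [N.Normal] (g : G) : Subgroup G :=
  (Subgroup.centralizer {(g : G ⧸ N)}).comap (QuotientGroup.mk' N)

theorem mem_Kg (N : Subgroup G) [N.Normal] (g x : G) : x ∈ Kg N g ↔ x * g * x⁻¹ * g⁻¹ ∈ N := by
  rw [← quot_comm]
  exact Subgroup.mem_centralizer_singleton_iff

/-- the derived subgroup of a pseudocentral group is perfect -/
theorem pc_perfect (h : Pseudocentral G) : ⁅commutator G, commutator G⁆ = commutator G := by
  apply le_antisymm (Subgroup.commutator_mono le_top le_top)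
  have key : ∀ g : G, (∀ x ∈ commutator G, x * g * x⁻¹ * g⁻¹ ∈ ⁅commutator G, commutator G⁆) →
      ∀ x, x * g * x⁻¹ * g⁻¹ ∈ ⁅commutator G, commutator G⁆ := by
    intro g hg x
    have h1 : Kg ⁅commutator G, commutator G⁆ g = ⊤ := by
      apply pc_key h g _ (normal_of_le fun y hy => (mem_Kg _ _ _).2 (hg y hy))
      intro y hy
      rw [mem_Kg, hy]
      have : g * y * y⁻¹ * g⁻¹ = 1 := by group
      rw [this]
      exact Subgroup.one_mem _
    have h2 : x ∈ Kg ⁅commutator G, commutator G⁆ g := by
      rw [h1]
      exact Subgroup.mem_top x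
    exact (mem_Kg _ _ _).1 h2
  have h1 : ∀ g ∈ commutator G, ∀ x, x * g * x⁻¹ * g⁻¹ ∈ ⁅commutator G, commutator G⁆ :=
    fun g hg => key g fun x hx => Subgroup.commutator_mem_commutator hx hg
  have h2 : ∀ g x : G, x * g * x⁻¹ * g⁻¹ ∈ ⁅commutator G, commutator G⁆ := by
    intro g
    apply key g
    intro x hx
    have h3 := Subgroup.inv_mem _ (h1 x hx g)
    have : (g * x * g⁻¹ * x⁻¹)⁻¹ = x * g * x⁻¹ * g⁻¹ := by group
    rwa [this] at h3
  rw [commutator_def G, Subgroup.commutator_le]
  intro x _ g _
  exact h2 g x

theorem cm_of_commutator (h : commutator G = ⊥) : Cm G := by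
  intro a b
  have h1 : a * b * a⁻¹ * b⁻¹ ∈ commutator G :=
    Subgroup.commutator_mem_commutator (Subgroup.mem_top a) (Subgroup.mem_top b)
  rw [h, Subgroup.mem_bot] at h1
  calc a * b = (a * b * a⁻¹ * b⁻¹) * (b * a) := by group
    _ = b * a := by rw [h1, one_mul]

theorem commutator_of_cm (h : Cm G) : commutator G = ⊥ := by
  rw [commutator_def, eq_bot_iff, Subgroup.commutator_le]
  intro a _ b _
  rw [Subgroup.mem_bot]
  show a * b * a⁻¹ * b⁻¹ = 1
  rw [h a b]
  group

theorem bracket_bot {A : Subgroup G} (h : ∀ a ∈ A, ∀ b ∈ A, a * b = b * a) : ⁅A, A⁆ = ⊥ := by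
  rw [eq_bot_iff, Subgroup.commutator_le]
  intro a ha b hb
  rw [Subgroup.mem_bot]
  show a * b * a⁻¹ * b⁻¹ = 1
  rw [h a ha b hb]
  group

/-- a pseudocentral group with abelian derived subgroup is abelian -/
theorem pc_cm (h : Pseudocentral G) (h2 : Cm (commutator G)) : Cm G := by
  apply cm_of_commutator
  rw [← pc_perfect h]
  apply bracket_bot
  intro a ha b hb
  exact congrArg Subtype.val (h2 ⟨a, ha⟩ ⟨b, hb⟩)

theorem Cm.inj {A B : Type u} [Group A] [Group B] (f : A →* B) (hf : Function.Injective f)
    (h : Cm B) : Cm A := fun a b => hf (by rw [map_mul, map_mul, h])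

theorem Cm.surj {A B : Type u} [Group A] [Group B] (f : A →* B) (hf : Function.Surjective f)
    (h : Cm A) : Cm B := by
  intro a b
  obtain ⟨x, rfl⟩ := hf a
  obtain ⟨y, rfl⟩ := hf b
  rw [← map_mul, h, map_mul]

theorem map_commutator_top {A B : Type u} [Group A] [Group B] (f : A →* B)
    (hf : Function.Surjective f) : (commutator A).map f = commutator B := by
  rw [commutator_def, commutator_def, Subgroup.map_commutator,
    Subgroup.map_top_of_surjective f hf]

/-- finite groups with all proper subgroups abelian are not perfect -/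
theorem mm (n : ℕ) : ∀ (Q : Type u) [Group Q] [Finite Q], Nat.card Q = n → Nontrivial Q →
    (∀ H : Subgroup Q, H ≠ ⊤ → Cm H) → commutator Q ≠ ⊤ := by
  induction n using Nat.strong_induction_on with
  | _ n ih =>
  intro Q _ _ hn hnt hQ htop
  have hc : Nat.card Q ≠ 1 := by
    intro h1
    have := (Nat.card_eq_one_iff_unique.1 h1).1
    exact not_subsingleton Q this
  obtain ⟨p, hp, hpd⟩ := Nat.exists_prime_and_dvd hc
  have : Fact p.Prime := ⟨hp⟩
  obtain ⟨P⟩ : Nonempty (Sylow p Q) := inferInstance
  have hPb : (P : Subgroup Q) ≠ ⊥ := P.ne_bot_of_dvd_card hpd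
  by_cases hP : (P : Subgroup Q) = ⊤
  · have h1 : IsPGroup p Q := by
      have := P.isPGroup'
      rw [hP] at this
      exact this.of_surjective (Subgroup.topEquiv (G := Q)).toMonoidHom (MulEquiv.surjective _)
    have := h1.isNilpotent
    have h2 := Group.IsSolvable.commutator_lt_top_of_nontrivial Q
    exact h2.ne htop
  by_cases hN : Subgroup.normalizer ((P : Subgroup Q) : Set Q) = ⊤
  · have hPn : (P : Subgroup Q).Normal := Subgroup.normalizer_eq_top_iff.1 hN
    have hlt : Nat.card (Q ⧸ (P : Subgroup Q)) < n := by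
      rw [← hn, Subgroup.card_eq_card_quotient_mul_card_subgroup (P : Subgroup Q)]
      have h1 : 1 < Nat.card (P : Subgroup Q) := by
        rw [Finite.one_lt_card_iff_nontrivial]
        exact (Subgroup.nontrivial_iff_ne_bot _).2 hPb
      have h2 : 0 < Nat.card (Q ⧸ (P : Subgroup Q)) := Nat.card_pos
      nlinarith
    have hnt2 : Nontrivial (Q ⧸ (P : Subgroup Q)) := by
      rw [QuotientGroup.nontrivial_iff]
      exact hP
    refine ih _ hlt (Q ⧸ (P : Subgroup Q)) rfl hnt2 ?_ ?_
    · intro H hH
      have h1 : H.comap (QuotientGroup.mk' (P : Subgroup Q)) ≠ ⊤ := by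
        intro h2
        apply hH
        rw [eq_top_iff]
        intro x _
        obtain ⟨y, rfl⟩ := QuotientGroup.mk'_surjective _ x
        have : y ∈ H.comap (QuotientGroup.mk' (P : Subgroup Q)) := by
          rw [h2]
          exact Subgroup.mem_top y
        exact this
      exact (hQ _ h1).surj ((QuotientGroup.mk' (P : Subgroup Q)).subgroupComap H)
        (MonoidHom.subgroupComap_surjective_of_surjective _ H (QuotientGroup.mk'_surjective _))
    · rw [← map_commutator_top _ (QuotientGroup.mk'_surjective (P : Subgroup Q)), htop]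
      exact Subgroup.map_top_of_surjective _ (QuotientGroup.mk'_surjective _)
  · have hcm := hQ _ hN
    have hle : Subgroup.normalizer ((P : Subgroup Q) : Set Q) ≤
        Subgroup.centralizer ((P : Subgroup Q) : Set Q) := by
      intro x hx
      rw [Subgroup.mem_centralizer_iff]
      intro y hy
      exact congrArg Subtype.val (hcm ⟨y, Subgroup.le_normalizer hy⟩ ⟨x, hx⟩)
    have hcP : Cm P := by
      intro a b
      have := hcm ⟨a, Subgroup.le_normalizer a.2⟩ ⟨b, Subgroup.le_normalizer b.2⟩
      have e : (a : Q) * b = b * a := congrArg Subtype.val this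
      exact Subtype.ext e
    have h1 := MonoidHom.ker_transferSylow_isComplement' P hle
    have h2 : commutator Q ≤ (MonoidHom.transferSylow P hle).ker := by
      rw [commutator_def, Subgroup.commutator_le]
      intro a _ b _
      show MonoidHom.transferSylow P hle (a * b * a⁻¹ * b⁻¹) = 1
      rw [map_mul, map_mul, map_mul, hcP (MonoidHom.transferSylow P hle a), map_inv, map_inv]
      group
    rw [htop, top_le_iff] at h2
    rw [h2] at h1
    have h3 := h1.disjoint
    rw [disjoint_iff, top_inf_eq] at h3
    exact hPb h3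

/-- finite groups with all subgroups pseudocentral are abelian -/
theorem fin_cm (n : ℕ) : ∀ (Q : Type u) [Group Q] [Finite Q], Nat.card Q = n → HP Q → Cm Q := by
  induction n using Nat.strong_induction_on with
  | _ n ih =>
  intro Q _ _ hn hQ
  have hsub : ∀ H : Subgroup Q, H ≠ ⊤ → Cm H := by
    intro H hH
    apply ih (Nat.card H) _ H rfl (hQ.sub H)
    rw [← hn]
    refine lt_of_le_of_ne (Subgroup.card_le_card_group H) fun h1 => hH ?_
    exact Subgroup.eq_top_of_card_eq H h1
  rcases subsingleton_or_nontrivial Q with h1 | h1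
  · intro a b
    exact Subsingleton.elim _ _
  · exact pc_cm hQ.self (hsub _ (mm _ Q rfl h1 hsub))

/-- a group with all subgroups pseudocentral which has a proper subgroup of finite index is not
perfect -/
theorem not_perfect (h : HP G) (K : Subgroup G) (hK : K ≠ ⊤) (hi : K.FiniteIndex) :
    commutator G ≠ ⊤ := by
  intro htop
  have h1 : HP (G ⧸ K.normalCore) := h.surj _ (QuotientGroup.mk'_surjective K.normalCore)
  have : Finite (G ⧸ K.normalCore) := Subgroup.finite_quotient_of_finiteIndex
  have h2 := commutator_of_cm (fin_cm _ (G ⧸ K.normalCore) rfl h1)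
  rw [← map_commutator_top _ (QuotientGroup.mk'_surjective K.normalCore), htop,
    Subgroup.map_top_of_surjective _ (QuotientGroup.mk'_surjective _)] at h2
  apply hK
  rw [eq_top_iff]
  intro x _
  apply Subgroup.normalCore_le K
  rw [← QuotientGroup.eq_one_iff]
  have h3 : ((x : G ⧸ K.normalCore)) ∈ (⊤ : Subgroup (G ⧸ K.normalCore)) := Subgroup.mem_top _
  rw [h2, Subgroup.mem_bot] at h3
  exact h3

/-- a nontrivial finitely generated locally graded group with all subgroups pseudocentral is not
perfect -/
theorem not_perfect_fg (h : HP G) (hl : LocallyGraded G) (hf : Group.FG G) (hn : Nontrivial G) :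
    commutator G ≠ ⊤ := by
  obtain ⟨K, hK, hi⟩ := hl ⊤ (Group.fg_def.1 hf) (by
    intro h0
    exact (Subgroup.nontrivial_iff_ne_bot (⊤ : Subgroup G)).1
      ((Subgroup.nontrivial_iff).2 hn |> fun _ => by
        have := hn
        exact (Subgroup.topEquiv (G := G)).toEquiv.nontrivial) h0)
  rw [Subgroup.relIndex_top_right] at hi
  exact not_perfect h K hK.ne ⟨hi⟩

/-- if the derived subgroup is finitely generated then the group is abelian -/
theorem cm_of_fg (h : HP G) (hl : LocallyGraded G) (hf : (commutator G).FG) : Cm G := by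
  by_contra hc
  have hn : Nontrivial (commutator G) := by
    rw [Subgroup.nontrivial_iff_ne_bot]
    intro h0
    exact hc (cm_of_commutator h0)
  have h1 := not_perfect_fg (h.sub _) (LG.sub hl _) ((Group.fg_iff_subgroup_fg _).2 hf) hn
  apply h1
  have h2 := pc_perfect h.self
  apply Subgroup.map_injective (commutator G).subtype_injective
  rw [commutator_def (commutator G), Subgroup.map_commutator]
  rw [← MonoidHom.range_eq_map, Subgroup.range_subtype, h2]

/-- the abelianization of a nonabelian finitely generated group of our kind is infinite -/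
theorem not_finite (h : HP G) (hl : LocallyGraded G) (hf : Group.FG G) (hc : ¬ Cm G) :
    ¬ Finite (Abelianization G) := by
  intro hfin
  apply hc
  apply cm_of_fg h hl
  have : (commutator G).FiniteIndex := by
    have : Finite (G ⧸ commutator G) := hfin
    exact Subgroup.finiteIndex_of_finite_quotient
  exact (Group.fg_iff_subgroup_fg _).1 (Subgroup.fg_of_index_ne_zero (commutator G))

/-- the centralizer of finitely many commuting elements -/
theorem cent_sup (h : HP G) (S : Finset G) : (∀ a ∈ S, ∀ b ∈ S, a * b = b * a) →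
    Subgroup.centralizer (S : Set G) ⊔ commutator G = ⊤ := by
  classical
  induction S using Finset.induction_on with
  | empty =>
    intro _
    have h0 : Subgroup.centralizer (((∅ : Finset G) : Set G)) = ⊤ := by
      rw [eq_top_iff]
      intro x _
      rw [Subgroup.mem_centralizer_iff]
      intro y hy
      simp at hy
    rw [h0, top_sup_eq]
  | insert a S _ ih =>
    intro hc
    have h1 := ih fun x hx y hy => hc x (Finset.mem_insert_of_mem hx) y (Finset.mem_insert_of_mem hy)
    set C := Subgroup.centralizer (S : Set G) with hC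
    set C' := Subgroup.centralizer ((insert a S : Finset G) : Set G) with hC'
    have ha : a ∈ C := by
      rw [hC, Subgroup.mem_centralizer_iff]
      intro y hy
      exact hc y (Finset.mem_insert_of_mem hy) a (Finset.mem_insert_self a S)
    have hPC : Pseudocentral C := h C
    have hK : C'.subgroupOf C ⊔ commutator C = ⊤ := by
      apply pc_key hPC ⟨a, ha⟩ _ (normal_of_le le_sup_right)
      intro x hx
      have hx' : (x : G) * a = a * x := congrArg Subtype.val hx
      apply Subgroup.mem_sup_left
      rw [Subgroup.mem_subgroupOf, hC', Subgroup.mem_centralizer_iff]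
      intro y hy
      rw [Finset.coe_insert] at hy
      rcases hy with rfl | hy
      · exact hx'.symm
      · exact (Subgroup.mem_centralizer_iff.1 x.2) y hy
    have h2 : C ≤ C' ⊔ commutator G := by
      have h3 : (C'.subgroupOf C ⊔ commutator C).map C.subtype ≤ C' ⊔ commutator G := by
        rw [Subgroup.map_sup]
        apply sup_le_sup
        · rw [Subgroup.subgroupOf_map_subtype]
          exact inf_le_left
        · rw [commutator_def C, Subgroup.map_commutator, commutator_def G]
          exact Subgroup.commutator_mono le_top le_top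
      rw [hK, ← MonoidHom.range_eq_map, Subgroup.range_subtype] at h3
      exact h3
    rw [eq_top_iff, ← h1]
    exact sup_le h2 le_sup_right

theorem two_gen (h : ¬ Cm G) : ∃ x y : G, x * y ≠ y * x := by
  unfold Cm at h
  push Not at h
  exact h

/-- the subgroup generated by two elements -/
def L2 (x y : G) : Subgroup G := Subgroup.closure {x, y}

theorem L2_fg (x y : G) : Group.FG (L2 x y) := by
  have : Finite ({x, y} : Set G) := Set.toFinite _
  exact Group.closure_finite_fg _

theorem L2_ncm {x y : G} (h : x * y ≠ y * x) : ¬ Cm (L2 x y) := by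
  intro hc
  have hx : x ∈ L2 x y := Subgroup.subset_closure (by simp)
  have hy : y ∈ L2 x y := Subgroup.subset_closure (by simp)
  exact h (congrArg Subtype.val (hc ⟨x, hx⟩ ⟨y, hy⟩))

/-- in a finitely generated nonabelian group of our kind, a finite set of commuting elements is
centralized by an element of infinite order modulo the derived subgroup -/
theorem exists_c (hL : HP G) (hLL : LocallyGraded G) (hfg : Group.FG G) (hLc : ¬ Cm G)
    (S : Finset G) (hS : ∀ a ∈ S, ∀ b ∈ S, a * b = b * a) :
    ∃ c ∈ Subgroup.centralizer (S : Set G), ∀ k : ℤ, c ^ k ∈ commutator G → k = 0 := by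
  have hsup := cent_sup hL S hS
  by_contra hcon
  push Not at hcon
  apply not_finite hL hLL hfg hLc
  have hfgA : Group.FG (Abelianization G) := QuotientGroup.fg (commutator G)
  apply CommGroup.finite_of_fg_isMulTorsion
  intro z
  obtain ⟨g, rfl⟩ := QuotientGroup.mk_surjective z
  have hg : g ∈ Subgroup.centralizer (S : Set G) ⊔ commutator G := by
    rw [hsup]
    exact Subgroup.mem_top g
  rw [Subgroup.mem_sup_of_normal_right] at hg
  obtain ⟨c, hc, d, hd, rfl⟩ := hg
  obtain ⟨k, hk, hk0⟩ := hcon c hc
  refine isOfFinOrder_iff_zpow_eq_one.2 ⟨k, hk0, ?_⟩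
  have e1 : (QuotientGroup.mk (c * d) : G ⧸ commutator G) = QuotientGroup.mk c := by
    rw [QuotientGroup.mk_mul, (QuotientGroup.eq_one_iff d).2 hd, mul_one]
  have e2 : (QuotientGroup.mk (c * d) : G ⧸ commutator G) ^ k = 1 := by
    rw [e1, ← QuotientGroup.mk_zpow]
    exact (QuotientGroup.eq_one_iff _).2 hk
  exact e2

end Pool.Agent.Helper21.Pctr
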