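import Pool.Agent.Helper21.PctrF

set_option autoImplicit false

/-!
# Pseudocentral groups (MP_b54334_al): the class and the theorem
-/

namespace Pool.Agent.Helper21.Pctr

universe u

variable {G : Type u} [Group G]

theorem fg_of_map {A B : Type u} [Group A] [Group B] (f : A →* B) (hf : Function.Injective f)
    (H : Subgroup A) (h : (H.map f).FG) : H.FG := by
  rw [← Group.fg_iff_subgroup_fg] at h ⊢
  exact Group.fg_of_surjective (f := (H.equivMapOfInjective f hf).symm.toMonoidHom)
    (MulEquiv.surjective _)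

theorem zpowers_inf_fg (B : Subgroup G) (t : G) : (Subgroup.zpowers t ⊓ B).FG := by
  have h1 : IsCyclic (B.subgroupOf (Subgroup.zpowers t)) := inferInstance
  obtain ⟨g, hg⟩ := h1.exists_generator
  have h2 : (B.subgroupOf (Subgroup.zpowers t)).FG := by
    rw [← Group.fg_iff_subgroup_fg, Group.fg_iff]
    refine ⟨{g}, ?_, Set.finite_singleton g⟩
    rw [← Subgroup.zpowers_eq_closure, eq_top_iff]
    intro x _
    exact hg x
  obtain ⟨S, hS⟩ := h2
  classical
  refine ⟨S.image (Subgroup.zpowers t).subtype, ?_⟩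
  rw [Finset.coe_image, ← MonoidHom.map_closure, hS, Subgroup.subgroupOf_map_subtype, inf_comm]

/-- cyclic extensions in restrained groups -/
theorem cyc (hR : Restrained G) (B : Subgroup G) (hB : B.Normal) (t : G)
    (hH : (Subgroup.zpowers t ⊔ B).FG) : B.FG := by
  classical
  obtain ⟨S, hS⟩ := hH
  have h1 : ∀ s ∈ S, ∃ m : ℤ, ∃ b ∈ B, s = t ^ m * b := by
    intro s hs
    have h2 : s ∈ Subgroup.zpowers t ⊔ B := by
      rw [← hS]
      exact Subgroup.subset_closure hs
    rw [Subgroup.mem_sup_of_normal_right] at h2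
    obtain ⟨_, ⟨m, rfl⟩, b, hb, rfl⟩ := h2
    exact ⟨m, b, hb, rfl⟩
  choose! m b hb hmb using h1
  set B₀ : Subgroup G := ⨆ s ∈ S, Subgroup.closure (Set.range fun k : ℤ => t ^ k * b s * (t ^ k)⁻¹)
    with hB₀
  have hfg : B₀.FG := Subgroup.FG.biSup_finset S _ fun s _ => hR (b s) t
  have hle : B₀ ≤ B := by
    rw [hB₀]
    refine iSup₂_le fun s hs => ?_
    rw [Subgroup.closure_le]
    rintro _ ⟨k, rfl⟩
    exact hB.conj_mem _ (hb s hs) _
  have hgen : ∀ s ∈ S, ∀ k : ℤ, t ^ k * b s * (t ^ k)⁻¹ ∈ B₀ := by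
    intro s hs k
    have : Subgroup.closure (Set.range fun k : ℤ => t ^ k * b s * (t ^ k)⁻¹) ≤ B₀ :=
      le_iSup₂_of_le s hs le_rfl
    exact this (Subgroup.subset_closure ⟨k, rfl⟩)
  have hconj : ∀ j : ℤ, ∀ c ∈ B₀, t ^ j * c * (t ^ j)⁻¹ ∈ B₀ := by
    intro j
    have h3 : B₀ ≤ B₀.comap (MulAut.conj (t ^ j)).toMonoidHom := by
      conv_lhs => rw [hB₀]
      refine iSup₂_le fun s hs => ?_
      rw [Subgroup.closure_le]
      rintro _ ⟨k, rfl⟩
      show t ^ j * (t ^ k * b s * (t ^ k)⁻¹) * (t ^ j)⁻¹ ∈ B₀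
      have h4 := hgen s hs (j + k)
      have h5 : t ^ (j + k) * b s * (t ^ (j + k))⁻¹ =
          t ^ j * (t ^ k * b s * (t ^ k)⁻¹) * (t ^ j)⁻¹ := by
        rw [zpow_add]
        group
      rwa [h5] at h4
    intro c hc
    exact h3 hc
  -- the subgroup of the products
  let W : Subgroup G :=
    { carrier := {w | ∃ k : ℤ, ∃ c ∈ B₀, w = t ^ k * c}
      mul_mem' := by
        rintro _ _ ⟨k, c, hc, rfl⟩ ⟨l, d, hd, rfl⟩
        refine ⟨k + l, (t ^ (-l) * c * (t ^ (-l))⁻¹) * d, B₀.mul_mem (hconj _ _ hc) hd, ?_⟩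
        rw [zpow_add]
        group
      one_mem' := ⟨0, 1, B₀.one_mem, by group⟩
      inv_mem' := by
        rintro _ ⟨k, c, hc, rfl⟩
        refine ⟨-k, t ^ k * c⁻¹ * (t ^ k)⁻¹, hconj _ _ (B₀.inv_mem hc), ?_⟩
        group }
  have hSW : Subgroup.closure (S : Set G) ≤ W := by
    rw [Subgroup.closure_le]
    intro s hs
    refine ⟨m s, b s, ?_, hmb s hs⟩
    have := hgen s hs 0
    simpa using this
  have hBe : B = (Subgroup.zpowers t ⊓ B) ⊔ B₀ := by
    apply le_antisymm
    · intro x hx
      have h6 : x ∈ W := hSW (by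
        rw [hS]
        exact Subgroup.mem_sup_right hx)
      obtain ⟨k, c, hc, rfl⟩ := h6
      apply Subgroup.mul_mem_sup _ hc
      refine ⟨⟨k, rfl⟩, ?_⟩
      have h7 := B.mul_mem hx (B.inv_mem (hle hc))
      rwa [mul_inv_cancel_right] at h7
    · exact sup_le inf_le_right hle
  rw [hBe]
  exact (zpowers_inf_fg B t).sup hfg

theorem Restrained.inj {A B : Type u} [Group A] [Group B] (f : A →* B) (hf : Function.Injective f)
    (h : Restrained B) : Restrained A := by
  intro x y
  apply fg_of_map f hf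
  rw [MonoidHom.map_closure, ← Set.range_comp]
  have h1 := h (f x) (f y)
  have : (f ∘ fun k : ℤ => y ^ k * x * (y ^ k)⁻¹) =
      fun k : ℤ => (f y) ^ k * (f x) * ((f y) ^ k)⁻¹ := by
    funext k
    simp
  rw [this]
  exact h1

/-- the derived subgroup of a two-generator restrained group is finitely generated -/
theorem restrained_fg (hR : Restrained G) (x y : G) : (commutator (L2 x y)).FG := by
  have hRL : Restrained (L2 x y) := hR.inj (L2 x y).subtype (L2 x y).subtype_injective
  set x' : L2 x y := ⟨x, Subgroup.subset_closure (by simp)⟩ with hx'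
  set y' : L2 x y := ⟨y, Subgroup.subset_closure (by simp)⟩ with hy'
  have htop : Subgroup.closure {x', y'} = (⊤ : Subgroup (L2 x y)) := by
    apply Subgroup.map_injective (L2 x y).subtype_injective
    rw [MonoidHom.map_closure, ← MonoidHom.range_eq_map, Subgroup.range_subtype, Set.image_pair]
    rfl
  set M : Subgroup (L2 x y) := Subgroup.zpowers y' ⊔ commutator (L2 x y) with hM
  have hMn : M.Normal := normal_of_le le_sup_right
  have hMtop : Subgroup.zpowers x' ⊔ M = ⊤ := by
    rw [eq_top_iff, ← htop, Subgroup.closure_le]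
    rintro z (rfl | rfl)
    · exact Subgroup.mem_sup_left (Subgroup.mem_zpowers _)
    · exact Subgroup.mem_sup_right (Subgroup.mem_sup_left (Subgroup.mem_zpowers _))
  have h1 : M.FG := cyc hRL M hMn x' (by
    rw [hMtop]
    exact Group.fg_def.1 (L2_fg x y))
  exact cyc hRL _ inferInstance y' h1

/-- `G` contains a nonabelian locally graded group all of whose subgroups are pseudocentral -/
def Bad (G : Type u) [Group G] : Prop :=
  ∃ (K : Type u) (_ : Group K) (f : K →* G), Function.Injective f ∧ MM K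

theorem Bad.of_inj {A B : Type u} [Group A] [Group B] (f : A →* B) (hf : Function.Injective f)
    (h : Bad A) : Bad B := by
  obtain ⟨K, _, g, hg, hK⟩ := h
  exact ⟨K, _, f.comp g, fun a b hab => hg (hf hab), hK⟩

theorem MM.l2 (h : MM G) : ∃ x y : G, x * y ≠ y * x ∧ MM (L2 x y) := by
  obtain ⟨x, y, hxy⟩ := two_gen h.nc
  exact ⟨x, y, hxy, h.hp.sub _, LG.sub h.lg _, L2_ncm hxy⟩

theorem MM.sub (h : MM G) (H : Subgroup G) (hH : ¬ Cm H) : MM H :=
  ⟨h.hp.sub H, LG.sub h.lg H, hH⟩

theorem MM.not_obs (h : MM G) : ¬ Obs G := by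
  rintro (⟨N, hN, hi, hc⟩ | ⟨hfg, hfin⟩)
  · have : Finite (G ⧸ N) := Subgroup.finite_quotient_of_finiteIndex
    apply hc
    have h1 := commutator_of_cm (fin_cm _ (G ⧸ N) rfl
      (h.hp.surj _ (QuotientGroup.mk'_surjective N)))
    intro x hx
    rw [← QuotientGroup.eq_one_iff]
    have h2 : QuotientGroup.mk' N x ∈ (commutator G).map (QuotientGroup.mk' N) := ⟨x, hx, rfl⟩
    rw [map_commutator_top _ (QuotientGroup.mk'_surjective N), h1] at h2
    exact h2
  · exact not_finite h.hp h.lg hfg h.nc hfin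

theorem MM.equiv {A B : Type u} [Group A] [Group B] (e : A ≃* B) (h : MM B) : MM A :=
  ⟨h.hp.inj e.toMonoidHom e.injective, LG.inj e.toMonoidHom e.injective h.lg, fun hc =>
    h.nc (hc.surj e.toMonoidHom e.surjective)⟩

theorem not_bad (h : Cls G) : ¬ Bad G := by
  induction h with
  | perfectGraded G hG =>
    rintro ⟨K, _, f, hf, hK⟩
    have hne : commutator K ≠ ⊥ := fun h0 => hK.nc (cm_of_commutator h0)
    obtain ⟨D, hD, hi⟩ := hG ((commutator K).map f)
      (by rw [← Subgroup.map_commutator, pc_perfect hK.hp.self])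
      (by
        intro h0
        apply hne
        exact (Subgroup.map_eq_bot_iff_of_injective _ hf).1 h0)
    have h1 := comm_top hK.hp.self
    refine not_perfect (hK.hp.sub (commutator K)) ((D.comap f).subgroupOf (commutator K)) ?_ ?_ h1
    · intro h2
      rw [Subgroup.subgroupOf_eq_top] at h2
      apply absurd (Subgroup.map_le_iff_le_comap.2 h2) (not_le_of_gt hD)
    · refine ⟨?_⟩
      rw [← Subgroup.relIndex, Subgroup.relIndex_comap]
      exact hi
  | noFreeAb G hG =>
    rintro ⟨K, _, f, hf, hK⟩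
    obtain ⟨g, hg⟩ := hK.free
    exact hG ⟨f.comp g, fun a b hab => hg (hf hab)⟩
  | restrained G hG =>
    rintro ⟨K, _, f, hf, hK⟩
    obtain ⟨x, y, -, hL⟩ := hK.l2
    exact hL.nc (cm_of_fg hL.hp hL.lg (restrained_fg (hG.inj f hf) x y))
  | fgDerived G hG =>
    rintro ⟨K, _, f, hf, hK⟩
    obtain ⟨x, y, -, hL⟩ := hK.l2
    apply hL.nc
    apply cm_of_fg hL.hp hL.lg
    apply fg_of_map (f.comp (L2 x y).subtype) (fun a b hab => Subtype.ext (hf hab))
    have h1 := hG (f x) (f y)
    rw [commutator_def, Subgroup.map_commutator, ← Subgroup.map_map, ← MonoidHom.range_eq_map,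
      Subgroup.range_subtype]
    have h2 : (L2 x y).map f = Subgroup.closure {f x, f y} := by
      rw [L2, MonoidHom.map_closure, Set.image_pair]
    rwa [h2]
  | inj G H f hf _ ih =>
    intro hb
    exact ih (hb.of_inj f hf)
  | ext G N _ _ ih1 ih2 =>
    rintro ⟨K, _, f, hf, hK⟩
    rcases hK.quot (N.comap f) with h1 | h1
    · apply ih1
      refine ⟨N.comap f, inferInstance, f.subgroupComap N, ?_, h1⟩
      intro a b hab
      exact Subtype.ext (hf (congrArg Subtype.val hab))
    · apply ih2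
      refine ⟨K ⧸ N.comap f, inferInstance,
        QuotientGroup.map (N.comap f) N f le_rfl, ?_, h1⟩
      rw [← MonoidHom.ker_eq_bot_iff, QuotientGroup.ker_map]
      exact QuotientGroup.map_mk'_self _
  | res G ι Q f h1 h2 _ ih =>
    rintro ⟨K, _, j, hj, hK⟩
    apply hK.nc
    have h3 : ∀ i, Cm (((f i).comp j).range) := by
      intro i
      by_contra hc
      apply ih i
      exact ⟨((f i).comp j).range, inferInstance, ((f i).comp j).range.subtype,
        Subgroup.subtype_injective _, hK.hp.surj _ (MonoidHom.rangeRestrict_surjective _),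
        LG.sub (h2 i) _, hc⟩
    intro a b
    apply hj
    have h4 : j (a * b * a⁻¹ * b⁻¹) = 1 := by
      apply h1
      intro i
      have h5 := congrArg Subtype.val (h3 i ⟨f i (j a), ⟨a, rfl⟩⟩ ⟨f i (j b), ⟨b, rfl⟩⟩)
      have h6 : f i (j a) * f i (j b) = f i (j b) * f i (j a) := h5
      rw [map_mul, map_mul, map_mul, map_mul, map_mul, map_mul, h6, map_inv, map_inv, map_inv,
        map_inv]
      group
    rw [map_mul, map_mul, map_mul, map_inv, map_inv] at h4
    rw [map_mul, map_mul]
    calc j a * j b = (j a * j b * (j a)⁻¹ * (j b)⁻¹) * (j b * j a) := by group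
      _ = j b * j a := by rw [h4, one_mul]
  | alt G R h1 _ ih =>
    rintro ⟨K, _, f, hf, hK⟩
    obtain ⟨x, y, hxy, -⟩ := hK.l2
    have hxy' : f x * f y ≠ f y * f x := by
      intro h0
      rw [← map_mul, ← map_mul] at h0
      exact hxy (hf h0)
    obtain ⟨h2, h3⟩ := h1 (f x) (f y) hxy'
    have h4 : R (f x) (f y) ≤ f.range := by
      refine h2.trans ?_
      rw [Subgroup.closure_le]
      rintro z (rfl | rfl)
      · exact ⟨x, rfl⟩
      · exact ⟨y, rfl⟩
    have hM : MM (R (f x) (f y)) := by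
      have hr : MM f.range := hK.equiv (MonoidHom.ofInjective hf).symm
      have hc : ¬ Cm ((R (f x) (f y)).subgroupOf f.range) := fun hc =>
        h3 (hc.inj (Subgroup.subgroupOfEquivOfLe h4).symm.toMonoidHom (MulEquiv.injective _))
      exact (hr.sub _ hc).equiv (Subgroup.subgroupOfEquivOfLe h4).symm
    exact ih (f x) (f y) hxy' hM.not_obs
      ⟨R (f x) (f y), inferInstance, MonoidHom.id _, fun a b hab => hab, hM⟩

/-- locally graded groups with all proper subgroups pseudocentral and nonabelian derived subgroup -/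
theorem exists_MM (hl : LocallyGraded G) (hp : ∀ H : Subgroup G, H ≠ ⊤ → Pseudocentral H)
    (h2 : ⁅commutator G, commutator G⁆ ≠ ⊥) : ∃ H : Subgroup G, MM H := by
  have hsub : ∀ H : Subgroup G, H ≠ ⊤ → HP H := by
    intro H hH K
    have h3 : K.map H.subtype ≠ ⊤ := by
      intro h4
      apply hH
      rw [eq_top_iff, ← h4]
      rintro _ ⟨x, _, rfl⟩
      exact x.2
    exact pc_of_surj (K.equivMapOfInjective H.subtype H.subtype_injective).symm.toMonoidHom
      (MulEquiv.surjective _) (hp _ h3)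
  have hMM : ∀ H : Subgroup G, H ≠ ⊤ → ¬ Cm H → ∃ H : Subgroup G, MM H := fun H hH hc =>
    ⟨H, hsub H hH, LG.sub hl H, hc⟩
  have hDc : ¬ Cm (commutator G) := by
    intro hc
    apply h2
    apply bracket_bot
    intro a ha b hb
    exact congrArg Subtype.val (hc ⟨a, ha⟩ ⟨b, hb⟩)
  by_cases hD : commutator G = ⊤
  · by_cases hfg : Group.FG G
    · exfalso
      obtain ⟨K, hK, hi⟩ := hl ⊤ (Group.fg_def.1 hfg) (by
        intro h0
        apply h2
        rw [eq_bot_iff]
        calc ⁅commutator G, commutator G⁆ ≤ ⊤ := le_top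
          _ = ⊥ := h0)
      rw [Subgroup.relIndex_top_right] at hi
      have hfi : K.FiniteIndex := ⟨hi⟩
      have : Finite (G ⧸ K.normalCore) := Subgroup.finite_quotient_of_finiteIndex
      have hcore : K.normalCore ≠ ⊤ := by
        intro h0
        exact hK.ne (top_le_iff.1 (h0 ▸ Subgroup.normalCore_le K))
      have hnt : Nontrivial (G ⧸ K.normalCore) := (QuotientGroup.nontrivial_iff).2 hcore
      apply mm _ (G ⧸ K.normalCore) rfl hnt
      · intro H hH
        have h3 := comap_ne_top _ (QuotientGroup.mk'_surjective K.normalCore) hH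
        have h4 : HP H := (hsub _ h3).surj ((QuotientGroup.mk' K.normalCore).subgroupComap H)
          (MonoidHom.subgroupComap_surjective_of_surjective _ H
            (QuotientGroup.mk'_surjective _))
        exact fin_cm _ H rfl h4
      · rw [← map_commutator_top _ (QuotientGroup.mk'_surjective K.normalCore), hD]
        exact Subgroup.map_top_of_surjective _ (QuotientGroup.mk'_surjective _)
    · have hc : ¬ Cm G := fun hc => hDc (hc.inj (commutator G).subtype
        (commutator G).subtype_injective)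
      obtain ⟨x, y, hxy⟩ := two_gen hc
      refine hMM (L2 x y) (fun h0 => hfg ?_) (L2_ncm hxy)
      rw [Group.fg_def, ← h0]
      exact (Group.fg_iff_subgroup_fg _).1 (L2_fg x y)
  · exact hMM _ hD hDc

theorem main (hC : Cls G) (hl : LocallyGraded G)
    (hp : ∀ H : Subgroup G, H ≠ ⊤ → Pseudocentral H) : ⁅commutator G, commutator G⁆ = ⊥ := by
  by_contra h2
  obtain ⟨H, hH⟩ := exists_MM hl hp h2
  exact not_bad hC ⟨H, inferInstance, H.subtype, H.subtype_injective, hH⟩

end Pool.Agent.Helper21.Pctr
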