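import Mathlib

set_option autoImplicit false

/-!
# Pseudocentral groups (MP_b54334_al): definitions
-/

namespace Pool.Agent.Helper21.Pctr

universe u

/-- The pseudocentre of `G`: the intersection over all `g` of the normal closures of the
centralizers of `g`. -/
def pseudocentre (G : Type u) [Group G] : Subgroup G :=
  ⨅ g : G, Subgroup.normalClosure (Subgroup.centralizer {g} : Set G)

/-- `G` is pseudocentral: `P(G) = G`. -/
def Pseudocentral (G : Type u) [Group G] : Prop := pseudocentre G = ⊤

/-- `G` is locally graded: every nontrivial finitely generated subgroup of `G` has a proper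
subgroup of finite index. -/
def LocallyGraded (G : Type u) [Group G] : Prop :=
  ∀ H : Subgroup G, H.FG → H ≠ ⊥ → ∃ K : Subgroup G, K < H ∧ K.relIndex H ≠ 0

/-- `G` is commutative. -/
def Cm (G : Type u) [Group G] : Prop := ∀ a b : G, a * b = b * a

/-- Every nontrivial perfect subgroup of `G` has a proper subgroup of finite index. -/
def PerfectGraded (G : Type u) [Group G] : Prop :=
  ∀ D : Subgroup G, ⁅D, D⁆ = D → D ≠ ⊥ → ∃ K : Subgroup G, K < D ∧ K.relIndex D ≠ 0

/-- `G` has a free abelian subgroup of infinite rank. -/
def HasFreeAb (G : Type u) [Group G] : Prop :=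
  ∃ f : Multiplicative (ℕ →₀ ℤ) →* G, Function.Injective f

/-- `G` is restrained: for all `x`, `y` the subgroup generated by the conjugates of `x` under the
powers of `y` is finitely generated. -/
def Restrained (G : Type u) [Group G] : Prop :=
  ∀ x y : G, (Subgroup.closure (Set.range fun k : ℤ => y ^ k * x * (y ^ k)⁻¹)).FG

/-- The derived subgroups of the subgroups of `G` which are generated by two elements are finitely
generated. -/
def FgDerived (G : Type u) [Group G] : Prop :=
  ∀ x y : G, (⁅Subgroup.closure {x, y}, Subgroup.closure {x, y}⁆ : Subgroup G).FG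

/-- `G` has a nonabelian finite quotient, or is finitely generated with finite abelianization. -/
def Obs (G : Type u) [Group G] : Prop :=
  (∃ N : Subgroup G, N.Normal ∧ N.FiniteIndex ∧ ¬ commutator G ≤ N) ∨
    (Group.FG G ∧ Finite (Abelianization G))

/-- The smallest class of groups with the following closure properties. -/
inductive Cls : (G : Type u) → [Group G] → Prop
  /-- groups whose nontrivial perfect subgroups have proper subgroups of finite index -/
  | perfectGraded (G : Type u) [Group G] : PerfectGraded G → Cls G
  /-- groups without free abelian subgroups of infinite rank -/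
  | noFreeAb (G : Type u) [Group G] : ¬ HasFreeAb G → Cls G
  /-- restrained groups -/
  | restrained (G : Type u) [Group G] : Restrained G → Cls G
  /-- groups in which the subgroups with two generators have finitely generated derived subgroups -/
  | fgDerived (G : Type u) [Group G] : FgDerived G → Cls G
  /-- subgroups -/
  | inj (G H : Type u) [Group G] [Group H] (f : H →* G) : Function.Injective f → Cls G → Cls H
  /-- extensions -/
  | ext (G : Type u) [Group G] (N : Subgroup G) [N.Normal] : Cls N → Cls (G ⧸ N) → Cls G
  /-- subgroups of products of locally graded members -/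
  | res (G : Type u) [Group G] (ι : Type u) (Q : ι → Type u) [∀ i, Group (Q i)]
      (f : ∀ i, G →* Q i) : (∀ g, (∀ i, f i g = 1) → g = 1) → (∀ i, LocallyGraded (Q i)) →
      (∀ i, Cls (Q i)) → Cls G
  /-- for all noncommuting `x`, `y` the subgroup generated by `x`, `y` contains a nonabelian subgroup
  `R x y` which is in the class, has a nonabelian finite quotient, or is finitely generated with
  finite abelianization -/
  | alt (G : Type u) [Group G] (R : G → G → Subgroup G) :
      (∀ x y, x * y ≠ y * x → R x y ≤ Subgroup.closure {x, y} ∧ ¬ Cm (R x y)) →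
      (∀ x y, x * y ≠ y * x → ¬ Obs (R x y) → Cls (R x y)) → Cls G

/-- `G` is locally indicable: every nontrivial finitely generated subgroup has an infinite cyclic
quotient. -/
def LocallyIndicable (G : Type u) [Group G] : Prop :=
  ∀ H : Subgroup G, H.FG → H ≠ ⊥ → ∃ f : H →* Multiplicative ℤ, Function.Surjective f

/-- The groups to which the problem is reduced. -/
structure Special (L : Type u) [Group L] : Prop where
  /-- `L` is generated by two elements -/
  two : ∃ x y : L, Subgroup.closure {x, y} = ⊤
  /-- `L` has trivial centre -/
  centre : Subgroup.center L = ⊥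
  /-- `L` is locally indicable -/
  indicable : LocallyIndicable L
  /-- every subgroup of `L` is pseudocentral -/
  pseudocentral : ∀ H : Subgroup L, Pseudocentral H
  /-- the subgroups of `L` which are in the class `Cls` are abelian -/
  cls : ∀ H : Subgroup L, Cls H → ∀ a ∈ H, ∀ b ∈ H, a * b = b * a
  /-- the derived subgroups `H'` are perfect, not finitely generated (if not trivial), and have no
  proper subgroup of finite index -/
  derived : ∀ H : Subgroup L, ⁅⁅H, H⁆, ⁅H, H⁆⁆ = ⁅H, H⁆ ∧ ((⁅H, H⁆ : Subgroup L).FG → ⁅H, H⁆ = ⊥) ∧
    ∀ K : Subgroup L, K < ⁅H, H⁆ → K.relIndex ⁅H, H⁆ = 0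
  /-- `H = C_H(S) H'` for finite sets `S` of commuting elements of `H` -/
  central : ∀ (H : Subgroup L) (S : Set L), S.Finite → S ⊆ H →
    (∀ a ∈ S, ∀ b ∈ S, a * b = b * a) → (Subgroup.centralizer S ⊓ H) ⊔ ⁅H, H⁆ = H

end Pool.Agent.Helper21.Pctr
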