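import Pool.Agent.Helper21.PctrQ

set_option autoImplicit false

/-!
# Pseudocentral groups (MP_b54334_al): free abelian subgroups of infinite rank
-/

namespace Pool.Agent.Helper21.Pctr

universe u

theorem free_of_comm (A : Type u) [AddCommGroup A] (a : ℕ → A) (B : ℕ → AddSubgroup A)
    (hB : ∀ n i, i < n → a i ∈ B n) (hk : ∀ n (k : ℤ), k • a n ∈ B n → k = 0) :
    ∃ f : (ℕ →₀ ℤ) →+ A, Function.Injective f := by
  classical
  refine ⟨Finsupp.liftAddHom fun n => (zmultiplesHom A) (a n), ?_⟩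
  rw [injective_iff_map_eq_zero]
  intro v hv
  rw [Finsupp.liftAddHom_apply, Finsupp.sum] at hv
  by_contra hne
  have hs : v.support.Nonempty := Finsupp.support_nonempty_iff.2 hne
  set n := v.support.max' hs with hn
  have hnm : n ∈ v.support := Finset.max'_mem _ hs
  rw [← Finset.add_sum_erase _ _ hnm] at hv
  have h1 : ∑ i ∈ v.support.erase n, (zmultiplesHom A) (a i) (v i) ∈ B n := by
    apply AddSubgroup.sum_mem
    intro i hi
    rw [zmultiplesHom_apply]
    apply AddSubgroup.zsmul_mem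
    apply hB
    rw [Finset.mem_erase] at hi
    exact lt_of_le_of_ne (Finset.le_max' _ _ hi.2) hi.1
  have h2 : v n • a n ∈ B n := by
    rw [zmultiplesHom_apply] at hv
    rw [eq_neg_of_add_eq_zero_left hv]
    exact AddSubgroup.neg_mem _ h1
  exact (Finsupp.mem_support_iff.1 hnm) (hk n _ h2)

variable {G : Type u} [Group G]

theorem free_of_seq (c : ℕ → G) (B : ℕ → Subgroup G)
    (hc : ∀ i j, c i * c j = c j * c i) (hB : ∀ n i, i < n → c i ∈ B n)
    (hk : ∀ n (k : ℤ), c n ^ k ∈ B n → k = 0) : HasFreeAb G := by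
  have hcomm : ∀ x ∈ Set.range c, ∀ y ∈ Set.range c, x * y = y * x := by
    rintro _ ⟨i, rfl⟩ _ ⟨j, rfl⟩
    exact hc i j
  have hA : IsMulCommutative (Subgroup.closure (Set.range c)) :=
    Subgroup.isMulCommutative_closure hcomm
  have hm : ∀ i, c i ∈ Subgroup.closure (Set.range c) := fun i => Subgroup.subset_closure ⟨i, rfl⟩
  generalize Subgroup.closure (Set.range c) = A at hA hm
  let _ : CommGroup A := { (inferInstance : Group A) with mul_comm := fun a b => mul_comm' a b }
  obtain ⟨f, hf⟩ := free_of_comm (Additive A) (fun n => Additive.ofMul ⟨c n, hm n⟩)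
    (fun n => Subgroup.toAddSubgroup ((B n).subgroupOf A)) (fun n i hi => hB n i hi)
    (fun n k hk' => hk n k (by
      have : ((⟨c n, hm n⟩ : A) ^ k) ∈ (B n).subgroupOf A := hk'
      exact this))
  exact ⟨A.subtype.comp (AddMonoidHom.toMultiplicativeLeft f), fun x y hxy =>
    hf (A.subtype_injective hxy)⟩

/-- an element of the derived subgroup is in the derived subgroup of a finitely generated
subgroup -/
theorem fg_cover {x : G} (hx : x ∈ commutator G) : ∃ M : Subgroup G, M.FG ∧ x ∈ ⁅M, M⁆ := by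
  rw [commutator_eq_closure] at hx
  induction hx using Subgroup.closure_induction with
  | mem y hy =>
    obtain ⟨p, q, rfl⟩ := hy
    refine ⟨L2 p q, (Group.fg_iff_subgroup_fg _).1 (L2_fg p q), ?_⟩
    exact Subgroup.commutator_mem_commutator (Subgroup.subset_closure (by simp))
      (Subgroup.subset_closure (by simp))
  | one => exact ⟨⊥, Subgroup.FG.bot, Subgroup.one_mem _⟩
  | mul y z _ _ h1 h2 =>
    obtain ⟨M, hM, hy⟩ := h1
    obtain ⟨N, hN, hz⟩ := h2
    exact ⟨M ⊔ N, hM.sup hN, Subgroup.mul_mem _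
      (Subgroup.commutator_mono le_sup_left le_sup_left hy)
      (Subgroup.commutator_mono le_sup_right le_sup_right hz)⟩
  | inv y _ h1 =>
    obtain ⟨M, hM, hy⟩ := h1
    exact ⟨M, hM, Subgroup.inv_mem _ hy⟩

/-- finitely generated subgroups of perfect groups -/
theorem fg_cover_sub (hp : commutator G = ⊤) (L : Subgroup G) (hL : L.FG) :
    ∃ M : Subgroup G, M.FG ∧ L ≤ ⁅M, M⁆ := by
  classical
  obtain ⟨S, rfl⟩ := hL
  have h1 : ∀ x : G, ∃ M : Subgroup G, M.FG ∧ x ∈ ⁅M, M⁆ := fun x =>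
    fg_cover (by
      rw [hp]
      exact Subgroup.mem_top x)
  choose M hM hx using h1
  refine ⟨⨆ x ∈ S, M x, Subgroup.FG.biSup_finset S _ fun x _ => hM x, ?_⟩
  rw [Subgroup.closure_le]
  intro x hxS
  have h2 : M x ≤ ⨆ x ∈ S, M x := le_iSup₂_of_le x hxS le_rfl
  exact Subgroup.commutator_mono h2 h2 (hx x)

/-- the states of the construction -/
structure St (G : Type u) [Group G] where
  L : Subgroup G
  S : Finset G
  c : G
  fg : L.FG
  nc : ¬ Cm L
  sub : ∀ x ∈ S, x ∈ L
  com : ∀ x ∈ S, ∀ y ∈ S, x * y = y * x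
  mem : c ∈ S
  ord : ∀ k : ℤ, c ^ k ∈ ⁅L, L⁆ → k = 0

/-- the relation of two consecutive states -/
def Nx (p q : St G) : Prop := p.L ≤ ⁅q.L, q.L⁆ ∧ p.S ⊆ q.S

theorem step (h : HP G) (hl : LocallyGraded G) (L : Subgroup G) (hLf : L.FG) (hLn : ¬ Cm L)
    (S : Finset G) (hS : ∀ x ∈ S, x ∈ L) (hSc : ∀ x ∈ S, ∀ y ∈ S, x * y = y * x) :
    ∃ c ∈ L, (∀ x ∈ S, c * x = x * c) ∧ ∀ k : ℤ, c ^ k ∈ ⁅L, L⁆ → k = 0 := by
  classical
  have hsub : ∀ x : {x // x ∈ S}, (x : G) ∈ L := fun x => hS x x.2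
  obtain ⟨c, hc, hk⟩ := exists_c (h.sub L) (LG.sub hl L) ((Group.fg_iff_subgroup_fg L).2 hLf) hLn
    (S.attach.image fun x : {x // x ∈ S} => (⟨(x : G), hsub x⟩ : L)) (by
      intro a ha b hb
      rw [Finset.mem_image] at ha hb
      obtain ⟨x, -, rfl⟩ := ha
      obtain ⟨y, -, rfl⟩ := hb
      exact Subtype.ext (hSc x x.2 y y.2))
  refine ⟨c, c.2, fun x hx => ?_, fun k hck => hk k ?_⟩
  · have := Subgroup.mem_centralizer_iff.1 hc ⟨x, hS x hx⟩ (by
      rw [Finset.mem_coe, Finset.mem_image]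
      exact ⟨⟨x, hx⟩, Finset.mem_attach _ _, rfl⟩)
    exact (congrArg Subtype.val this).symm
  · have h1 : (commutator L).map L.subtype = ⁅L, L⁆ := by
      rw [commutator_def L, Subgroup.map_commutator, ← MonoidHom.range_eq_map,
        Subgroup.range_subtype]
    rw [← h1] at hck
    obtain ⟨z, hz, he⟩ := hck
    have : z = c ^ k := Subtype.ext he
    rwa [← this]

theorem next (h : HP G) (hl : LocallyGraded G) (hp : commutator G = ⊤) (p : St G) :
    ∃ q : St G, Nx p q := by
  classical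
  obtain ⟨M, hM, hLM⟩ := fg_cover_sub hp p.L p.fg
  have hLM' : p.L ≤ M := hLM.trans (Subgroup.commutator_le_self M)
  have hMn : ¬ Cm M := fun hc => p.nc (hc.inj (Subgroup.inclusion hLM')
    (Subgroup.inclusion_injective hLM'))
  obtain ⟨c, hc, hcS, hk⟩ := step h hl M hM hMn p.S (fun x hx => hLM' (p.sub x hx)) p.com
  refine ⟨⟨M, insert c p.S, c, hM, hMn, ?_, ?_, Finset.mem_insert_self _ _, hk⟩, hLM,
    Finset.subset_insert _ _⟩
  · intro x hx
    rcases Finset.mem_insert.1 hx with rfl | hx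
    · exact hc
    · exact hLM' (p.sub x hx)
  · intro x hx y hy
    rcases Finset.mem_insert.1 hx with hx | hx <;> rcases Finset.mem_insert.1 hy with hy | hy
    · rw [hx, hy]
    · rw [hx]
      exact hcS y hy
    · rw [hy]
      exact (hcS x hx).symm
    · exact p.com x hx y hy

/-- perfect groups of our kind contain free abelian groups of infinite rank -/
theorem free_of_perfect (h : HP G) (hl : LocallyGraded G) (hp : commutator G = ⊤) (hn : ¬ Cm G) :
    HasFreeAb G := by
  classical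
  obtain ⟨x, y, hxy⟩ := two_gen hn
  have hLf : (L2 x y).FG := (Group.fg_iff_subgroup_fg _).1 (L2_fg x y)
  obtain ⟨c₀, hc₀, -, hk₀⟩ := step h hl (L2 x y) hLf (L2_ncm hxy) ∅ (by simp) (by simp)
  let p₀ : St G := ⟨L2 x y, {c₀}, c₀, hLf, L2_ncm hxy, by simpa using hc₀, by simp, by simp, hk₀⟩
  choose nx hnx using next h hl hp
  let s : ℕ → St G := fun n => nx^[n] p₀
  have hs : ∀ n, Nx (s n) (s (n + 1)) := by
    intro n
    have : s (n + 1) = nx (s n) := Function.iterate_succ_apply' nx n p₀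
    rw [this]
    exact hnx _
  have hmono : ∀ i j, i ≤ j → (s i).S ⊆ (s j).S := by
    intro i j hij
    induction hij with
    | refl => exact subset_rfl
    | step _ ih => exact ih.trans (hs _).2
  have hLmono : ∀ i j, i ≤ j → (s i).L ≤ (s j).L := by
    intro i j hij
    induction hij with
    | refl => exact le_rfl
    | step _ ih => exact ih.trans ((hs _).1.trans (Subgroup.commutator_le_self _))
  have hmem : ∀ i j, i ≤ j → (s i).c ∈ (s j).S := fun i j hij => hmono i j hij (s i).mem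
  refine free_of_seq (fun n => (s n).c) (fun n => ⁅(s n).L, (s n).L⁆) ?_ ?_
    (fun n k hk => (s n).ord k hk)
  · intro i j
    rcases le_total i j with hij | hij
    · exact (s j).com _ (hmem i j hij) _ (hmem j j le_rfl)
    · exact (s i).com _ (hmem i i le_rfl) _ (hmem j i hij)
  · intro n i hi
    obtain ⟨m, rfl⟩ : ∃ m, n = m + 1 := ⟨n - 1, by omega⟩
    have h1 : (s i).c ∈ (s i).L := (s i).sub _ (s i).mem
    exact (hs m).1 (hLmono i m (by omega) h1)

/-- nonabelian groups of our kind contain free abelian groups of infinite rank -/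
theorem MM.free (h : MM G) : HasFreeAb G := by
  have h1 : ¬ Cm (commutator G) := fun hc => h.nc (pc_cm h.hp.self hc)
  obtain ⟨f, hf⟩ := free_of_perfect (h.hp.sub (commutator G)) (LG.sub h.lg _)
    (comm_top h.hp.self) h1
  exact ⟨(commutator G).subtype.comp f, fun x y hxy => hf ((commutator G).subtype_injective hxy)⟩

end Pool.Agent.Helper21.Pctr
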