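import Pool.Agent.Helper21.Pctr

set_option autoImplicit false

/-!
# Pseudocentral groups (MP_b54334_al): quotients
-/

namespace Pool.Agent.Helper21.Pctr

universe u

variable {G : Type u} [Group G]

/-- a nonabelian locally graded group with all subgroups pseudocentral -/
structure MM (G : Type u) [Group G] : Prop where
  hp : HP G
  lg : LocallyGraded G
  nc : ¬ Cm G

/-- there is a proper subgroup of finite index -/
def FI (G : Type u) [Group G] : Prop := ∃ K : Subgroup G, K ≠ ⊤ ∧ K.FiniteIndex

theorem lg_mk (h : ∀ H : Subgroup G, H.FG → H ≠ ⊥ → FI H) : LocallyGraded G := by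
  intro H hH hb
  obtain ⟨K, hK, hi⟩ := h H hH hb
  have e : (K.map H.subtype).subgroupOf H = K :=
    Subgroup.comap_map_eq_self_of_injective H.subtype_injective K
  have hle : K.map H.subtype ≤ H := by
    rintro _ ⟨x, _, rfl⟩
    exact x.2
  refine ⟨K.map H.subtype, lt_of_le_of_ne hle fun h1 => hK ?_, ?_⟩
  · rw [← e, h1, Subgroup.subgroupOf_self]
  · rw [Subgroup.relIndex, e]
    exact hi.index_ne_zero

theorem comap_ne_top {A : Type*} {B : Type*} [Group A] [Group B] (f : A →* B) (hf : Function.Surjective f)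
    {K : Subgroup B} (hK : K ≠ ⊤) : K.comap f ≠ ⊤ := by
  intro h
  apply hK
  rw [eq_top_iff]
  intro b _
  obtain ⟨a, rfl⟩ := hf b
  have : a ∈ K.comap f := by
    rw [h]
    exact Subgroup.mem_top a
  exact this

theorem FI.surj {A : Type*} {B : Type*} [Group A] [Group B] (f : A →* B) (hf : Function.Surjective f)
    (h : FI B) : FI A := by
  obtain ⟨K, hK, hi⟩ := h
  refine ⟨K.comap f, comap_ne_top f hf hK, ⟨?_⟩⟩
  rw [Subgroup.index_comap_of_surjective K hf]
  exact hi.index_ne_zero

/-- a nontrivial finitely generated abelian group has a proper subgroup of finite index -/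
theorem fi_comm (B : Type u) [CommGroup B] (hfg : Group.FG B) (hn : Nontrivial B) : FI B := by
  have h0 : Module.Finite ℤ (Additive B) := Module.Finite.iff_addGroup_fg.2 inferInstance
  have h1 : IsCoatomic (Submodule ℤ (Additive B)) := inferInstance
  have h2 : IsCoatomic (Subgroup B) :=
    ((Subgroup.toAddSubgroup (G := B)).trans
      (AddSubgroup.toIntSubmodule (M := Additive B))).isCoatomic_iff.2 h1
  obtain ⟨K, hK, -⟩ := (eq_top_or_exists_le_coatom (⊥ : Subgroup B)).resolve_left bot_ne_top
  have hnt : Nontrivial (B ⧸ K) := (QuotientGroup.nontrivial_iff).2 hK.1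
  have hs : IsSimpleGroup (B ⧸ K) := by
    refine ⟨fun N _ => ?_⟩
    have hle : K ≤ N.comap (QuotientGroup.mk' K) := by
      intro x hx
      have h3 : (QuotientGroup.mk' K) x = 1 := (QuotientGroup.eq_one_iff x).2 hx
      rw [Subgroup.mem_comap, h3]
      exact Subgroup.one_mem _
    rcases hle.eq_or_lt with h3 | h3
    · left
      rw [eq_bot_iff]
      intro y hy
      obtain ⟨x, rfl⟩ := QuotientGroup.mk'_surjective K y
      have : x ∈ N.comap (QuotientGroup.mk' K) := hy
      rw [← h3] at this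
      exact (QuotientGroup.eq_one_iff x).2 this
    · right
      by_contra h4
      exact comap_ne_top _ (QuotientGroup.mk'_surjective K) h4 (hK.2 _ h3)
  have hp := CommGroup.is_simple_iff_prime_card.1 hs
  refine ⟨K, hK.1, ⟨?_⟩⟩
  rw [Subgroup.index]
  exact hp.ne_zero

/-- a finitely generated group which is not perfect has a proper subgroup of finite index -/
theorem fi_of_np (h : Group.FG G) (hc : commutator G ≠ ⊤) : FI G := by
  have h1 : Group.FG (Abelianization G) := QuotientGroup.fg (commutator G)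
  have h2 : Nontrivial (Abelianization G) := (QuotientGroup.nontrivial_iff).2 hc
  exact (fi_comm (Abelianization G) h1 h2).surj (QuotientGroup.mk' (commutator G))
    (QuotientGroup.mk'_surjective _)

/-- an abelian normal subgroup is central -/
theorem central (h : HP G) (N : Subgroup G) [N.Normal] (hN : Cm N) (x n : G) (hn : n ∈ N) :
    x * n = n * x := by
  have key : ∀ p ∈ N ⊔ Subgroup.zpowers x, ∃ k : ℤ, QuotientGroup.mk' N p =
      (QuotientGroup.mk' N x) ^ k := by
    intro p hp
    rw [Subgroup.mem_sup_of_normal_left] at hp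
    obtain ⟨m, hm, z, ⟨k, hk⟩, rfl⟩ := hp
    refine ⟨k, ?_⟩
    have e1 : QuotientGroup.mk' N m = 1 := (QuotientGroup.eq_one_iff m).2 hm
    rw [map_mul, e1, one_mul, ← hk]
    exact map_zpow _ x k
  have hPC : Pseudocentral (N ⊔ Subgroup.zpowers x : Subgroup G) := h _
  have hle : ∀ p : (N ⊔ Subgroup.zpowers x : Subgroup G),
      p ∈ commutator (N ⊔ Subgroup.zpowers x : Subgroup G) → (p : G) ∈ N := by
    have : commutator (N ⊔ Subgroup.zpowers x : Subgroup G) ≤
        N.subgroupOf (N ⊔ Subgroup.zpowers x) := by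
      rw [commutator_def, Subgroup.commutator_le]
      intro p _ q _
      rw [Subgroup.mem_subgroupOf]
      show (p : G) * q * (p : G)⁻¹ * (q : G)⁻¹ ∈ N
      rw [← quot_comm]
      obtain ⟨k, hk⟩ := key p p.2
      obtain ⟨l, hl⟩ := key q q.2
      rw [hk, hl, ← zpow_add, ← zpow_add, add_comm]
    intro p hp
    exact this hp
  have hC : Cm (commutator (N ⊔ Subgroup.zpowers x : Subgroup G)) := by
    intro a b
    apply Subtype.ext
    apply Subtype.ext
    have e := hN ⟨_, hle _ a.2⟩ ⟨_, hle _ b.2⟩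
    exact congrArg (fun z : N => (z : G)) e
  have h1 := pc_cm hPC hC
  exact congrArg Subtype.val (h1 ⟨x, Subgroup.mem_sup_right (Subgroup.mem_zpowers x)⟩
    ⟨n, Subgroup.mem_sup_left hn⟩)

theorem comm_top (h : Pseudocentral G) : commutator (commutator G) = ⊤ := by
  have h2 := pc_perfect h
  apply Subgroup.map_injective (commutator G).subtype_injective
  rw [commutator_def (commutator G), Subgroup.map_commutator]
  rw [← MonoidHom.range_eq_map, Subgroup.range_subtype, h2]

/-- a perfect finitely generated subgroup is trivial -/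
theorem perf_bot (h : HP G) (hl : LocallyGraded G) (T : Subgroup G) (hT : T.FG) (hp : T ≤ ⁅T, T⁆) :
    T = ⊥ := by
  by_contra hb
  have hn : Nontrivial T := (Subgroup.nontrivial_iff_ne_bot T).2 hb
  have h1 := not_perfect_fg (h.sub T) (LG.sub hl T) ((Group.fg_iff_subgroup_fg T).2 hT) hn
  apply h1
  apply Subgroup.map_injective T.subtype_injective
  rw [commutator_def T, Subgroup.map_commutator, ← MonoidHom.range_eq_map, Subgroup.range_subtype]
  exact le_antisymm (Subgroup.commutator_le_self T) hp

/-- the quotient by an abelian normal subgroup is again locally graded -/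
theorem lg_quot (h : HP G) (hl : LocallyGraded G) (N : Subgroup G) [N.Normal] (hN : Cm N) :
    LocallyGraded (G ⧸ N) := by
  classical
  apply lg_mk
  intro M hM hb
  by_contra hFI
  have hMg : Group.FG M := (Group.fg_iff_subgroup_fg M).2 hM
  have hper : commutator M = ⊤ := by
    by_contra hc
    exact hFI (fi_of_np hMg hc)
  have hMM : ⁅M, M⁆ = M := by
    have := congrArg (Subgroup.map M.subtype) hper
    rwa [commutator_def M, Subgroup.map_commutator, ← MonoidHom.range_eq_map,
      Subgroup.range_subtype] at this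
  obtain ⟨S, hS⟩ := hM
  have hlift : ∀ y : G ⧸ N, ∃ x : G, QuotientGroup.mk' N x = y := QuotientGroup.mk'_surjective N
  choose l hl2 using hlift
  set K : Subgroup G := Subgroup.closure ((S.image l : Finset G) : Set G) with hK
  have hKM : K.map (QuotientGroup.mk' N) = M := by
    rw [hK, MonoidHom.map_closure, ← hS]
    congr 1
    rw [Finset.coe_image, ← Set.image_comp]
    have : (QuotientGroup.mk' N) ∘ l = id := funext hl2
    rw [this, Set.image_id]
  have hKc : ∀ k ∈ K, ∃ c ∈ ⁅K, K⁆, ∃ n ∈ N, k = c * n := by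
    intro k hk
    have h1 : QuotientGroup.mk' N k ∈ (⁅K, K⁆ : Subgroup G).map (QuotientGroup.mk' N) := by
      rw [Subgroup.map_commutator, hKM, hMM, ← hKM]
      exact ⟨k, hk, rfl⟩
    obtain ⟨c, hc, hce⟩ := h1
    refine ⟨c, hc, c⁻¹ * k, ?_, by group⟩
    rw [← QuotientGroup.eq_one_iff]
    have h2 : QuotientGroup.mk' N (c⁻¹ * k) = 1 := by
      rw [map_mul, map_inv, hce, inv_mul_cancel]
    exact h2
  choose! cf hcf nf hnf hcn using hKc
  set T : Subgroup G := Subgroup.closure (((S.image l).image cf : Finset G) : Set G) with hT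
  have hTfg : T.FG := ⟨(S.image l).image cf, rfl⟩
  have hSK : ∀ x ∈ S.image l, x ∈ K := fun x hx => Subgroup.subset_closure hx
  have hTK : T ≤ ⁅K, K⁆ := by
    rw [hT, Subgroup.closure_le]
    intro y hy
    rw [Finset.mem_coe, Finset.mem_image] at hy
    obtain ⟨x, hx, rfl⟩ := hy
    exact hcf x (hSK x hx)
  have hKT : K ≤ T ⊔ N := by
    rw [hK, Subgroup.closure_le]
    intro x hx
    rw [Finset.mem_coe] at hx
    rw [SetLike.mem_coe, hcn x (hSK x hx)]
    apply Subgroup.mul_mem_sup
    · exact Subgroup.subset_closure (Finset.mem_coe.2 (Finset.mem_image_of_mem cf hx))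
    · exact hnf x (hSK x hx)
  have hcom : ⁅K, K⁆ ≤ ⁅T, T⁆ := by
    rw [Subgroup.commutator_le]
    intro p hp q hq
    have hp' := hKT hp
    have hq' := hKT hq
    rw [Subgroup.mem_sup_of_normal_right] at hp' hq'
    obtain ⟨t, ht, n, hn, rfl⟩ := hp'
    obtain ⟨s, hs, m, hm, rfl⟩ := hq'
    have c1 : ∀ x : G, x * n = n * x := fun x => central h N hN x n hn
    have c2 : ∀ x : G, x * m = m * x := fun x => central h N hN x m hm
    have e : t * n * (s * m) * (t * n)⁻¹ * (s * m)⁻¹ = t * s * t⁻¹ * s⁻¹ := by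
      calc t * n * (s * m) * (t * n)⁻¹ * (s * m)⁻¹
          = t * n * (s * m) * (n⁻¹ * t⁻¹) * (m⁻¹ * s⁻¹) := by group
        _ = t * (n * s) * (m * n⁻¹) * t⁻¹ * (m⁻¹ * s⁻¹) := by group
        _ = t * (s * n) * (n⁻¹ * m) * t⁻¹ * (m⁻¹ * s⁻¹) := by
            rw [← c1 s, ← c2 n⁻¹]
        _ = t * s * (m * t⁻¹) * (m⁻¹ * s⁻¹) := by group
        _ = t * s * (t⁻¹ * m) * (m⁻¹ * s⁻¹) := by rw [← c2 t⁻¹]
        _ = t * s * t⁻¹ * s⁻¹ := by group
    show t * n * (s * m) * (t * n)⁻¹ * (s * m)⁻¹ ∈ _
    rw [e]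
    exact Subgroup.commutator_mem_commutator ht hs
  have hTb : T = ⊥ := perf_bot h hl T hTfg (hTK.trans hcom)
  apply hb
  rw [← hKM, eq_bot_iff]
  rw [Subgroup.map_le_iff_le_comap]
  intro x hx
  have h3 := hKT hx
  rw [hTb, bot_sup_eq] at h3
  rw [Subgroup.mem_comap, Subgroup.mem_bot]
  exact (QuotientGroup.eq_one_iff x).2 h3

/-- normal subgroups: nonabelian, or the quotient is again of our kind -/
theorem MM.quot (h : MM G) (N : Subgroup G) [N.Normal] : MM N ∨ MM (G ⧸ N) := by
  by_cases hN : Cm N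
  · right
    refine ⟨h.hp.surj _ (QuotientGroup.mk'_surjective N), lg_quot h.hp h.lg N hN, fun hc => ?_⟩
    apply h.nc
    apply pc_cm h.hp.self
    have hle : commutator G ≤ N := by
      rw [commutator_def, Subgroup.commutator_le]
      intro p _ q _
      show p * q * p⁻¹ * q⁻¹ ∈ N
      rw [← quot_comm]
      exact hc _ _
    exact hN.inj (Subgroup.inclusion hle) (Subgroup.inclusion_injective hle)
  · left
    exact ⟨h.hp.sub N, LG.sub h.lg N, hN⟩

end Pool.Agent.Helper21.Pctr
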