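import Pool.Agent.Helper21.PctrT

set_option autoImplicit false

/-!
# Pseudocentral groups (MP_b54334_al): the reduction
-/

namespace Pool.Agent.Helper21.Pctr

universe u

variable {G : Type u} [Group G]

theorem map_comm_sub (H : Subgroup G) : (commutator H).map H.subtype = ⁅H, H⁆ := by
  rw [commutator_def H, Subgroup.map_commutator, ← MonoidHom.range_eq_map,
    Subgroup.range_subtype]

theorem perf_sub (h : HP G) (H : Subgroup G) : ⁅⁅H, H⁆, ⁅H, H⁆⁆ = ⁅H, H⁆ := by
  have h1 := pc_perfect (h H)
  have h2 := congrArg (Subgroup.map H.subtype) h1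
  rwa [Subgroup.map_commutator, map_comm_sub] at h2

theorem fg_sub (h : HP G) (hl : LocallyGraded G) (H : Subgroup G) (hf : (⁅H, H⁆ : Subgroup G).FG) :
    ⁅H, H⁆ = ⊥ :=
  perf_bot h hl _ hf (perf_sub h H).ge

theorem fin_sub (h : HP G) (H K : Subgroup G) (hK : K < ⁅H, H⁆) : K.relIndex ⁅H, H⁆ = 0 := by
  by_contra h0
  refine not_perfect (h.sub ⁅H, H⁆) (K.subgroupOf ⁅H, H⁆) ?_ ⟨h0⟩ ?_
  · intro h1
    rw [Subgroup.subgroupOf_eq_top] at h1
    exact absurd h1 (not_le_of_gt hK)
  · apply Subgroup.map_injective (Subgroup.subtype_injective _)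
    rw [map_comm_sub, perf_sub h H, ← MonoidHom.range_eq_map, Subgroup.range_subtype]

theorem cent_sub (h : HP G) (H : Subgroup G) (S : Set G) (hS : S.Finite) (hSH : S ⊆ H)
    (hc : ∀ a ∈ S, ∀ b ∈ S, a * b = b * a) :
    (Subgroup.centralizer S ⊓ H) ⊔ ⁅H, H⁆ = H := by
  classical
  apply le_antisymm (sup_le inf_le_right (Subgroup.commutator_le_self H))
  have hfin : (H.subtype ⁻¹' S).Finite := hS.preimage (H.subtype_injective.injOn)
  have h1 := cent_sup (h.sub H) hfin.toFinset (by
    intro a ha b hb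
    rw [Set.Finite.mem_toFinset] at ha hb
    exact Subtype.ext (hc a ha b hb))
  have h2 := congrArg (Subgroup.map H.subtype) h1
  rw [Subgroup.map_sup, map_comm_sub, ← MonoidHom.range_eq_map, Subgroup.range_subtype] at h2
  conv_lhs => rw [← h2]
  apply sup_le_sup_right
  rintro _ ⟨x, hx, rfl⟩
  refine Subgroup.mem_inf.2 ⟨Subgroup.mem_centralizer_iff.2 fun y hy => ?_, x.2⟩
  have h3 := Subgroup.mem_centralizer_iff.1 hx ⟨y, hSH hy⟩ (by
    rw [Set.Finite.coe_toFinset]
    exact hy)
  exact congrArg Subtype.val h3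

theorem Special.of_MM (h : MM G) (h2 : ∃ x y : G, Subgroup.closure {x, y} = ⊤)
    (hZ : Subgroup.center G = ⊥) : Special G where
  two := h2
  centre := hZ
  indicable := h.indicable hZ
  pseudocentral := h.hp
  cls := by
    intro H hH
    by_contra hc
    apply not_bad hH
    refine ⟨H, inferInstance, MonoidHom.id _, fun a b hab => hab, h.sub H fun hC => hc ?_⟩
    intro a ha b hb
    exact congrArg Subtype.val (hC ⟨a, ha⟩ ⟨b, hb⟩)
  derived := fun H => ⟨perf_sub h.hp H, fg_sub h.hp h.lg H, fin_sub h.hp H⟩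
  central := cent_sub h.hp

theorem reduction : (∀ (G : Type u) [Group G], LocallyGraded G →
      (∀ H : Subgroup G, H ≠ ⊤ → Pseudocentral H) → ⁅commutator G, commutator G⁆ = ⊥) ↔
    ∀ (L : Type u) [Group L], Special L → Subsingleton L := by
  constructor
  · intro hQ L _ hL
    have h1 := hQ L hL.indicable.lg fun H _ => hL.pseudocentral H
    have hHP : HP L := hL.pseudocentral
    rw [pc_perfect hHP.self] at h1
    have h2 : Subgroup.center L = ⊤ := by
      rw [eq_top_iff]
      intro x _
      rw [Subgroup.mem_center_iff]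
      intro g
      exact cm_of_commutator h1 g x
    rw [hL.centre] at h2
    exact (Subgroup.subsingleton_iff).1 (subsingleton_of_bot_eq_top h2)
  · intro hS G _ hl hp
    by_contra h2
    obtain ⟨H, hH⟩ := exists_MM hl hp h2
    obtain ⟨x, y, -, hL⟩ := hH.l2
    obtain ⟨hM, hZ⟩ := hL.quot_center
    have htwo : ∃ p q : (L2 x y) ⧸ Subgroup.center (L2 x y), Subgroup.closure {p, q} = ⊤ := by
      set π := QuotientGroup.mk' (Subgroup.center (L2 x y)) with hπ
      have hle : Subgroup.closure {(⟨x, Subgroup.subset_closure (by simp)⟩ : L2 x y),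
          ⟨y, Subgroup.subset_closure (by simp)⟩} = ⊤ := by
        apply Subgroup.map_injective (L2 x y).subtype_injective
        rw [MonoidHom.map_closure, ← MonoidHom.range_eq_map, Subgroup.range_subtype,
          Set.image_pair]
        rfl
      refine ⟨π ⟨x, Subgroup.subset_closure (by simp)⟩, π ⟨y, Subgroup.subset_closure (by simp)⟩,
        ?_⟩
      rw [← Set.image_pair, ← MonoidHom.map_closure, hle]
      exact Subgroup.map_top_of_surjective _ (QuotientGroup.mk'_surjective _)
    have := hS _ (Special.of_MM hM htwo hZ)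
    exact hM.nc fun a b => Subsingleton.elim _ _

end Pool.Agent.Helper21.Pctr
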