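import Pool.Agent.Helper21.PctrC

set_option autoImplicit false

/-!
# Pseudocentral groups (MP_b54334_al): torsion, centres, local indicability
-/

namespace Pool.Agent.Helper21.Pctr

universe u

variable {G : Type u} [Group G]

/-- torsion elements commute -/
theorem MM.tors_comm (h : MM G) {a b : G} (ha : IsOfFinOrder a) (hb : IsOfFinOrder b) :
    a * b = b * a := by
  by_contra hab
  have hL : MM (L2 a b) := h.sub _ (L2_ncm hab)
  apply not_finite hL.hp hL.lg (L2_fg a b) hL.nc
  have hfg : Group.FG (Abelianization (L2 a b)) := by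
    have := L2_fg a b
    exact QuotientGroup.fg (commutator (L2 a b))
  apply CommGroup.finite_of_fg_isMulTorsion
  set T := (CommGroup.torsion (Abelianization (L2 a b))).comap Abelianization.of with hT
  have hmem : ∀ g : G, IsOfFinOrder g → ∀ hg : g ∈ L2 a b, (⟨g, hg⟩ : L2 a b) ∈ T := by
    intro g hg hgm
    rw [hT, Subgroup.mem_comap]
    have h1 : IsOfFinOrder (⟨g, hgm⟩ : L2 a b) := Submonoid.isOfFinOrder_coe.1 hg
    exact Abelianization.of.isOfFinOrder h1
  have htop : T = ⊤ := by
    rw [eq_top_iff]
    have hle : (⊤ : Subgroup (L2 a b)) = Subgroup.closure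
        {⟨a, Subgroup.subset_closure (by simp)⟩, ⟨b, Subgroup.subset_closure (by simp)⟩} := by
      apply Subgroup.map_injective (L2 a b).subtype_injective
      rw [MonoidHom.map_closure, ← MonoidHom.range_eq_map, Subgroup.range_subtype, Set.image_pair]
      rfl
    rw [hle, Subgroup.closure_le]
    rintro z (rfl | rfl)
    · exact hmem a ha _
    · exact hmem b hb _
  intro z
  obtain ⟨g, rfl⟩ := QuotientGroup.mk_surjective z
  have : g ∈ T := by
    rw [htop]
    exact Subgroup.mem_top g
  exact this

/-- torsion elements are central -/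
theorem MM.tors_central (h : MM G) {a : G} (ha : IsOfFinOrder a) : a ∈ Subgroup.center G := by
  let T : Subgroup G :=
    { carrier := {g | IsOfFinOrder g}
      mul_mem' := fun {x y} hx hy => by
        have hc : Commute x y := h.tors_comm hx hy
        exact hc.isOfFinOrder_mul hx hy
      one_mem' := IsOfFinOrder.one
      inv_mem' := fun {x} hx => by
        have : IsOfFinOrder x := hx
        exact isOfFinOrder_inv_iff.2 this }
  have hTn : T.Normal := by
    constructor
    intro n hn g
    have hn' : IsOfFinOrder n := hn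
    have := (MulAut.conj g).toMonoidHom.isOfFinOrder hn'
    exact this
  have hTc : Cm T := fun x y => Subtype.ext (h.tors_comm x.2 y.2)
  rw [Subgroup.mem_center_iff]
  intro g
  exact central h.hp T hTc g a ha

/-- the quotient by the centre -/
theorem MM.quot_center (h : MM G) :
    MM (G ⧸ Subgroup.center G) ∧ Subgroup.center (G ⧸ Subgroup.center G) = ⊥ := by
  have hZc : Cm (Subgroup.center G) := fun x y =>
    Subtype.ext ((Subgroup.mem_center_iff.1 y.2 x))
  refine ⟨(h.quot (Subgroup.center G)).resolve_left fun h1 => h1.nc hZc, ?_⟩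
  set Z := Subgroup.center G with hZ
  set Z₂ : Subgroup G := (Subgroup.center (G ⧸ Z)).comap (QuotientGroup.mk' Z) with hZ₂
  have hZ₂n : Z₂.Normal := inferInstance
  have hcm : ∀ p ∈ Z₂, ∀ g : G, p * g * p⁻¹ * g⁻¹ ∈ Z := by
    intro p hp g
    rw [← quot_comm]
    exact (Subgroup.mem_center_iff.1 hp (QuotientGroup.mk' Z g)).symm
  have hC : Cm (commutator Z₂) := by
    have hle : commutator Z₂ ≤ Z.subgroupOf Z₂ := by
      rw [commutator_def, Subgroup.commutator_le]
      intro p _ q _
      exact hcm p p.2 q
    intro x y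
    apply Subtype.ext
    apply Subtype.ext
    have h1 : ((y : Z₂) : G) ∈ Z := hle y.2
    exact Subgroup.mem_center_iff.1 h1 _
  have hCZ : Cm Z₂ := pc_cm (h.hp Z₂) hC
  rw [eq_bot_iff]
  intro y hy
  obtain ⟨g, rfl⟩ := QuotientGroup.mk'_surjective Z y
  have hg : g ∈ Z₂ := hy
  have hgZ : g ∈ Z := by
    rw [hZ, Subgroup.mem_center_iff]
    intro x
    exact central h.hp Z₂ hCZ x g hg
  exact (QuotientGroup.eq_one_iff g).2 hgZ

/-- infinite finitely generated abelian groups have an infinite cyclic quotient -/
theorem surj_int (A : Type u) [CommGroup A] (hf : Group.FG A) (hi : ¬ Finite A) :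
    ∃ f : A →* Multiplicative ℤ, Function.Surjective f := by
  obtain ⟨ι, j, _, _, p, hp, e, ⟨φ⟩⟩ := CommGroup.equiv_free_prod_prod_multiplicative_zmod A
  rcases isEmpty_or_nonempty j with hj | ⟨⟨j₀⟩⟩
  · exfalso
    apply hi
    have : ∀ i, NeZero (p i ^ e i) := fun i => ⟨pow_ne_zero _ (hp i).ne_zero⟩
    exact Finite.of_equiv _ φ.toEquiv.symm
  · refine ⟨((Pi.evalMonoidHom (fun _ : j => Multiplicative ℤ) j₀).comp
      (MonoidHom.fst _ _)).comp φ.toMonoidHom, ?_⟩
    intro z
    obtain ⟨a, ha⟩ := φ.surjective (fun _ => z, 1)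
    refine ⟨a, ?_⟩
    show (φ a).1 j₀ = z
    rw [ha]

/-- centreless groups of our kind are locally indicable -/
theorem MM.indicable (h : MM G) (hZ : Subgroup.center G = ⊥) : LocallyIndicable G := by
  intro H hH hb
  have hHg : Group.FG H := (Group.fg_iff_subgroup_fg H).2 hH
  have hni : ¬ Finite (Abelianization H) := by
    by_cases hc : Cm H
    · intro hfin
      have h0 : commutator H = ⊥ := commutator_of_cm hc
      have hinj : Function.Injective (Abelianization.of : H →* Abelianization H) := by
        rw [← MonoidHom.ker_eq_bot_iff, Abelianization.ker_of, h0]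
      have : Finite H := Finite.of_injective _ hinj
      apply hb
      rw [eq_bot_iff]
      intro x hx
      have h1 : IsOfFinOrder (⟨x, hx⟩ : H) := isOfFinOrder_of_finite _
      have h2 : x ∈ Subgroup.center G := h.tors_central (Submonoid.isOfFinOrder_coe.2 h1)
      rwa [hZ] at h2
    · exact not_finite (h.sub H hc).hp (h.sub H hc).lg hHg hc
  obtain ⟨f, hf⟩ := surj_int (Abelianization H) (QuotientGroup.fg (commutator H)) hni
  exact ⟨f.comp Abelianization.of, hf.comp (QuotientGroup.mk_surjective)⟩

theorem LocallyIndicable.lg (h : LocallyIndicable G) : LocallyGraded G := by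
  apply lg_mk
  intro H hH hb
  obtain ⟨f, hf⟩ := h H hH hb
  exact (fi_comm (Multiplicative ℤ) inferInstance inferInstance).surj f hf

end Pool.Agent.Helper21.Pctr
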