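import Mathlib

/-!
# The Suzuki group, its ovoid, and the universal transversal property: definitions
-/

open scoped LinearAlgebra.Projectivization MatrixGroups

namespace Pool.Agent.Helper21.Suzuki

/-- The Tits map `x ↦ x ^ (2 ^ (m + 1))`; on the field with `2 ^ (2 m + 1)` elements it is the
automorphism whose square is the Frobenius map. -/
def tits {F : Type*} [Field F] (m : ℕ) (x : F) : F := x ^ 2 ^ (m + 1)

/-- The fourth coordinate `x y + x^θ x² + y^θ` of the affine points of the ovoid. -/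
def ovoidForm {F : Type*} [Field F] (m : ℕ) (x y : F) : F :=
  x * y + tits m x * x ^ 2 + tits m y

/-- The Suzuki–Tits ovoid in `PG(3, F)`: the point `(0,0,0,1)` and the points
`(1, x, y, x y + x^θ x² + y^θ)`. -/
def ovoid (F : Type*) [Field F] (m : ℕ) : Set (ℙ F (Fin 4 → F)) :=
  {p | ∃ v : Fin 4 → F, ∃ hv : v ≠ 0, p = Projectivization.mk F v hv ∧
    (v = ![0, 0, 0, 1] ∨ ∃ x y : F, v = ![1, x, y, ovoidForm m x y])}

/-- Suzuki's unipotent matrices. -/
def unipotentMatrix {F : Type*} [Field F] (m : ℕ) (a b : F) : Matrix (Fin 4) (Fin 4) F :=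
  !![1, 0, 0, 0;
     a, 1, 0, 0;
     b, tits m a, 1, 0;
     ovoidForm m a b, tits m a * a + b, a, 1]

/-- Suzuki's diagonal matrices. -/
def torusMatrix {F : Type*} [Field F] (m : ℕ) (ν : F) : Matrix (Fin 4) (Fin 4) F :=
  !![ν⁻¹ * (tits m ν)⁻¹, 0, 0, 0;
     0, ν⁻¹, 0, 0;
     0, 0, ν, 0;
     0, 0, 0, ν * tits m ν]

/-- Suzuki's antidiagonal matrix. -/
def weylMatrix {F : Type*} [Field F] : Matrix (Fin 4) (Fin 4) F :=
  !![0, 0, 0, 1;
     0, 0, 1, 0;
     0, 1, 0, 0;
     1, 0, 0, 0]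

/-- The Suzuki group `Sz(q)`, `q = 2 ^ (2 m + 1)`, as the subgroup of `GL(4, q)` generated by
Suzuki's matrices. -/
def suzukiGroup (F : Type*) [Field F] (m : ℕ) : Subgroup (GL (Fin 4) F) :=
  Subgroup.closure {g | (∃ a b : F, (g : Matrix (Fin 4) (Fin 4) F) = unipotentMatrix m a b) ∨
    (∃ ν : F, ν ≠ 0 ∧ (g : Matrix (Fin 4) (Fin 4) F) = torusMatrix m ν) ∨
    (g : Matrix (Fin 4) (Fin 4) F) = weylMatrix}

/-- The permutation group induced by the Suzuki group on the ovoid. -/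
def suzukiPermGroup (F : Type*) [Field F] (m : ℕ) : Subgroup (Equiv.Perm (ovoid F m)) where
  carrier := {σ | ∃ g ∈ suzukiGroup F m, ∀ p : ovoid F m,
    ((σ p : ovoid F m) : ℙ F (Fin 4 → F)) = g • (p : ℙ F (Fin 4 → F))}
  mul_mem' := by
    rintro σ τ ⟨g, hg, hσ⟩ ⟨h, hh, hτ⟩
    refine ⟨g * h, mul_mem hg hh, fun p => ?_⟩
    rw [Equiv.Perm.mul_apply, hσ, hτ, mul_smul]
  one_mem' := ⟨1, one_mem _, fun p => by rw [one_smul]; rfl⟩
  inv_mem' := by
    rintro σ ⟨g, hg, hσ⟩
    refine ⟨g⁻¹, inv_mem hg, fun p => ?_⟩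
    rw [eq_inv_smul_iff, ← hσ]
    simp

/-- The set `T` is a section of the partition `P`: a `k`-subset meeting every part in exactly one
point. -/
def IsSection {Ω : Type*} (k : ℕ) (T : Set Ω) (P : Set (Set Ω)) : Prop :=
  T.ncard = k ∧ ∀ A ∈ P, (T ∩ A).ncard = 1

/-- The `k`-universal transversal property of a permutation group: every `k`-subset has an image
that is a section of any given partition into `k` nonempty parts. -/
def HasUniversalTransversalProperty {Ω : Type*} (G : Subgroup (Equiv.Perm Ω)) (k : ℕ) : Prop :=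
  ∀ S : Set Ω, S.ncard = k → ∀ P : Set (Set Ω), Setoid.IsPartition P → P.ncard = k →
    ∃ g ∈ G, IsSection k (g '' S) P

end Pool.Agent.Helper21.Suzuki
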