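import Pool.Agent.Helper21.SuzukiRainbow
import Pool.Agent.Helper21.SuzukiDefs

/-!
# The action of the Suzuki group on its ovoid, and the 3-ut property
-/

open scoped LinearAlgebra.Projectivization MatrixGroups

namespace Pool.Agent.Helper21.Suzuki

section Points

variable {F : Type*} [Field F] (m : ℕ)

/-- The homogeneous coordinates of the points of the ovoid. -/
def vec : Option (F × F) → (Fin 4 → F)
  | none => ![0, 0, 0, 1]
  | some p => ![1, p.1, p.2, ovoidForm m p.1 p.2]

lemma vec_ne_zero (z : Option (F × F)) : vec m z ≠ 0 := by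
  rcases z with _ | ⟨x, y⟩
  · intro h
    have := congrFun h 3
    simp [vec] at this
  · intro h
    have := congrFun h 0
    simp [vec] at this

/-- The points of the ovoid. -/
def pt (z : Option (F × F)) : ℙ F (Fin 4 → F) := Projectivization.mk F (vec m z) (vec_ne_zero m z)

lemma pt_mem_ovoid (z : Option (F × F)) : pt m z ∈ ovoid F m := by
  refine ⟨vec m z, vec_ne_zero m z, rfl, ?_⟩
  rcases z with _ | ⟨x, y⟩
  · exact Or.inl rfl
  · exact Or.inr ⟨x, y, rfl⟩

lemma exists_pt_of_mem_ovoid {p : ℙ F (Fin 4 → F)} (hp : p ∈ ovoid F m) : ∃ z, p = pt m z := by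
  obtain ⟨v, hv, rfl, rfl | ⟨x, y, rfl⟩⟩ := hp
  · exact ⟨none, rfl⟩
  · exact ⟨some (x, y), rfl⟩

lemma pt_injective : Function.Injective (pt m : Option (F × F) → ℙ F (Fin 4 → F)) := by
  intro z w h
  rw [pt, pt, Projectivization.mk_eq_mk_iff'] at h
  obtain ⟨c, hc⟩ := h
  have h0 := congrFun hc 0
  have h1 := congrFun hc 1
  have h2 := congrFun hc 2
  have h3 := congrFun hc 3
  rcases z with _ | ⟨x, y⟩ <;> rcases w with _ | ⟨x', y'⟩
  · rfl
  · simp [vec] at h0 h3
    simp [h0] at h3
  · simp [vec] at h0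
  · simp [vec] at h0 h1 h2
    subst h0
    simp at h1 h2
    rw [h1, h2]

/-- The points of the ovoid as an equivalence. -/
noncomputable def ptEquiv : Option (F × F) ≃ ovoid F m :=
  Equiv.ofBijective (fun z => ⟨pt m z, pt_mem_ovoid m z⟩)
    ⟨fun z w h => pt_injective m (congrArg Subtype.val h), fun p => by
      obtain ⟨z, hz⟩ := exists_pt_of_mem_ovoid m p.2
      exact ⟨z, Subtype.ext hz.symm⟩⟩

@[simp] lemma coe_ptEquiv (z : Option (F × F)) :
    ((ptEquiv m z : ovoid F m) : ℙ F (Fin 4 → F)) = pt m z := rfl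

lemma smul_pt_eq {g : GL (Fin 4) F} {z w : Option (F × F)} {c : F}
    (h : (g : Matrix (Fin 4) (Fin 4) F).mulVec (vec m z) = c • vec m w) :
    g • pt m z = pt m w := by
  rw [pt, pt, Projectivization.smul_mk, Projectivization.mk_eq_mk_iff']
  exact ⟨c, h.symm⟩

end Points

section Group

variable {F : Type*} [Field F] [Finite F] [CharP F 2] (m : ℕ)

/-- Permutations of the labels of the ovoid points coming from the Suzuki group. -/
def labelGroup (F : Type*) [Field F] (m : ℕ) : Subgroup (Equiv.Perm (Option (F × F))) where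
  carrier := {σ | ∃ g ∈ suzukiGroup F m, ∀ z, g • pt m z = pt m (σ z)}
  mul_mem' := by
    rintro σ τ ⟨g, hg, hσ⟩ ⟨h, hh, hτ⟩
    refine ⟨g * h, mul_mem hg hh, fun p => ?_⟩
    rw [Equiv.Perm.mul_apply, mul_smul, hτ, hσ]
  one_mem' := ⟨1, one_mem _, fun p => by rw [one_smul]; rfl⟩
  inv_mem' := by
    rintro σ ⟨g, hg, hσ⟩
    refine ⟨g⁻¹, inv_mem hg, fun p => ?_⟩
    rw [inv_smul_eq_iff, hσ]
    simp

omit [CharP F 2] in
/-- A matrix of the Suzuki group that permutes the labels gives an element of `labelGroup`. -/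
lemma exists_mem_labelGroup {g : GL (Fin 4) F} (hg : g ∈ suzukiGroup F m)
    (f : Option (F × F) → Option (F × F)) (hf : ∀ z, g • pt m z = pt m (f z)) :
    ∃ σ ∈ labelGroup F m, ∀ z, σ z = f z := by
  have hinj : Function.Injective f := by
    intro z w h
    apply pt_injective m
    have h1 := hf z
    rw [h, ← hf w] at h1
    exact MulAction.injective g h1
  refine ⟨Equiv.ofBijective f (Finite.injective_iff_bijective.1 hinj), ⟨g, hg, hf⟩, fun z => rfl⟩

omit [Finite F] in
lemma two_eq_zero' : (2 : F) = 0 := CharP.cast_eq_zero F 2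

/-- The translation of labels. -/
def transFun (a b : F) : Option (F × F) → Option (F × F)
  | none => none
  | some p => some (a + p.1, b + p.2 + tits m a * p.1)

/-- The scaling of labels. -/
def scaleFun (k : F) : Option (F × F) → Option (F × F)
  | none => none
  | some p => some (k * p.1, tits m k * k * p.2)

open Classical in
/-- The inversion of labels. -/
noncomputable def invFun' : Option (F × F) → Option (F × F)
  | none => some (0, 0)
  | some p => if p.1 = 0 ∧ p.2 = 0 then none else
      some (p.2 / ovoidForm m p.1 p.2, p.1 / ovoidForm m p.1 p.2)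

variable (F) in
/-- The Tits endomorphism as a ring homomorphism. -/
noncomputable def titsHom : F →+* F := iterateFrobenius F 2 (m + 1)

omit [Finite F] in
lemma titsHom_apply (x : F) : titsHom F m x = tits m x := by
  rw [titsHom, iterateFrobenius_def, tits]

lemma tits_add (x y : F) : tits m (x + y) = tits m x + tits m y := by
  rw [← titsHom_apply, map_add, titsHom_apply, titsHom_apply]

lemma tits_mul (x y : F) : tits m (x * y) = tits m x * tits m y := by
  rw [← titsHom_apply, map_mul, titsHom_apply, titsHom_apply]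

lemma tits_inv (x : F) : tits m x⁻¹ = (tits m x)⁻¹ := by
  rw [← titsHom_apply, map_inv₀, titsHom_apply]

lemma tits_div (x y : F) : tits m (x / y) = tits m x / tits m y := by
  rw [← titsHom_apply, map_div₀, titsHom_apply, titsHom_apply]

omit [Finite F] [CharP F 2] in
lemma tits_zero : tits m (0 : F) = 0 := by
  simp [tits]

omit [Finite F] [CharP F 2] in
lemma tits_one : tits m (1 : F) = 1 := by
  simp [tits]

omit [Finite F] [CharP F 2] in
lemma tits_ne_zero {x : F} (hx : x ≠ 0) : tits m x ≠ 0 := pow_ne_zero _ hx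

omit [CharP F 2] in
lemma tits_tits (hF : Nat.card F = 2 ^ (2 * m + 1)) (x : F) : tits m (tits m x) = x ^ 2 := by
  have : Fintype F := Fintype.ofFinite F
  have h1 : x ^ (2 ^ (2 * m + 1)) = x := by
    have h := FiniteField.pow_card x
    rwa [← Nat.card_eq_fintype_card, hF] at h
  rw [tits, tits, ← pow_mul, ← pow_add]
  have : m + 1 + (m + 1) = (2 * m + 1) + 1 := by ring
  rw [this, pow_succ, pow_mul, h1]

variable (hF : Nat.card F = 2 ^ (2 * m + 1))

include hF in
lemma ovoidForm_trans (a b x y : F) :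
    ovoidForm m (a + x) (b + y + tits m a * x) =
      ovoidForm m a b + (tits m a * a + b) * x + a * y + ovoidForm m x y := by
  simp only [ovoidForm, tits_add, tits_mul, tits_tits m hF]
  linear_combination (a ^ 2 * tits m x + tits m a * a * x + tits m a * x ^ 2
    + a * x * tits m x) * (two_eq_zero' (F := F))

include hF in
lemma ovoidForm_scale (ν x y : F) :
    ovoidForm m (tits m ν * x) (tits m (tits m ν) * tits m ν * y) =
      (ν * tits m ν) ^ 2 * ovoidForm m x y := by
  simp only [ovoidForm, tits_mul, tits_tits m hF]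
  have h : tits m (ν ^ 2) = (tits m ν) ^ 2 := by rw [sq, tits_mul, sq]
  rw [h]
  ring

include hF in
lemma ovoidForm_ne_zero {x y : F} (h : ¬ (x = 0 ∧ y = 0)) : ovoidForm m x y ≠ 0 := by
  intro h0
  by_cases hx : x = 0
  · subst hx
    have hy : y ≠ 0 := fun hy => h ⟨rfl, hy⟩
    simp [ovoidForm] at h0
    exact tits_ne_zero m hy h0
  · -- scale to `x = 1`
    have htx := tits_ne_zero m hx
    set y' := y / (tits m x * x) with hy'
    have hyy : y = tits m x * x * y' := by rw [hy']; field_simp
    have h1 : ovoidForm m x y = tits m x * x ^ 2 * (y' + 1 + tits m y') := by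
      rw [hyy]
      simp only [ovoidForm, tits_mul, tits_tits m hF]
      ring
    rw [h1] at h0
    have h2 : y' + 1 + tits m y' = 0 := by
      rcases mul_eq_zero.1 h0 with h3 | h3
      · exact absurd h3 (mul_ne_zero htx (pow_ne_zero _ hx))
      · exact h3
    have h3 : tits m y' = y' + 1 := by
      linear_combination h2 - (y' + 1) * two_eq_zero' (F := F)
    have h4 : y' ^ 2 = y' := by
      have := congrArg (tits m) h3
      rw [tits_tits m hF, tits_add, tits_one, h3] at this
      linear_combination this + two_eq_zero' (F := F)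
    have h5 : y' = 0 ∨ y' = 1 := by
      have : y' * (y' - 1) = 0 := by linear_combination h4
      rcases mul_eq_zero.1 this with h | h
      · exact Or.inl h
      · exact Or.inr (sub_eq_zero.1 h)
    rcases h5 with h5 | h5
    · rw [h5, tits_zero] at h3
      simp at h3
    · rw [h5, tits_one] at h3
      simp at h3

include hF in
lemma ovoidForm_inv {x y : F} (h : ¬ (x = 0 ∧ y = 0)) :
    ovoidForm m (y / ovoidForm m x y) (x / ovoidForm m x y) = 1 / ovoidForm m x y := by
  have hN := ovoidForm_ne_zero m hF h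
  have htN := tits_ne_zero m hN
  have key : x * y * tits m (ovoidForm m x y) + tits m y * y ^ 2
      + tits m x * (ovoidForm m x y) ^ 2 = ovoidForm m x y * tits m (ovoidForm m x y) := by
    have h1 : tits m (ovoidForm m x y) = tits m x * tits m y + x ^ 2 * (tits m x) ^ 2 + y ^ 2 := by
      rw [ovoidForm, tits_add, tits_add, tits_mul, tits_mul, tits_tits m hF, tits_tits m hF]
      have h : tits m (x ^ 2) = (tits m x) ^ 2 := by rw [sq, tits_mul, sq]
      rw [h]
    rw [h1, ovoidForm]
    linear_combination (-(tits m x) ^ 2 * x ^ 2 * tits m y + tits m x * x * y *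
      (tits m x * x ^ 2 + tits m y) + tits m x * tits m x * x ^ 2 * tits m y) *
      (two_eq_zero' (F := F))
  rw [ovoidForm, tits_div, tits_div]
  field_simp
  linear_combination key

omit [Finite F] [CharP F 2] in
/-- The unipotent matrices as elements of `GL`. -/
lemma exists_unipotent (a b : F) : ∃ g : GL (Fin 4) F,
    (g : Matrix (Fin 4) (Fin 4) F) = unipotentMatrix m a b := by
  have hdet : (unipotentMatrix m a b).det ≠ 0 := by
    have : (unipotentMatrix m a b).det = 1 := by
      simp [unipotentMatrix, Matrix.det_succ_row_zero, Fin.sum_univ_succ]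
    rw [this]
    exact one_ne_zero
  exact ⟨Matrix.GeneralLinearGroup.mkOfDetNeZero _ hdet, rfl⟩

omit [Finite F] [CharP F 2] in
lemma exists_torus {ν : F} (hν : ν ≠ 0) : ∃ g : GL (Fin 4) F,
    (g : Matrix (Fin 4) (Fin 4) F) = torusMatrix m ν := by
  have htν := tits_ne_zero m hν
  have hdet : (torusMatrix m ν).det ≠ 0 := by
    have : (torusMatrix m ν).det = 1 := by
      simp [torusMatrix, Matrix.det_succ_row_zero, Fin.sum_univ_succ]
      field_simp
    rw [this]
    exact one_ne_zero
  exact ⟨Matrix.GeneralLinearGroup.mkOfDetNeZero _ hdet, rfl⟩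

omit [Finite F] [CharP F 2] in
lemma exists_weyl : ∃ g : GL (Fin 4) F,
    (g : Matrix (Fin 4) (Fin 4) F) = weylMatrix := by
  have hdet : (weylMatrix : Matrix (Fin 4) (Fin 4) F).det ≠ 0 := by
    have : (weylMatrix : Matrix (Fin 4) (Fin 4) F).det = 1 := by
      simp [weylMatrix, Matrix.det_succ_row_zero, Fin.sum_univ_succ, Fin.succAbove]
      ring
    rw [this]
    exact one_ne_zero
  exact ⟨Matrix.GeneralLinearGroup.mkOfDetNeZero _ hdet, rfl⟩

include hF in
lemma unipotent_smul {g : GL (Fin 4) F} {a b : F}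
    (hg : (g : Matrix (Fin 4) (Fin 4) F) = unipotentMatrix m a b) (z : Option (F × F)) :
    g • pt m z = pt m (transFun m a b z) := by
  apply smul_pt_eq (c := 1)
  rw [hg, one_smul]
  rcases z with _ | ⟨x, y⟩
  · ext i
    fin_cases i <;> simp [unipotentMatrix, vec, transFun, Matrix.mulVec, dotProduct,
      Fin.sum_univ_four]
  · ext i
    fin_cases i
    · simp [unipotentMatrix, vec, transFun, Matrix.mulVec, dotProduct, Fin.sum_univ_four]
    · simp [unipotentMatrix, vec, transFun, Matrix.mulVec, dotProduct, Fin.sum_univ_four]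
    · simp [unipotentMatrix, vec, transFun, Matrix.mulVec, dotProduct, Fin.sum_univ_four]
      ring
    · simp [unipotentMatrix, vec, transFun, Matrix.mulVec, dotProduct, Fin.sum_univ_four]
      rw [ovoidForm_trans m hF]

include hF in
lemma torus_smul {g : GL (Fin 4) F} {ν : F} (hν : ν ≠ 0)
    (hg : (g : Matrix (Fin 4) (Fin 4) F) = torusMatrix m ν) (z : Option (F × F)) :
    g • pt m z = pt m (scaleFun m (tits m ν) z) := by
  have htν := tits_ne_zero m hν
  rcases z with _ | ⟨x, y⟩
  · apply smul_pt_eq (c := ν * tits m ν)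
    rw [hg]
    ext i
    fin_cases i <;> simp [torusMatrix, vec, scaleFun, Matrix.mulVec, dotProduct,
      Fin.sum_univ_four]
  · apply smul_pt_eq (c := ν⁻¹ * (tits m ν)⁻¹)
    rw [hg]
    ext i
    fin_cases i
    · simp [torusMatrix, vec, scaleFun, Matrix.mulVec, dotProduct, Fin.sum_univ_four]
    · simp [torusMatrix, vec, scaleFun, Matrix.mulVec, dotProduct, Fin.sum_univ_four]
      field_simp
    · simp [torusMatrix, vec, scaleFun, Matrix.mulVec, dotProduct, Fin.sum_univ_four,
        tits_tits m hF]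
      field_simp
    · simp [torusMatrix, vec, scaleFun, Matrix.mulVec, dotProduct, Fin.sum_univ_four]
      rw [ovoidForm_scale m hF]
      field_simp

include hF in
lemma weyl_smul {g : GL (Fin 4) F}
    (hg : (g : Matrix (Fin 4) (Fin 4) F) = weylMatrix) (z : Option (F × F)) :
    g • pt m z = pt m (invFun' m z) := by
  rcases z with _ | ⟨x, y⟩
  · apply smul_pt_eq (c := 1)
    rw [hg]
    ext i
    fin_cases i <;> simp [weylMatrix, vec, invFun', Matrix.mulVec, dotProduct,
      Fin.sum_univ_four, ovoidForm, tits_zero]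
  · by_cases h : x = 0 ∧ y = 0
    · obtain ⟨rfl, rfl⟩ := h
      apply smul_pt_eq (c := 1)
      rw [hg]
      ext i
      fin_cases i <;> simp [weylMatrix, vec, invFun', Matrix.mulVec, dotProduct,
        Fin.sum_univ_four, ovoidForm, tits_zero]
    · have hN := ovoidForm_ne_zero m hF h
      have hinv : invFun' m (some (x, y)) =
          some (y / ovoidForm m x y, x / ovoidForm m x y) := by
        simp only [invFun', if_neg h]
      rw [hinv]
      apply smul_pt_eq (c := ovoidForm m x y)
      rw [hg]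
      ext i
      fin_cases i
      · simp [weylMatrix, vec, Matrix.mulVec, dotProduct, Fin.sum_univ_four]
      · simp [weylMatrix, vec, Matrix.mulVec, dotProduct, Fin.sum_univ_four]
        field_simp
      · simp [weylMatrix, vec, Matrix.mulVec, dotProduct, Fin.sum_univ_four]
        field_simp
      · simp [weylMatrix, vec, Matrix.mulVec, dotProduct, Fin.sum_univ_four]
        rw [ovoidForm_inv m hF h]
        field_simp

include hF in
lemma labelGroup_trans (a b : F) : ∃ σ ∈ labelGroup F m, σ none = none ∧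
    ∀ x y, σ (some (x, y)) = some (a + x, b + y + titsHom F m a * x) := by
  obtain ⟨g, hg⟩ := exists_unipotent m a b
  obtain ⟨σ, hσ, h⟩ := exists_mem_labelGroup m
    (Subgroup.subset_closure (Or.inl ⟨a, b, hg⟩)) (transFun m a b) (unipotent_smul m hF hg)
  refine ⟨σ, hσ, h none, fun x y => ?_⟩
  rw [h, titsHom_apply]
  rfl

include hF in
lemma labelGroup_scale (k : F) (hk : k ≠ 0) : ∃ σ ∈ labelGroup F m, σ none = none ∧
    ∀ x y, σ (some (x, y)) = some (k * x, titsHom F m k * k * y) := by
  obtain ⟨ν, hν⟩ : ∃ ν : F, tits m ν = k := by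
    obtain ⟨ν, hν⟩ := (Finite.injective_iff_surjective.1 (titsHom F m).injective) k
    exact ⟨ν, by rw [← titsHom_apply, hν]⟩
  have hν0 : ν ≠ 0 := by
    rintro rfl
    rw [tits_zero] at hν
    exact hk hν.symm
  obtain ⟨g, hg⟩ := exists_torus m hν0
  obtain ⟨σ, hσ, h⟩ := exists_mem_labelGroup m
    (Subgroup.subset_closure (Or.inr (Or.inl ⟨ν, hν0, hg⟩))) (scaleFun m (tits m ν))
    (torus_smul m hF hν0 hg)
  refine ⟨σ, hσ, h none, fun x y => ?_⟩
  rw [h, titsHom_apply, hν]
  rfl

include hF in
lemma labelGroup_inv : ∃ σ ∈ labelGroup F m, σ none = some (0, 0) ∧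
    σ (some (0, 0)) = none ∧ ∀ b : F, b ≠ 0 → ∃ x y, x ≠ 0 ∧ σ (some (0, b)) = some (x, y) := by
  obtain ⟨g, hg⟩ := exists_weyl (F := F)
  obtain ⟨σ, hσ, h⟩ := exists_mem_labelGroup m
    (Subgroup.subset_closure (Or.inr (Or.inr hg))) (invFun' m) (weyl_smul m hF hg)
  refine ⟨σ, hσ, by rw [h]; rfl, by rw [h]; simp [invFun'], fun b hb => ?_⟩
  have hb' : ¬ ((0 : F) = 0 ∧ b = 0) := fun hh => hb hh.2
  refine ⟨b / ovoidForm m 0 b, 0 / ovoidForm m 0 b,
    div_ne_zero hb (ovoidForm_ne_zero m hF hb'), ?_⟩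
  rw [h]
  simp only [invFun', if_neg hb']

omit [CharP F 2] in
include hF in
/-- The ovoid has `q² + 1` points. -/
theorem card_ovoid : Nat.card (ovoid F m) = (2 ^ (2 * m + 1)) ^ 2 + 1 := by
  have _ : Fintype F := Fintype.ofFinite F
  rw [← Nat.card_congr (ptEquiv m), Nat.card_eq_fintype_card, Fintype.card_option,
    Fintype.card_prod, ← Nat.card_eq_fintype_card, hF, sq]

include hF in
/-- The Suzuki group preserves the ovoid. -/
theorem smul_mem_ovoid {g : GL (Fin 4) F} (hg : g ∈ suzukiGroup F m) :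
    ∀ p ∈ ovoid F m, g • p ∈ ovoid F m := by
  have key : ∀ g ∈ suzukiGroup F m, ∃ σ : Equiv.Perm (Option (F × F)),
      ∀ z, g • pt m z = pt m (σ z) := by
    intro g hg
    induction hg using Subgroup.closure_induction with
    | mem x hx =>
      have hx' : x ∈ suzukiGroup F m := Subgroup.subset_closure hx
      rcases hx with ⟨a, b, h⟩ | ⟨ν, hν, h⟩ | h
      · obtain ⟨σ, -, hσ⟩ := exists_mem_labelGroup m hx' _ (unipotent_smul m hF h)
        exact ⟨σ, fun z => by rw [unipotent_smul m hF h, hσ]⟩
      · obtain ⟨σ, -, hσ⟩ := exists_mem_labelGroup m hx' _ (torus_smul m hF hν h)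
        exact ⟨σ, fun z => by rw [torus_smul m hF hν h, hσ]⟩
      · obtain ⟨σ, -, hσ⟩ := exists_mem_labelGroup m hx' _ (weyl_smul m hF h)
        exact ⟨σ, fun z => by rw [weyl_smul m hF h, hσ]⟩
    | one => exact ⟨1, fun z => by rw [one_smul]; rfl⟩
    | mul x y _ _ hx hy =>
      obtain ⟨σ, hσ⟩ := hx
      obtain ⟨τ, hτ⟩ := hy
      exact ⟨σ * τ, fun z => by rw [mul_smul, hτ, hσ, Equiv.Perm.mul_apply]⟩
    | inv x _ hx =>
      obtain ⟨σ, hσ⟩ := hx
      refine ⟨σ⁻¹, fun z => ?_⟩
      rw [inv_smul_eq_iff, hσ]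
      simp
  intro p hp
  obtain ⟨z, rfl⟩ := exists_pt_of_mem_ovoid m hp
  obtain ⟨σ, hσ⟩ := key g hg
  rw [hσ]
  exact pt_mem_ovoid m _

include hF in
/-- The Suzuki group has the 3-universal transversal property. -/
theorem suzuki_three_ut (hm : 1 ≤ m) :
    HasUniversalTransversalProperty (suzukiPermGroup F m) 3 := by
  classical
  have _ : Fintype F := Fintype.ofFinite F
  have hcard : 3 ≤ Fintype.card F := by
    rw [← Nat.card_eq_fintype_card, hF]
    calc 3 ≤ 2 ^ 3 := by norm_num
      _ ≤ 2 ^ (2 * m + 1) := Nat.pow_le_pow_right (by norm_num) (by omega)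
  have hθ : ∀ x, titsHom F m (titsHom F m x) = x ^ 2 := by
    intro x
    rw [titsHom_apply, titsHom_apply, tits_tits m hF]
  intro S hS P hP hPcard
  have hSfin : S.Finite := Set.finite_of_ncard_ne_zero (by rw [hS]; norm_num)
  have hPfin : P.Finite := Set.finite_of_ncard_ne_zero (by rw [hPcard]; norm_num)
  -- enumerate `S`
  have hcardS : Nat.card S = 3 := by rw [← hS]; exact Nat.card_coe_set_eq S
  have hcardP : Nat.card P = 3 := by rw [← hPcard]; exact Nat.card_coe_set_eq P
  have _ : Finite S := hSfin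
  have _ : Finite P := hPfin
  let eS : S ≃ Fin 3 := Finite.equivFinOfCardEq hcardS
  let eP : P ≃ Fin 3 := Finite.equivFinOfCardEq hcardP
  -- the block of a point
  have hblock : ∀ x : ovoid F m, ∃ A : P, x ∈ (A : Set (ovoid F m)) := by
    intro x
    obtain ⟨A, ⟨hA, hxA⟩, -⟩ := hP.2 x
    exact ⟨⟨A, hA⟩, hxA⟩
  choose blk hblk using hblock
  have hblk_unique : ∀ (x : ovoid F m) (A : P), x ∈ (A : Set (ovoid F m)) → blk x = A := by
    intro x A hx
    obtain ⟨B, -, hB⟩ := hP.2 x
    apply Subtype.ext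
    rw [hB _ ⟨(blk x).2, hblk x⟩, hB _ ⟨A.2, hx⟩]
  let c : Option (F × F) → Fin 3 := fun z => eP (blk (ptEquiv m z))
  have hc : Function.Surjective c := by
    intro i
    have hne : ((eP.symm i : P) : Set (ovoid F m)).Nonempty := by
      rw [Set.nonempty_iff_ne_empty]
      intro h
      exact hP.1 (h ▸ (eP.symm i).2)
    obtain ⟨x, hx⟩ := hne
    refine ⟨(ptEquiv m).symm x, ?_⟩
    simp only [c, Equiv.apply_symm_apply]
    rw [hblk_unique x _ hx, Equiv.apply_symm_apply]
  let s : Fin 3 → Option (F × F) := fun i => (ptEquiv m).symm (eS.symm i)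
  have hs : Function.Injective s := fun i j h =>
    eS.symm.injective (Subtype.ext ((ptEquiv m).symm.injective h))
  obtain ⟨σ, ⟨g, hg, hσ⟩, hinj⟩ := exists_rainbow hθ (labelGroup F m) (labelGroup_trans m hF)
    (labelGroup_scale m hF) (labelGroup_inv m hF) hcard c hc s hs
  refine ⟨(ptEquiv m).permCongr σ, ⟨g, hg, fun p => ?_⟩, ?_, ?_⟩
  · obtain ⟨z, rfl⟩ := (ptEquiv m).surjective p
    simp [hσ]
  · rw [Set.ncard_image_of_injective _ (Equiv.injective _), hS]
  · intro A hA
    have hbij : Function.Bijective fun i => c (σ (s i)) := Finite.injective_iff_bijective.1 hinj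
    obtain ⟨i, hi⟩ := hbij.2 (eP ⟨A, hA⟩)
    rw [Set.ncard_eq_one]
    refine ⟨ptEquiv m (σ (s i)), ?_⟩
    ext p
    simp only [Set.mem_inter_iff, Set.mem_image, Set.mem_singleton_iff]
    constructor
    · rintro ⟨⟨x, hx, rfl⟩, hxA⟩
      obtain ⟨j, hj⟩ : ∃ j, x = ptEquiv m (s j) := by
        refine ⟨eS ⟨x, hx⟩, ?_⟩
        simp [s]
      subst hj
      rw [Equiv.permCongr_apply, Equiv.symm_apply_apply] at hxA ⊢
      have h1 : blk (ptEquiv m (σ (s j))) = ⟨A, hA⟩ := hblk_unique _ ⟨A, hA⟩ hxA
      have h2 : c (σ (s j)) = c (σ (s i)) := by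
        refine Eq.trans ?_ hi.symm
        simp only [c]
        rw [h1]
      rw [hinj h2]
    · rintro rfl
      refine ⟨⟨ptEquiv m (s i), ?_, ?_⟩, ?_⟩
      · simp [s]
      · simp
      · have h1 : blk (ptEquiv m (σ (s i))) = ⟨A, hA⟩ := eP.injective hi
        have h2 := hblk (ptEquiv m (σ (s i)))
        rw [h1] at h2
        exact h2

end Group

end Pool.Agent.Helper21.Suzuki
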