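import Pool.Agent.Helper21.SuzukiSpectral

/-!
# Rainbow triples for the Suzuki action, combinatorial part

The points of the ovoid are `Option (F × F)`, `none` being the point at infinity.
-/

open Finset

namespace Pool.Agent.Helper21.Suzuki

section

variable {F : Type*} [Field F] [Fintype F] [CharP F 2] {θ : F →+* F}
  (hθ : ∀ x, θ (θ x) = x ^ 2)
  (G : Subgroup (Equiv.Perm (Option (F × F))))
  (hS : ∀ a b, ∃ σ ∈ G, σ none = none ∧
    ∀ x y, σ (some (x, y)) = some (a + x, b + y + θ a * x))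
  (hM : ∀ k, k ≠ 0 → ∃ σ ∈ G, σ none = none ∧
    ∀ x y, σ (some (x, y)) = some (k * x, θ k * k * y))
  (hT : ∃ σ ∈ G, σ none = some (0, 0) ∧ σ (some (0, 0)) = none ∧
    ∀ b, b ≠ 0 → ∃ x y, x ≠ 0 ∧ σ (some (0, b)) = some (x, y))

omit [Fintype F] in
include hS in
/-- Translations move any finite point to the origin. -/
lemma exists_move_zero (a b : F) :
    ∃ σ ∈ G, σ none = none ∧ σ (some (a, b)) = some (0, 0) := by
  obtain ⟨σ, hσ, h1, h2⟩ := hS a (b + θ a * a)
  refine ⟨σ, hσ, h1, ?_⟩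
  rw [h2]
  have e1 : a + a = 0 := CharTwo.add_self_eq_zero a
  have e2 : b + θ a * a + b + θ a * a = 0 := by
    have := CharTwo.add_self_eq_zero (b + θ a * a)
    rw [← this]
    ring
  rw [e1, e2]

omit [Fintype F] in
include hS hT in
lemma exists_move_inf (z : Option (F × F)) : ∃ σ ∈ G, σ z = none := by
  obtain ⟨T, hTG, hT1, hT2, -⟩ := hT
  rcases z with _ | ⟨a, b⟩
  · exact ⟨1, G.one_mem, rfl⟩
  · obtain ⟨σ, hσ, -, h2⟩ := exists_move_zero G hS a b
    exact ⟨T * σ, G.mul_mem hTG hσ, by rw [Equiv.Perm.mul_apply, h2, hT2]⟩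

omit [Fintype F] in
include hS hT in
/-- Every orbit on ordered triples contains a triple in normal form. -/
lemma exists_normal_form (s : Fin 3 → Option (F × F)) (hs : Function.Injective s) :
    ∃ σ ∈ G, ∃ a b : F, a ≠ 0 ∧ σ (s 2) = some (a, b) ∧
      ((σ (s 0) = none ∧ σ (s 1) = some (0, 0)) ∨
        (σ (s 0) = some (0, 0) ∧ σ (s 1) = none)) := by
  obtain ⟨α, hα, hα0⟩ := exists_move_inf G hS hT (s 0)
  have h1 : α (s 1) ≠ none := by
    rw [← hα0]
    intro h
    exact absurd (hs (α.injective h)) (by decide)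
  obtain ⟨⟨a1, b1⟩, h1'⟩ := Option.ne_none_iff_exists'.1 h1
  obtain ⟨γ, hγ, hγ1, hγ2⟩ := exists_move_zero G hS a1 b1
  have hg : γ * α ∈ G := G.mul_mem hγ hα
  have k0 : (γ * α) (s 0) = none := by rw [Equiv.Perm.mul_apply, hα0, hγ1]
  have k1 : (γ * α) (s 1) = some (0, 0) := by rw [Equiv.Perm.mul_apply, h1', hγ2]
  have h2 : (γ * α) (s 2) ≠ none := by
    rw [← k0]
    intro h
    exact absurd (hs ((γ * α).injective h)) (by decide)
  obtain ⟨⟨a, b⟩, k2⟩ := Option.ne_none_iff_exists'.1 h2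
  by_cases ha : a = 0
  · have hb : b ≠ 0 := by
      rintro rfl
      rw [ha, ← k1] at k2
      exact absurd (hs ((γ * α).injective k2)) (by decide)
    obtain ⟨T, hTG, hT1, hT2, hT3⟩ := hT
    obtain ⟨x, y, hx, hxy⟩ := hT3 b hb
    refine ⟨T * (γ * α), G.mul_mem hTG hg, x, y, hx, ?_, Or.inr ⟨?_, ?_⟩⟩
    · rw [Equiv.Perm.mul_apply, k2, ha, hxy]
    · rw [Equiv.Perm.mul_apply, k0, hT1]
    · rw [Equiv.Perm.mul_apply, k1, hT2]
  · exact ⟨γ * α, hg, a, b, ha, k2, Or.inl ⟨k0, k1⟩⟩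

include hθ hS hM in
/-- Two large sets of finite points are joined by a translate of the base triple. -/
lemma exists_joined (hcard : 3 ≤ Fintype.card F) {a b : F} (ha : a ≠ 0)
    (B C : Finset (F × F)) (hB : B.Nonempty) (hC : C.Nonempty)
    (hBC : ((Fintype.card F : ℝ) ^ 2 - B.card) * ((Fintype.card F : ℝ) ^ 2 - C.card) <
      4 * B.card * C.card) :
    ∃ ρ ∈ G, ρ none = none ∧ ∃ u ∈ B, ∃ v ∈ C,
      ((ρ (some (0, 0)) = some u ∧ ρ (some (a, b)) = some v) ∨
        (ρ (some (0, 0)) = some v ∧ ρ (some (a, b)) = some u)) := by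
  have hθa : θ a ≠ 0 := by simpa using ha
  obtain ⟨a1, b1, c, hc, hu, hv⟩ := exists_edge hθ hcard (b / (θ a * a)) B C hB hC hBC
  have hk : c / a ≠ 0 := div_ne_zero hc ha
  obtain ⟨h, hh, hh1, hh2⟩ := hM (c / a) hk
  have hb : θ (c / a) * (c / a) * b = b / (θ a * a) * (θ c * c) := by
    rw [map_div₀]
    field_simp
  have hca : c / a * a = c := by field_simp
  rcases hv with hv | hv
  · obtain ⟨t, ht, ht1, ht2⟩ := hS a1 b1
    refine ⟨t * h, G.mul_mem ht hh, ?_, (a1, b1), hu, _, hv, Or.inl ⟨?_, ?_⟩⟩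
    · rw [Equiv.Perm.mul_apply, hh1, ht1]
    · rw [Equiv.Perm.mul_apply, hh2, ht2]
      simp
    · rw [Equiv.Perm.mul_apply, hh2, ht2, hb, hca]
      congr 2
      ring
  · obtain ⟨t, ht, ht1, ht2⟩ := hS (a1 + c)
      (b1 + (θ a1 * c + b / (θ a * a) * (θ c * c) + θ c * c))
    refine ⟨t * h, G.mul_mem ht hh, ?_, (a1, b1), hu, _, hv, Or.inr ⟨?_, ?_⟩⟩
    · rw [Equiv.Perm.mul_apply, hh1, ht1]
    · rw [Equiv.Perm.mul_apply, hh2, ht2]
      simp
    · rw [Equiv.Perm.mul_apply, hh2, ht2, hb, hca]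
      have e1 : a1 + c + c = a1 := by rw [add_assoc, CharTwo.add_self_eq_zero, add_zero]
      have e2 : b1 + (θ a1 * c + b / (θ a * a) * (θ c * c) + θ c * c) +
          b / (θ a * a) * (θ c * c) + θ (a1 + c) * c = b1 := by
        rw [map_add]
        have := CharTwo.add_self_eq_zero (θ a1 * c + b / (θ a * a) * (θ c * c) + θ c * c)
        linear_combination this
      rw [e1, e2]

include hθ hS hM hT in
/-- Every surjective 3-colouring has a rainbow triple in every orbit on triples. -/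
theorem exists_rainbow (hcard : 3 ≤ Fintype.card F) (c : Option (F × F) → Fin 3)
    (hc : Function.Surjective c) (s : Fin 3 → Option (F × F)) (hs : Function.Injective s) :
    ∃ g ∈ G, Function.Injective fun i => c (g (s i)) := by
  classical
  -- colour classes
  let N : Fin 3 → ℕ := fun i => (univ.filter fun z => c z = i).card
  obtain ⟨i, -, hi⟩ := Finset.exists_min_image (univ : Finset (Fin 3)) N univ_nonempty
  obtain ⟨j, k, hij, hik, hjk⟩ : ∃ j k : Fin 3, i ≠ j ∧ i ≠ k ∧ j ≠ k := by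
    fin_cases i
    · exact ⟨1, 2, by decide, by decide, by decide⟩
    · exact ⟨0, 2, by decide, by decide, by decide⟩
    · exact ⟨0, 1, by decide, by decide, by decide⟩
  have huniv : (univ : Finset (Fin 3)) = {i, j, k} := by
    symm
    rw [← Finset.card_eq_iff_eq_univ]
    rw [Finset.card_insert_of_notMem (by simp [hij, hik]), Finset.card_pair hjk]
    rfl
  have hsum : N i + N j + N k = Fintype.card F ^ 2 + 1 := by
    have h1 : ∑ l, N l = Fintype.card (Option (F × F)) := by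
      rw [← Finset.card_univ]
      exact (Finset.card_eq_sum_card_fiberwise (f := c) (t := univ) (by simp)).symm
    rw [huniv, Finset.sum_insert (by simp [hij, hik]), Finset.sum_pair hjk] at h1
    rw [Fintype.card_option, Fintype.card_prod] at h1
    rw [sq]
    omega
  obtain ⟨x, hx⟩ := hc i
  obtain ⟨τ', hτ', hτ'x⟩ := exists_move_inf G hS hT x
  obtain ⟨τ, hτ, hτx⟩ : ∃ τ ∈ G, τ none = x :=
    ⟨τ'⁻¹, G.inv_mem hτ', by rw [Equiv.Perm.inv_eq_iff_eq, hτ'x]⟩
  let D : Fin 3 → Finset (F × F) := fun l => univ.filter fun u => c (τ (some u)) = l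
  have hD : ∀ l, i ≠ l → (D l).card = N l := by
    intro l hl
    refine Finset.card_bij (fun u _ => τ (some u)) ?_ ?_ ?_
    · intro u hu
      simpa [D] using hu
    · intro u _ v _ huv
      exact Option.some_injective _ (τ.injective huv)
    · intro z hz
      have hz' : c z = l := by simpa using hz
      have hne : τ⁻¹ z ≠ none := by
        intro h
        rw [Equiv.Perm.inv_eq_iff_eq, hτx] at h
        rw [h, hx] at hz'
        exact hl hz'
      obtain ⟨u, hu⟩ := Option.ne_none_iff_exists'.1 hne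
      have hzu : τ (some u) = z := by rw [← hu]; simp
      exact ⟨u, by simp [D, hzu, hz'], hzu⟩
  have hpos : ∀ l, 0 < N l := by
    intro l
    obtain ⟨z, hz⟩ := hc l
    exact Finset.card_pos.2 ⟨z, by simp [hz]⟩
  have hBne : (D j).Nonempty := Finset.card_pos.1 (by rw [hD j hij]; exact hpos j)
  have hCne : (D k).Nonempty := Finset.card_pos.1 (by rw [hD k hik]; exact hpos k)
  obtain ⟨σ, hσ, a, b, ha, hσ2, hσ01⟩ := exists_normal_form G hS hT s hs
  have hineq : ((Fintype.card F : ℝ) ^ 2 - (D j).card) * ((Fintype.card F : ℝ) ^ 2 - (D k).card) <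
      4 * (D j).card * (D k).card := by
    rw [hD j hij, hD k hik]
    have hsumR : (N i : ℝ) + N j + N k = (Fintype.card F : ℝ) ^ 2 + 1 := by exact_mod_cast hsum
    have h1 : (N i : ℝ) ≤ N j := by exact_mod_cast hi j (Finset.mem_univ _)
    have h2 : (N i : ℝ) ≤ N k := by exact_mod_cast hi k (Finset.mem_univ _)
    have h3 : (1 : ℝ) ≤ N i := by exact_mod_cast hpos i
    have e1 : (Fintype.card F : ℝ) ^ 2 - N j = N i + N k - 1 := by linarith
    have e2 : (Fintype.card F : ℝ) ^ 2 - N k = N i + N j - 1 := by linarith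
    rw [e1, e2]
    nlinarith
  obtain ⟨ρ, hρ, hρ0, u, hu, v, hv, hρ1⟩ :=
    exists_joined (b := b) hθ G hS hM hcard ha (D j) (D k) hBne hCne hineq
  have hu' : c (τ (some u)) = j := by simpa [D] using hu
  have hv' : c (τ (some v)) = k := by simpa [D] using hv
  refine ⟨τ * ρ * σ, G.mul_mem (G.mul_mem hτ hρ) hσ, ?_⟩
  have hinj : ∀ f : Fin 3 → Fin 3, f 0 ≠ f 1 → f 0 ≠ f 2 → f 1 ≠ f 2 →
      Function.Injective f := by
    intro f h01 h02 h12 p q hpq
    fin_cases p <;> fin_cases q <;> simp_all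
  apply hinj
  all_goals
    simp only [Equiv.Perm.mul_apply]
    rcases hσ01 with ⟨h0, h1⟩ | ⟨h0, h1⟩ <;> rcases hρ1 with ⟨h3, h4⟩ | ⟨h3, h4⟩ <;>
      simp only [hσ2, h0, h1, h3, h4, hρ0, hτx, hx, hu', hv'] <;>
      first
        | exact hij | exact hik | exact hjk | exact hij.symm | exact hik.symm | exact hjk.symm

end

end Pool.Agent.Helper21.Suzuki
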