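import Mathlib

/-!
# A spectral gap for the Cayley graphs attached to the Suzuki 2-groups

`Q = F × F` with product `(a,b) * (x,y) = (a + x, b + y + θ a * x)`.
-/

open Finset

namespace Pool.Agent.Helper21.Suzuki

section Char

variable {F : Type*} [Field F] [CharP F 2]

/-- A nontrivial real character of the additive group of a field of characteristic two. -/
lemma exists_signChar :
    ∃ ψ : F → ℝ, (∀ x y, ψ (x + y) = ψ x * ψ y) ∧ (∀ x, ψ x * ψ x = 1) ∧ ∃ x, ψ x = -1 := by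
  let _ : Algebra (ZMod 2) F := ZMod.algebra F 2
  obtain ⟨ℓ, hℓ⟩ : ∃ ℓ : Module.Dual (ZMod 2) F, ℓ 1 ≠ 0 := by
    by_contra! h
    exact one_ne_zero ((Module.forall_dual_apply_eq_zero_iff (ZMod 2) (1 : F)).1 h)
  refine ⟨fun x => if ℓ x = 0 then 1 else -1, ?_, ?_, 1, ?_⟩
  · intro x y
    have h2 : ∀ z : ZMod 2, z = 0 ∨ z = 1 := by decide
    rcases h2 (ℓ x) with hx | hx <;> rcases h2 (ℓ y) with hy | hy <;>
      simp [map_add, hx, hy]
    decide
  · intro x
    simp only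
    split_ifs <;> norm_num
  · simp only
    rw [if_neg hℓ]

end Char

section Spectral

variable {F : Type*} [Field F] [Fintype F] [CharP F 2]
  {ψ : F → ℝ} (hadd : ∀ x y, ψ (x + y) = ψ x * ψ y) (hsq : ∀ x, ψ x * ψ x = 1)
  (hne : ∃ x, ψ x = -1)

omit [Fintype F] [CharP F 2] in
include hadd hsq in
lemma psi_zero : ψ 0 = 1 := by
  have h := hadd 0 0
  rw [add_zero, hsq] at h
  exact h

omit [CharP F 2] in
include hadd hne in
lemma sum_psi : ∑ x, ψ x = 0 := by
  obtain ⟨x₀, hx₀⟩ := hne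
  have h : ∑ x, ψ x = ∑ x, ψ (x + x₀) := (Equiv.sum_comp (Equiv.addRight x₀) ψ).symm
  simp_rw [hadd, hx₀, mul_neg, mul_one, Finset.sum_neg_distrib] at h
  linarith

omit [CharP F 2] in
include hadd hsq hne in
lemma sum_psi_mul [DecidableEq F] (b : F) :
    ∑ t, ψ (t * b) = if b = 0 then (Fintype.card F : ℝ) else 0 := by
  split_ifs with hb
  · subst hb
    simp [psi_zero hadd hsq]
  · rw [← sum_psi hadd hne]
    exact Equiv.sum_comp (Equiv.mulRight₀ b hb) ψ

end Spectral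

section Tits

variable {F : Type*} [Field F] {θ : F →+* F} (hθ : ∀ x, θ (θ x) = x ^ 2)

include hθ in
lemma tits_mul_self_eq_one {k : F} (hk : θ k * k = 1) : k = 1 := by
  have h1 : θ (θ k) * θ k = 1 := by rw [← map_mul, hk, map_one]
  rw [hθ] at h1
  have hk0 : k ≠ 0 := by rintro rfl; simp at hk
  have h2 : k * (θ k * k) = 1 := by rw [← h1]; ring
  rw [hk, mul_one] at h2
  exact h2

include hθ in
lemma tits_mul_self_injective : Function.Injective (fun c : F => θ c * c) := by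
  intro c d h
  simp only at h
  by_cases hd : d = 0
  · subst hd
    simp only [map_zero, mul_zero, mul_eq_zero, map_eq_zero, or_self] at h
    exact h
  · have hθd : θ d ≠ 0 := by simpa using hd
    have h1 : θ (c / d) * (c / d) = 1 := by
      rw [map_div₀]
      field_simp
      exact h
    have h2 := tits_mul_self_eq_one hθ h1
    rwa [div_eq_one_iff_eq hd] at h2

variable [Fintype F] [CharP F 2] {ψ : F → ℝ} (hadd : ∀ x y, ψ (x + y) = ψ x * ψ y)
  (hsq : ∀ x, ψ x * ψ x = 1) (hne : ∃ x, ψ x = -1)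

include hθ hadd hsq hne in
lemma sum_psi_tits {t : F} (ht : t ≠ 0) : ∑ c, ψ (t * (θ c * c)) = 0 := by
  classical
  have hb : Function.Bijective (fun c : F => θ c * c) :=
    Finite.injective_iff_bijective.1 (tits_mul_self_injective hθ)
  have h1 : ∑ c, ψ (t * (θ c * c)) = ∑ d, ψ (t * d) :=
    Equiv.sum_comp (Equiv.ofBijective _ hb) (fun d => ψ (t * d))
  rw [h1]
  simp_rw [mul_comm t]
  have := sum_psi_mul hadd hsq hne t
  rw [if_neg ht] at this
  rw [← this]

/-- The kernel of the block `t` of the adjacency operator. -/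
noncomputable def kk [DecidableEq F] (θ : F →+* F) (ψ : F → ℝ) (β t a c : F) : ℝ :=
  if c = 0 then 0 else ψ (t * (θ a * c + β * (θ c * c))) * (1 + ψ (t * (θ c * c)))

/-- The block `t` of the adjacency operator. -/
noncomputable def K [DecidableEq F] (θ : F →+* F) (ψ : F → ℝ) (β t : F) (φ : F → ℝ) (a : F) : ℝ :=
  ∑ c, kk θ ψ β t a c * φ (a + c)

variable [DecidableEq F] (β : F)

include hsq in
lemma kk_sq {t a c : F} (hc : c ≠ 0) :
    kk θ ψ β t a c ^ 2 = 2 + 2 * ψ (t * (θ c * c)) := by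
  rw [kk, if_neg hc, mul_pow, sq (ψ _), hsq]
  have := hsq (t * (θ c * c))
  linear_combination this

include hθ hadd hsq hne in
lemma sum_kk_sq {t : F} (ht : t ≠ 0) (a : F) :
    ∑ c, kk θ ψ β t a c ^ 2 = 2 * (Fintype.card F : ℝ) - 4 := by
  have h1 : ∀ c, kk θ ψ β t a c ^ 2 = (2 + 2 * ψ (t * (θ c * c))) - if c = 0 then 4 else 0 := by
    intro c
    by_cases hc : c = 0
    · subst hc
      simp [kk, psi_zero hadd hsq]
      norm_num
    · rw [kk_sq hsq β hc, if_neg hc, sub_zero]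
  simp_rw [h1]
  rw [Finset.sum_sub_distrib, Finset.sum_add_distrib, ← Finset.mul_sum,
    sum_psi_tits hθ hadd hsq hne ht]
  simp
  ring

/-- The symmetry `J` commuting with the block operator. -/
def J (θ : F →+* F) (ψ : F → ℝ) (t a₀ : F) (φ : F → ℝ) (a : F) : ℝ :=
  ψ (t * (θ a₀ * a)) * φ (a + a₀)

omit [CharP F 2] [DecidableEq F] in
include hsq in
lemma sum_J_sq (t a₀ : F) (φ : F → ℝ) : ∑ a, J θ ψ t a₀ φ a ^ 2 = ∑ a, φ a ^ 2 := by
  have h : ∀ a, J θ ψ t a₀ φ a ^ 2 = φ (a + a₀) ^ 2 := by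
    intro a
    rw [J, mul_pow, sq (ψ _), hsq, one_mul]
  simp_rw [h]
  exact Equiv.sum_comp (Equiv.addRight a₀) (fun a => φ a ^ 2)

omit [DecidableEq F] in
include hadd in
lemma sum_mul_J {t a₀ : F} (ha₀ : ψ (t * (θ a₀ * a₀)) = -1) (φ : F → ℝ) :
    ∑ a, φ a * J θ ψ t a₀ φ a = 0 := by
  have h : ∑ a, φ a * J θ ψ t a₀ φ a = ∑ a, φ (a + a₀) * J θ ψ t a₀ φ (a + a₀) :=
    (Equiv.sum_comp (Equiv.addRight a₀) (fun a => φ a * J θ ψ t a₀ φ a)).symm
  have h2 : ∀ a, φ (a + a₀) * J θ ψ t a₀ φ (a + a₀) = -(φ a * J θ ψ t a₀ φ a) := by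
    intro a
    rw [J, J, add_assoc, CharTwo.add_self_eq_zero, add_zero, mul_add (θ a₀), mul_add, hadd, ha₀]
    ring
  simp_rw [h2, Finset.sum_neg_distrib] at h
  linarith

include hadd in
lemma K_J (t a₀ : F) (φ : F → ℝ) (a : F) :
    K θ ψ β t (J θ ψ t a₀ φ) a = J θ ψ t a₀ (K θ ψ β t φ) a := by
  simp only [K, J]
  rw [Finset.mul_sum]
  refine Finset.sum_congr rfl fun c _ => ?_
  have h1 : kk θ ψ β t (a + a₀) c = ψ (t * (θ a₀ * c)) * kk θ ψ β t a c := by
    by_cases hc : c = 0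
    · simp [kk, hc]
    · rw [kk, kk, if_neg hc, if_neg hc, ← mul_assoc (ψ (t * (θ a₀ * c))), ← hadd]
      congr 2
      rw [map_add]
      ring
  have h2 : ψ (t * (θ a₀ * (a + c))) = ψ (t * (θ a₀ * a)) * ψ (t * (θ a₀ * c)) := by
    rw [← hadd]
    congr 1
    ring
  rw [h1, h2, add_right_comm a c a₀]
  ring

/-- Bessel's inequality for two orthogonal vectors of the same norm. -/
lemma bessel_two {ι : Type*} (s : Finset ι) (r φ χ : ι → ℝ)
    (horth : ∑ i ∈ s, φ i * χ i = 0) (hnorm : ∑ i ∈ s, χ i ^ 2 = ∑ i ∈ s, φ i ^ 2) :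
    (∑ i ∈ s, r i * φ i) ^ 2 + (∑ i ∈ s, r i * χ i) ^ 2 ≤
      (∑ i ∈ s, r i ^ 2) * ∑ i ∈ s, φ i ^ 2 := by
  generalize hx : ∑ i ∈ s, r i * φ i = x
  generalize hy : ∑ i ∈ s, r i * χ i = y
  generalize hN : ∑ i ∈ s, φ i ^ 2 = N at hnorm
  have hN0 : 0 ≤ N := by rw [← hN]; exact Finset.sum_nonneg fun i _ => sq_nonneg _
  have hcs := Finset.sum_mul_sq_le_sq_mul_sq s r (fun i => x * φ i + y * χ i)
  have h1 : ∑ i ∈ s, r i * (x * φ i + y * χ i) = x ^ 2 + y ^ 2 := by
    calc ∑ i ∈ s, r i * (x * φ i + y * χ i)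
        = x * ∑ i ∈ s, r i * φ i + y * ∑ i ∈ s, r i * χ i := by
          rw [Finset.mul_sum, Finset.mul_sum, ← Finset.sum_add_distrib]
          exact Finset.sum_congr rfl fun i _ => by ring
      _ = x ^ 2 + y ^ 2 := by rw [hx, hy]; ring
  have h2 : ∑ i ∈ s, (x * φ i + y * χ i) ^ 2 = (x ^ 2 + y ^ 2) * N := by
    calc ∑ i ∈ s, (x * φ i + y * χ i) ^ 2
        = x ^ 2 * ∑ i ∈ s, φ i ^ 2 + 2 * x * y * ∑ i ∈ s, φ i * χ i
            + y ^ 2 * ∑ i ∈ s, χ i ^ 2 := by
          rw [Finset.mul_sum, Finset.mul_sum, Finset.mul_sum, ← Finset.sum_add_distrib,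
            ← Finset.sum_add_distrib]
          exact Finset.sum_congr rfl fun i _ => by ring
      _ = (x ^ 2 + y ^ 2) * N := by rw [horth, hnorm, hN]; ring
  rw [h1, h2] at hcs
  generalize hR : ∑ i ∈ s, r i ^ 2 = R at hcs
  have hR0 : 0 ≤ R := by rw [← hR]; exact Finset.sum_nonneg fun i _ => sq_nonneg _
  rcases (add_nonneg (sq_nonneg x) (sq_nonneg y)).eq_or_lt with h0 | h0
  · rw [← h0]
    exact mul_nonneg hR0 hN0
  · have : (x ^ 2 + y ^ 2) * (x ^ 2 + y ^ 2) ≤ (x ^ 2 + y ^ 2) * (R * N) := by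
      nlinarith [hcs]
    exact le_of_mul_le_mul_left this h0

include hθ hadd hsq hne in
lemma sum_K_sq_le {t : F} (ht : t ≠ 0) (φ : F → ℝ) :
    ∑ a, K θ ψ β t φ a ^ 2 ≤
      ((Fintype.card F : ℝ) ^ 2 - 2 * Fintype.card F) * ∑ a, φ a ^ 2 := by
  -- choose `a₀`
  obtain ⟨a₀, ha₀⟩ : ∃ a₀ : F, ψ (t * (θ a₀ * a₀)) = -1 := by
    by_contra! hcon
    have hone : ∀ c, ψ (t * (θ c * c)) = 1 := by
      intro c
      rcases mul_self_eq_one_iff.1 (hsq (t * (θ c * c))) with h | h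
      · exact h
      · exact absurd h (hcon c)
    have := sum_psi_tits hθ hadd hsq hne ht
    simp [hone] at this
  have hrow : ∀ a, K θ ψ β t φ a ^ 2 + K θ ψ β t (J θ ψ t a₀ φ) a ^ 2 ≤
      (2 * (Fintype.card F : ℝ) - 4) * ∑ a, φ a ^ 2 := by
    intro a
    have hshift : ∀ f : F → ℝ, ∑ c, f (a + c) = ∑ c, f c := fun f =>
      Equiv.sum_comp (Equiv.addLeft a) f
    have h := bessel_two univ (kk θ ψ β t a) (fun c => φ (a + c))
      (fun c => J θ ψ t a₀ φ (a + c))
      (by rw [hshift (fun c => φ c * J θ ψ t a₀ φ c)]; exact sum_mul_J hadd ha₀ φ)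
      (by rw [hshift (fun c => J θ ψ t a₀ φ c ^ 2), hshift (fun c => φ c ^ 2)]
          exact sum_J_sq hsq t a₀ φ)
    rw [hshift (fun c => φ c ^ 2), sum_kk_sq hθ hadd hsq hne β ht a] at h
    exact h
  have hsum := Finset.sum_le_sum fun a (_ : a ∈ (univ : Finset F)) => hrow a
  rw [Finset.sum_add_distrib] at hsum
  have hJ : ∑ a, K θ ψ β t (J θ ψ t a₀ φ) a ^ 2 = ∑ a, K θ ψ β t φ a ^ 2 := by
    simp_rw [K_J hadd β t a₀ φ]
    exact sum_J_sq hsq t a₀ (K θ ψ β t φ)
  rw [hJ, Finset.sum_const, Finset.card_univ, nsmul_eq_mul] at hsum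
  linarith

/-! ### The partial Fourier transform -/

/-- The Fourier transform in the central variable. -/
noncomputable def ft (ψ : F → ℝ) (f : F → F → ℝ) (t a : F) : ℝ := ∑ b, f a b * ψ (t * b)

include hadd hsq hne in
lemma parseval (f g : F → F → ℝ) (a : F) :
    ∑ t, ft ψ f t a * ft ψ g t a = (Fintype.card F : ℝ) * ∑ b, f a b * g a b := by
  have h1 : ∀ t, ft ψ f t a * ft ψ g t a =
      ∑ b, ∑ b', f a b * g a b' * ψ (t * (b + b')) := by
    intro t
    rw [ft, ft, Finset.sum_mul_sum]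
    refine Finset.sum_congr rfl fun b _ => Finset.sum_congr rfl fun b' _ => ?_
    rw [mul_add, hadd]
    ring
  simp_rw [h1]
  rw [Finset.sum_comm, Finset.mul_sum]
  refine Finset.sum_congr rfl fun b _ => ?_
  rw [Finset.sum_comm]
  simp_rw [← Finset.mul_sum, sum_psi_mul hadd hsq hne]
  have h2 : ∀ b' : F, (f a b * g a b' * if b + b' = 0 then (Fintype.card F : ℝ) else 0) =
      if b' = b then (Fintype.card F : ℝ) * (f a b * g a b) else 0 := by
    intro b'
    have : b + b' = 0 ↔ b' = b := by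
      rw [CharTwo.add_eq_zero]
      exact eq_comm
    by_cases h : b' = b
    · rw [if_pos (this.2 h), if_pos h, h]
      ring
    · rw [if_neg (fun hh => h (this.1 hh)), if_neg h, mul_zero]
  simp_rw [h2]
  simp

omit [DecidableEq F] in
include hadd in
lemma sum_shift (g : F → ℝ) (t w : F) :
    ∑ b, g (b + w) * ψ (t * b) = ψ (t * w) * ∑ b, g b * ψ (t * b) := by
  have h : ∑ b, g (b + w) * ψ (t * b) = ∑ b, g (b + w + w) * ψ (t * (b + w)) :=
    (Equiv.sum_comp (Equiv.addRight w) (fun b => g (b + w) * ψ (t * b))).symm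
  rw [h, Finset.mul_sum]
  refine Finset.sum_congr rfl fun b _ => ?_
  rw [add_assoc, CharTwo.add_self_eq_zero, add_zero, mul_add, hadd]
  ring

/-- The adjacency operator of the Cayley graph. -/
noncomputable def Adj (θ : F →+* F) (β : F) (g : F → F → ℝ) (a b : F) : ℝ :=
  ∑ c, if c = 0 then 0 else
    (g (a + c) (b + (θ a * c + β * (θ c * c)))
      + g (a + c) (b + (θ a * c + β * (θ c * c) + θ c * c)))

include hadd in
lemma ft_Adj (g : F → F → ℝ) (t a : F) :
    ft ψ (Adj θ β g) t a = K θ ψ β t (ft ψ g t) a := by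
  simp only [ft, Adj, K]
  simp_rw [Finset.sum_mul]
  rw [Finset.sum_comm]
  refine Finset.sum_congr rfl fun c _ => ?_
  by_cases hc : c = 0
  · simp [hc, kk]
  · simp only [if_neg hc, kk]
    simp_rw [add_mul]
    rw [Finset.sum_add_distrib, sum_shift hadd (g (a + c)), sum_shift hadd (g (a + c)),
      mul_add t _ (θ c * c), hadd]
    ring

include hadd hsq in
lemma K_zero (χ : F → ℝ) (a : F) : K θ ψ β 0 χ a = 2 * (∑ c, χ c - χ a) := by
  have h1 : ∀ c, kk θ ψ β 0 a c * χ (a + c) = 2 * χ (a + c) - if c = 0 then 2 * χ a else 0 := by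
    intro c
    by_cases hc : c = 0
    · simp [kk, hc]
    · rw [kk, if_neg hc, if_neg hc, zero_mul, zero_mul, psi_zero hadd hsq]
      ring
  rw [K]
  simp_rw [h1]
  rw [Finset.sum_sub_distrib, ← Finset.mul_sum]
  have h2 : ∑ c, χ (a + c) = ∑ c, χ c := Equiv.sum_comp (Equiv.addLeft a) χ
  rw [h2]
  simp
  ring

/-- The Fourier transform with the constant part removed. -/
noncomputable def fb (ψ : F → ℝ) (f : F → F → ℝ) (t a : F) : ℝ :=
  ft ψ f t a - if t = 0 then (∑ a, ∑ b, f a b) / Fintype.card F else 0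

omit [CharP F 2] [DecidableEq F] in
include hadd hsq in
lemma sum_ft_zero (f : F → F → ℝ) : ∑ a, ft ψ f 0 a = ∑ a, ∑ b, f a b := by
  refine Finset.sum_congr rfl fun a _ => ?_
  rw [ft]
  refine Finset.sum_congr rfl fun b _ => ?_
  rw [zero_mul, psi_zero hadd hsq, mul_one]

omit [CharP F 2] in
include hadd hsq in
lemma sum_fb_zero (f : F → F → ℝ) : ∑ a, fb ψ f 0 a = 0 := by
  have hq : (Fintype.card F : ℝ) ≠ 0 := by simp
  simp only [fb, if_true]
  rw [Finset.sum_sub_distrib, sum_ft_zero hadd hsq, Finset.sum_const, Finset.card_univ,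
    nsmul_eq_mul]
  field_simp
  ring

include hadd hsq hne in
lemma sum_fb_sq (f : F → F → ℝ) :
    ∑ t, ∑ a, fb ψ f t a ^ 2 =
      (Fintype.card F : ℝ) * (∑ a, ∑ b, f a b ^ 2) - (∑ a, ∑ b, f a b) ^ 2 / Fintype.card F := by
  have hq : (Fintype.card F : ℝ) ≠ 0 := by simp
  set S := ∑ a, ∑ b, f a b with hS
  have h1 : ∀ t, ∑ a, fb ψ f t a ^ 2 =
      ∑ a, ft ψ f t a ^ 2 - if t = 0 then S ^ 2 / Fintype.card F else 0 := by
    intro t
    by_cases ht : t = 0
    · subst ht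
      simp only [fb, if_true, sub_sq]
      rw [Finset.sum_add_distrib, Finset.sum_sub_distrib, ← Finset.sum_mul, ← Finset.mul_sum,
        sum_ft_zero hadd hsq, ← hS, Finset.sum_const, Finset.card_univ, nsmul_eq_mul]
      field_simp
      ring
    · simp only [fb, if_neg ht, sub_zero]
  simp_rw [h1]
  rw [Finset.sum_sub_distrib, Finset.sum_comm]
  have h2 : ∀ a, ∑ t, ft ψ f t a ^ 2 = (Fintype.card F : ℝ) * ∑ b, f a b ^ 2 := by
    intro a
    have := parseval hadd hsq hne f f a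
    simpa only [← sq] using this
  simp_rw [h2]
  rw [← Finset.mul_sum]
  simp

include hadd hsq hne in
/-- The central identity. -/
lemma sum_fb_K (f g : F → F → ℝ) (h0 : ∑ a, ∑ b, f a b * Adj θ β g a b = 0) :
    ∑ t, ∑ a, fb ψ f t a * K θ ψ β t (fb ψ g t) a =
      -2 * (∑ a, ∑ b, f a b) * (∑ a, ∑ b, g a b) * (1 - 1 / Fintype.card F) := by
  have hq : (Fintype.card F : ℝ) ≠ 0 := by simp
  -- the full sum vanishes
  have hfull : ∑ t, ∑ a, ft ψ f t a * K θ ψ β t (ft ψ g t) a = 0 := by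
    rw [Finset.sum_comm]
    have : ∀ a, ∑ t, ft ψ f t a * K θ ψ β t (ft ψ g t) a =
        (Fintype.card F : ℝ) * ∑ b, f a b * Adj θ β g a b := by
      intro a
      rw [← parseval hadd hsq hne]
      refine Finset.sum_congr rfl fun t _ => ?_
      rw [ft_Adj hadd β]
    simp_rw [this]
    rw [← Finset.mul_sum, h0, mul_zero]
  set S := ∑ a, ∑ b, f a b with hS
  set T := ∑ a, ∑ b, g a b with hT
  have h1 : ∀ t, ∑ a, fb ψ f t a * K θ ψ β t (fb ψ g t) a =
      ∑ a, ft ψ f t a * K θ ψ β t (ft ψ g t) a -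
        if t = 0 then 2 * S * T * (1 - 1 / Fintype.card F) else 0 := by
    intro t
    by_cases ht : t = 0
    · subst ht
      simp only [K_zero hadd hsq β, sum_fb_zero hadd hsq, sum_ft_zero hadd hsq, if_true]
      simp only [fb, if_true]
      rw [← hS, ← hT]
      have e1 : ∑ a, (ft ψ f 0 a - S / Fintype.card F) *
          (2 * (0 - (ft ψ g 0 a - T / Fintype.card F))) =
          ∑ a, (-2 * (ft ψ f 0 a * ft ψ g 0 a) + (2 * (T / Fintype.card F)) * ft ψ f 0 a
            + (2 * (S / Fintype.card F)) * ft ψ g 0 a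
            - 2 * (S / Fintype.card F) * (T / Fintype.card F)) :=
        Finset.sum_congr rfl fun a _ => by ring
      have e2 : ∑ a, ft ψ f 0 a * (2 * (T - ft ψ g 0 a)) =
          ∑ a, ((2 * T) * ft ψ f 0 a + -2 * (ft ψ f 0 a * ft ψ g 0 a)) :=
        Finset.sum_congr rfl fun a _ => by ring
      rw [e1, e2]
      simp only [Finset.sum_add_distrib, Finset.sum_sub_distrib, ← Finset.mul_sum,
        sum_ft_zero hadd hsq, Finset.sum_const, Finset.card_univ, nsmul_eq_mul]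
      rw [← hS, ← hT]
      field_simp
      ring
    · have e1 : fb ψ f t = ft ψ f t := by
        funext a
        simp only [fb, if_neg ht, sub_zero]
      have e2 : fb ψ g t = ft ψ g t := by
        funext a
        simp only [fb, if_neg ht, sub_zero]
      rw [e1, e2, if_neg ht, sub_zero]
  simp_rw [h1]
  rw [Finset.sum_sub_distrib, hfull]
  simp

include hθ hadd hsq hne in
/-- The spectral bound for two sets with no edges between them, in functional form. -/
lemma key_bound (hcard : 3 ≤ Fintype.card F) (f g : F → F → ℝ)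
    (h0 : ∑ a, ∑ b, f a b * Adj θ β g a b = 0) :
    4 * (∑ a, ∑ b, f a b) ^ 2 * (∑ a, ∑ b, g a b) ^ 2 ≤
      ((Fintype.card F : ℝ) ^ 2 * (∑ a, ∑ b, f a b ^ 2) - (∑ a, ∑ b, f a b) ^ 2) *
      ((Fintype.card F : ℝ) ^ 2 * (∑ a, ∑ b, g a b ^ 2) - (∑ a, ∑ b, g a b) ^ 2) := by
  have hq3 : (3 : ℝ) ≤ Fintype.card F := by exact_mod_cast hcard
  have hq0 : (0 : ℝ) < Fintype.card F := by linarith
  have hfS := sum_fb_sq hadd hsq hne f
  have hgS := sum_fb_sq hadd hsq hne g
  have hid := sum_fb_K hadd hsq hne β f g h0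
  have hK : ∑ t, ∑ a, K θ ψ β t (fb ψ g t) a ^ 2 ≤
      ((Fintype.card F : ℝ) - 1) ^ 2 * ∑ t, ∑ a, fb ψ g t a ^ 2 := by
    rw [Finset.mul_sum]
    refine Finset.sum_le_sum fun t _ => ?_
    have hnn : 0 ≤ ∑ a, fb ψ g t a ^ 2 := Finset.sum_nonneg fun a _ => sq_nonneg _
    by_cases ht : t = 0
    · subst ht
      simp only [K_zero hadd hsq β, sum_fb_zero hadd hsq]
      have : ∀ a, (2 * (0 - fb ψ g 0 a)) ^ 2 = 4 * fb ψ g 0 a ^ 2 := fun a => by ring
      simp_rw [this]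
      rw [← Finset.mul_sum]
      exact mul_le_mul_of_nonneg_right (by nlinarith) hnn
    · refine (sum_K_sq_le hθ hadd hsq hne β ht _).trans ?_
      exact mul_le_mul_of_nonneg_right (by nlinarith) hnn
  have hcs := Finset.sum_mul_sq_le_sq_mul_sq (univ : Finset (F × F))
    (fun p => fb ψ f p.1 p.2) (fun p => K θ ψ β p.1 (fb ψ g p.1) p.2)
  simp only [Fintype.sum_prod_type] at hcs
  rw [hid, hfS] at hcs
  rw [hgS] at hK
  generalize (∑ a, ∑ b, f a b) = S at *
  generalize (∑ a, ∑ b, g a b) = T at *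
  generalize hf2 : (∑ a, ∑ b, f a b ^ 2) = S2 at *
  generalize (∑ a, ∑ b, g a b ^ 2) = T2 at *
  generalize (Fintype.card F : ℝ) = q at *
  have hSnn : 0 ≤ q * S2 - S ^ 2 / q := by
    rw [← hfS]
    exact Finset.sum_nonneg fun t _ => Finset.sum_nonneg fun a _ => sq_nonneg _
  have h3 := hcs.trans (mul_le_mul_of_nonneg_left hK hSnn)
  have e1 : (-2 * S * T * (1 - 1 / q)) ^ 2 = (q - 1) ^ 2 / q ^ 2 * (4 * S ^ 2 * T ^ 2) := by
    field_simp
    ring
  have e2 : (q * S2 - S ^ 2 / q) * ((q - 1) ^ 2 * (q * T2 - T ^ 2 / q)) =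
      (q - 1) ^ 2 / q ^ 2 * ((q ^ 2 * S2 - S ^ 2) * (q ^ 2 * T2 - T ^ 2)) := by
    field_simp
  rw [e1, e2] at h3
  exact le_of_mul_le_mul_left h3 (by
    have : 0 < q - 1 := by linarith
    positivity)

end Tits

/-- Two nonempty sets of `F × F` with `(q² - |B|)(q² - |C|) < 4 |B| |C|` are joined by an edge of
the Cayley graph. -/
theorem exists_edge {F : Type*} [Field F] [Fintype F] [CharP F 2] {θ : F →+* F}
    (hθ : ∀ x, θ (θ x) = x ^ 2) (hcard : 3 ≤ Fintype.card F) (β : F) (B C : Finset (F × F))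
    (hB : B.Nonempty) (hC : C.Nonempty)
    (hBC : ((Fintype.card F : ℝ) ^ 2 - B.card) * ((Fintype.card F : ℝ) ^ 2 - C.card) <
      4 * B.card * C.card) :
    ∃ a b c : F, c ≠ 0 ∧ (a, b) ∈ B ∧
      ((a + c, b + (θ a * c + β * (θ c * c))) ∈ C ∨
        (a + c, b + (θ a * c + β * (θ c * c) + θ c * c)) ∈ C) := by
  classical
  by_contra! hcon
  obtain ⟨ψ, hadd, hsq, hne⟩ := exists_signChar (F := F)
  let f : F → F → ℝ := fun a b => if (a, b) ∈ B then 1 else 0
  let g : F → F → ℝ := fun a b => if (a, b) ∈ C then 1 else 0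
  have hsum : ∀ D : Finset (F × F), (∑ a, ∑ b, if (a, b) ∈ D then (1 : ℝ) else 0) = D.card := by
    intro D
    rw [← Fintype.sum_prod_type (f := fun p : F × F => if p ∈ D then (1 : ℝ) else 0)]
    simp
  have hf1 : ∑ a, ∑ b, f a b = B.card := hsum B
  have hg1 : ∑ a, ∑ b, g a b = C.card := hsum C
  have hf2 : ∑ a, ∑ b, f a b ^ 2 = B.card := by
    rw [← hsum B]
    refine Finset.sum_congr rfl fun a _ => Finset.sum_congr rfl fun b _ => ?_
    simp only [f]
    split_ifs <;> norm_num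
  have hg2 : ∑ a, ∑ b, g a b ^ 2 = C.card := by
    rw [← hsum C]
    refine Finset.sum_congr rfl fun a _ => Finset.sum_congr rfl fun b _ => ?_
    simp only [g]
    split_ifs <;> norm_num
  have h0 : ∑ a, ∑ b, f a b * Adj θ β g a b = 0 := by
    refine Finset.sum_eq_zero fun a _ => Finset.sum_eq_zero fun b _ => ?_
    by_cases hab : (a, b) ∈ B
    · have : Adj θ β g a b = 0 := by
        refine Finset.sum_eq_zero fun c _ => ?_
        by_cases hc : c = 0
        · rw [if_pos hc]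
        · obtain ⟨h1, h2⟩ := hcon a b c hc hab
          rw [if_neg hc]
          simp only [g, if_neg h1, if_neg h2, add_zero]
      rw [this, mul_zero]
    · simp only [f, if_neg hab, zero_mul]
  have key := key_bound hθ hadd hsq hne β hcard f g h0
  rw [hf1, hg1, hf2, hg2] at key
  have hb : (0 : ℝ) < B.card := by exact_mod_cast hB.card_pos
  have hc : (0 : ℝ) < C.card := by exact_mod_cast hC.card_pos
  have e1 : ((Fintype.card F : ℝ) ^ 2 * B.card - (B.card : ℝ) ^ 2) *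
      ((Fintype.card F : ℝ) ^ 2 * C.card - (C.card : ℝ) ^ 2) =
      (B.card * C.card : ℝ) *
        (((Fintype.card F : ℝ) ^ 2 - B.card) * ((Fintype.card F : ℝ) ^ 2 - C.card)) := by ring
  have e2 : 4 * (B.card : ℝ) ^ 2 * (C.card : ℝ) ^ 2 =
      (B.card * C.card : ℝ) * (4 * B.card * C.card) := by ring
  rw [e1, e2] at key
  exact absurd (le_of_mul_le_mul_left key (by positivity)) (not_le.2 hBC)

end Pool.Agent.Helper21.Suzuki
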